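import Mathlib
import Pool.Agent.Lib.MP_7c08ba_nt.Arith

set_option autoImplicit false

/-!
The ramified prime and the inert primes of `ℚ(√-q)`.
-/

namespace Pool.Agent.Lib.MP_7c08ba_nt

set_option linter.unusedSectionVars false

open NumberField IsDedekindDomain Module

/-- `u` is a unit square at `v`, in a form suited to the prime `2` as well. -/
def LocSq {F : Type*} [Field F] (v : HeightOneSpectrum (𝓞 F)) (u : F) : Prop :=
  ∃ (t m : 𝓞 F) (b : F), b ≠ 0 ∧ t ∉ v.asIdeal ∧ m ∈ v.asIdeal ∧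
    (t : F) ^ 2 - 4 * (m : F) = b ^ 2 * u

section

variable {F : Type*} [Field F] [NumberField F]

lemma one_notMem (v : HeightOneSpectrum (𝓞 F)) : (1 : 𝓞 F) ∉ v.asIdeal :=
  fun h => v.isPrime.ne_top ((Ideal.eq_top_iff_one _).mpr h)

/-- Square classes of values: multiplicativity. -/
lemma isSquare_val_mul_sq (v : HeightOneSpectrum (𝓞 F)) {u b : F} (hb : b ≠ 0) :
    IsSquare (v.valuation F (u * b ^ 2)) ↔ IsSquare (v.valuation F u) := by
  have e3 : v.valuation F b ≠ 0 := (Valuation.ne_zero_iff _).mpr hb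
  rw [map_mul, map_pow]
  constructor
  · rintro ⟨γ, hγ⟩
    refine ⟨γ * (v.valuation F b)⁻¹, ?_⟩
    rw [mul_mul_mul_comm, ← hγ, ← mul_inv, ← sq, mul_inv_cancel_right₀ (pow_ne_zero 2 e3)]
  · rintro ⟨γ, hγ⟩
    refine ⟨γ * v.valuation F b, ?_⟩
    rw [hγ, sq, mul_mul_mul_comm]

/-- Nonsquare times nonsquare is a square in the value group. -/
lemma isSquare_mul_of_not {a b : WithZero (Multiplicative ℤ)} (ha : ¬ IsSquare a)
    (hb : ¬ IsSquare b) : IsSquare (a * b) := by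
  have ha0 : a ≠ 0 := by
    rintro rfl
    exact ha ⟨0, by simp⟩
  have hb0 : b ≠ 0 := by
    rintro rfl
    exact hb ⟨0, by simp⟩
  rw [← WithZero.exp_log ha0] at ha ⊢
  rw [← WithZero.exp_log hb0] at hb ⊢
  have key : ∀ k : ℤ, ¬ IsSquare (WithZero.exp k : WithZero (Multiplicative ℤ)) → k % 2 = 1 := by
    intro k hk
    by_contra hcon
    apply hk
    refine ⟨WithZero.exp (k / 2), ?_⟩
    rw [← WithZero.exp_add]
    congr 1
    omega
  have h1 := key _ ha
  have h2 := key _ hb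
  rw [← WithZero.exp_add]
  refine ⟨WithZero.exp ((WithZero.log a + WithZero.log b) / 2), ?_⟩
  rw [← WithZero.exp_add]
  congr 1
  omega

/-- A square times a nonsquare is a nonsquare in the value group. -/
lemma not_isSquare_mul {a b : WithZero (Multiplicative ℤ)} (ha : IsSquare a) (ha0 : a ≠ 0)
    (hb : ¬ IsSquare b) : ¬ IsSquare (a * b) := by
  rintro ⟨γ, hγ⟩
  obtain ⟨δ, rfl⟩ := ha
  apply hb
  have hδ : δ ≠ 0 := fun h => ha0 (by rw [h, mul_zero])
  refine ⟨δ⁻¹ * γ, ?_⟩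
  rw [mul_mul_mul_comm, ← hγ, ← mul_inv, inv_mul_cancel_left₀ ha0]

lemma exp_neg_one_not_isSquare :
    ¬ IsSquare (WithZero.exp (-1 : ℤ) : WithZero (Multiplicative ℤ)) := by
  rintro ⟨γ, hγ⟩
  have hγ0 : γ ≠ 0 := by
    rintro rfl
    rw [mul_zero] at hγ
    exact WithZero.exp_ne_zero hγ
  rw [← WithZero.exp_log hγ0, ← WithZero.exp_add] at hγ
  have := WithZero.exp_injective hγ
  omega

lemma LocSq.isSquare_val {v : HeightOneSpectrum (𝓞 F)} {u : F} (h : LocSq v u) :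
    IsSquare (v.valuation F u) := by
  obtain ⟨t, m, b, hb, ht, hm, htm⟩ := h
  rw [← isSquare_val_mul_sq v hb]
  have h1 : u * b ^ 2 = ((t ^ 2 - 4 * m : 𝓞 F) : F) := by
    rw [mul_comm, ← htm]
    push_cast
    rfl
  have h2 : (t ^ 2 - 4 * m : 𝓞 F) ∉ v.asIdeal := by
    intro h
    apply ht
    have h3 : t ^ 2 ∈ v.asIdeal := by
      have := v.asIdeal.add_mem h (v.asIdeal.mul_mem_left 4 hm)
      simpa using this
    exact v.isPrime.mem_of_pow_mem 2 h3
  rw [h1, v.valuation_eq_one_iff_notMem.mpr h2]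
  exact ⟨1, by simp⟩

lemma LocSq.mul {v : HeightOneSpectrum (𝓞 F)} {u u' : F} (h : LocSq v u) (h' : LocSq v u') :
    LocSq v (u * u') := by
  obtain ⟨t, m, b, hb, ht, hm, htm⟩ := h
  obtain ⟨t', m', b', hb', ht', hm', htm'⟩ := h'
  refine ⟨t * t', t ^ 2 * m' + t' ^ 2 * m - 4 * m * m', b * b', mul_ne_zero hb hb', ?_, ?_, ?_⟩
  · intro h
    rcases v.isPrime.mem_or_mem h with h1 | h1
    · exact ht h1
    · exact ht' h1
  · refine v.asIdeal.sub_mem (v.asIdeal.add_mem (v.asIdeal.mul_mem_left _ hm')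
      (v.asIdeal.mul_mem_left _ hm)) (v.asIdeal.mul_mem_left _ hm')
  · simp only [RingOfIntegers.coe_eq_algebraMap, map_mul, map_sub, map_add, map_pow,
      map_ofNat] at htm htm' ⊢
    linear_combination ((algebraMap (𝓞 F) F t') ^ 2 - 4 * algebraMap (𝓞 F) F m') * htm +
      b ^ 2 * u * htm'

lemma LocSq.mul_sq {v : HeightOneSpectrum (𝓞 F)} {u a : F} (ha : a ≠ 0) (h : LocSq v u) :
    LocSq v (u * a ^ 2) := by
  obtain ⟨t, m, b, hb, ht, hm, htm⟩ := h
  refine ⟨t, m, b / a, div_ne_zero hb ha, ht, hm, ?_⟩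
  rw [htm]
  field_simp

end

section

variable {F : Type*} [Field F] [NumberField F] {q : ℕ} (hq0 : 0 < q)
  (hF : finrank ℚ F = 2) {s : F} (hs : s ^ 2 = -(q : F)) (hq : q.Prime)

/-- The square root of `-q` as an algebraic integer. -/
noncomputable def sI (hs : s ^ 2 = -(q : F)) : 𝓞 F := ⟨s, isIntegral_s hs⟩

lemma sI_coe : ((sI hs : 𝓞 F) : F) = s := rfl

lemma algebraMap_sI : algebraMap (𝓞 F) F (sI hs) = s := rfl

lemma sI_sq : (sI hs) ^ 2 = -(q : 𝓞 F) := by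
  apply RingOfIntegers.ext
  simp only [map_pow, map_neg, map_natCast, algebraMap_sI]
  exact hs

include hq0 hF hs in
/-- Norms in terms of half-integral coordinates. -/
lemma four_norm {z : 𝓞 F} {A B : ℤ} (h : 2 * (z : F) = A + B * s) :
    4 * Algebra.norm ℤ z = A ^ 2 + q * B ^ 2 := by
  have h1 : (z : F) = ((A / 2 : ℚ) : F) + ((B / 2 : ℚ) : F) * s := by
    push_cast
    linear_combination h / 2
  have h2 := Algebra.coe_norm_int z
  rw [h1, (norm_trace hq0 hF hs _ _).1] at h2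
  have h3 : ((4 * Algebra.norm ℤ z : ℤ) : ℚ) = ((A ^ 2 + q * B ^ 2 : ℤ) : ℚ) := by
    push_cast
    rw [h2]
    ring
  exact_mod_cast h3

include hq0 hF hs in
lemma norm_int (a : ℤ) : Algebra.norm ℤ (a : 𝓞 F) = a ^ 2 := by
  have h1 : 2 * ((a : 𝓞 F) : F) = ((2 * a : ℤ) : F) + ((0 : ℤ) : F) * s := by
    rw [RingOfIntegers.coe_eq_algebraMap, map_intCast]
    push_cast
    ring
  have h2 := four_norm hq0 hF hs h1
  linarith

include hq0 hF in
lemma norm_sI : Algebra.norm ℤ (sI hs) = q := by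
  have h1 : 2 * ((sI hs : 𝓞 F) : F) = ((0 : ℤ) : F) + ((2 : ℤ) : F) * s := by
    rw [sI_coe]
    push_cast
    ring
  have h2 := four_norm hq0 hF hs h1
  linarith

include hq0 hF hq in
lemma spanS_isPrime : (Ideal.span {sI hs}).IsPrime := by
  apply Ideal.isPrime_of_irreducible_absNorm
  rw [Ideal.absNorm_span_singleton, norm_sI hq0 hF hs, Int.natAbs_natCast]
  exact hq

include hq0 in
lemma sI_ne_zero : sI hs ≠ 0 := by
  intro h
  have h1 := sI_sq hs
  rw [h, zero_pow two_ne_zero, eq_comm, neg_eq_zero] at h1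
  exact hq0.ne' (by exact_mod_cast h1)

include hq0 hF hq in
lemma asIdeal_of_sI_mem {v : HeightOneSpectrum (𝓞 F)} (hv : sI hs ∈ v.asIdeal) :
    v.asIdeal = Ideal.span {sI hs} := by
  have h1 : (Ideal.span {sI hs}).IsMaximal := by
    refine (spanS_isPrime hq0 hF hs hq).isMaximal ?_
    rw [Ne, Ideal.span_singleton_eq_bot]
    exact sI_ne_zero hq0 hs
  exact (h1.eq_of_le v.isPrime.ne_top ((Ideal.span_singleton_le_iff_mem _).mpr hv)).symm

include hq0 hF hq in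
lemma val_s_not_isSquare {v : HeightOneSpectrum (𝓞 F)} (hv : sI hs ∈ v.asIdeal) :
    ¬ IsSquare (v.valuation F s) := by
  have h1 : v.valuation F s = v.intValuation (sI hs) := by
    rw [← v.valuation_of_algebraMap (K := F)]
    rfl
  rw [h1, v.intValuation_singleton (sI_ne_zero hq0 hs) (asIdeal_of_sI_mem hq0 hF hs hq hv)]
  exact exp_neg_one_not_isSquare

include hq0 hF hq in
/-- Every algebraic integer is congruent to a rational integer modulo `√-q`. -/
lemma exists_res (hq2 : q ≠ 2) (z : 𝓞 F) : ∃ a : ℤ, z - a ∈ Ideal.span {sI hs} := by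
  obtain ⟨A, B, hAB⟩ := exists_int_coords hq0 hF hs hq z.isIntegral_coe
  obtain ⟨k, hk⟩ : ∃ k, q = 2 * k + 1 := by
    rcases hq.eq_two_or_odd' with h | h
    · exact absurd h hq2
    · exact h
  refine ⟨(k + 1) * A, ?_⟩
  rw [Ideal.mem_span_singleton]
  refine ⟨(k + 1) * B + sI hs * z, ?_⟩
  apply RingOfIntegers.ext
  have h8 : ((q : F)) = 2 * k + 1 := by
    rw [hk]
    push_cast
    ring
  simp only [map_mul, map_sub, map_add, map_natCast,
    map_intCast, map_one, algebraMap_sI, Int.cast_mul, Int.cast_add, Int.cast_one,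
    Int.cast_natCast] at hAB ⊢
  linear_combination ((k : F) + 1) * hAB - (algebraMap (𝓞 F) F z) * hs +
    (algebraMap (𝓞 F) F z) * h8

include hq0 hF in
lemma dvd_of_int_mem (hqp : q.Prime) {a : ℤ} (h : (a : 𝓞 F) ∈ Ideal.span {sI hs}) :
    (q : ℤ) ∣ a := by
  rw [Ideal.mem_span_singleton] at h
  obtain ⟨z, hz⟩ := h
  have h1 := congrArg (Algebra.norm ℤ) hz
  rw [norm_int hq0 hF hs, map_mul, norm_sI hq0 hF hs] at h1
  exact (Nat.prime_iff_prime_int.mp hqp).dvd_of_dvd_pow ⟨_, h1⟩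

/-- In the inert case the norm form is anisotropic modulo `r`. -/
lemma inert_dvd {q r : ℕ} (hr : r.Prime) (hin : ¬ IsSquare (((-q : ℤ)) : ZMod r)) {A B : ℤ}
    (h : (r : ℤ) ∣ A ^ 2 + q * B ^ 2) : (r : ℤ) ∣ A ∧ (r : ℤ) ∣ B := by
  have : Fact r.Prime := ⟨hr⟩
  have h1 : ((A : ZMod r)) ^ 2 + q * (B : ZMod r) ^ 2 = 0 := by
    have := (ZMod.intCast_zmod_eq_zero_iff_dvd (A ^ 2 + q * B ^ 2) r).mpr h
    push_cast at this
    exact this
  have hB : (B : ZMod r) = 0 := by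
    by_contra hB
    apply hin
    refine ⟨(A : ZMod r) / B, ?_⟩
    push_cast
    field_simp
    linear_combination -h1
  have hA : (A : ZMod r) = 0 := by
    rw [hB] at h1
    have : (A : ZMod r) ^ 2 = 0 := by linear_combination h1
    exact pow_eq_zero_iff two_ne_zero |>.mp this
  exact ⟨(ZMod.intCast_zmod_eq_zero_iff_dvd A r).mp hA,
    (ZMod.intCast_zmod_eq_zero_iff_dvd B r).mp hB⟩

include hq0 hF hs hq in
/-- An algebraic integer whose coordinates are divisible by an odd prime is divisible by it. -/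
lemma dvd_of_coords {r : ℕ} (hr : r.Prime) (hr2 : r ≠ 2) {z : 𝓞 F} {A B : ℤ}
    (h : 2 * (z : F) = A + B * s) (hA : (r : ℤ) ∣ A) (hB : (r : ℤ) ∣ B) : (r : 𝓞 F) ∣ z := by
  obtain ⟨A', rfl⟩ := hA
  obtain ⟨B', rfl⟩ := hB
  obtain ⟨k, hk⟩ : ∃ k, r = 2 * k + 1 := by
    rcases hr.eq_two_or_odd' with h | h
    · exact absurd h hr2
    · exact h
  refine ⟨z - k * (A' + B' * sI hs), ?_⟩
  apply RingOfIntegers.ext
  have h8 : ((r : F)) = 2 * k + 1 := by
    rw [hk]
    push_cast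
    ring
  push_cast at h
  simp only [RingOfIntegers.coe_eq_algebraMap, map_mul, map_sub, map_add, map_natCast,
    map_intCast, algebraMap_sI] at h ⊢
  rw [h8] at h ⊢
  linear_combination (-(k : F)) * h

include hq0 hF hs hq in
/-- Inert primes stay prime. -/
lemma spanR_isPrime {r : ℕ} (hr : r.Prime) (hr2 : r ≠ 2)
    (hin : ¬ IsSquare (((-q : ℤ)) : ZMod r)) : (Ideal.span {(r : 𝓞 F)}).IsPrime := by
  have hr0 : (r : 𝓞 F) ≠ 0 := by exact_mod_cast hr.ne_zero
  rw [Ideal.span_singleton_prime hr0]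
  refine ⟨hr0, ?_, ?_⟩
  · intro hu
    have h1 := hu.map (Algebra.norm ℤ)
    have h2 : ((r : ℤ) : 𝓞 F) = (r : 𝓞 F) := by push_cast; rfl
    rw [← h2, norm_int hq0 hF hs] at h1
    have h3 : IsUnit (r : ℤ) := (isUnit_pow_iff two_ne_zero).mp h1
    exact (Nat.prime_iff_prime_int.mp hr).not_isUnit h3
  · rintro z z' ⟨w, hw⟩
    obtain ⟨A, B, hAB⟩ := exists_int_coords hq0 hF hs hq z.isIntegral_coe
    obtain ⟨C, D, hCD⟩ := exists_int_coords hq0 hF hs hq z'.isIntegral_coe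
    obtain ⟨E, G, hEG⟩ := exists_int_coords hq0 hF hs hq w.isIntegral_coe
    have hw' : (z : F) * z' = r * w := by
      have := congrArg (fun t : 𝓞 F => (t : F)) hw
      simpa using this
    have h1 : ((A * C - q * B * D : ℚ) : F) + ((A * D + B * C : ℚ) : F) * s =
        ((2 * r * E : ℚ) : F) + ((2 * r * G : ℚ) : F) * s := by
      push_cast
      linear_combination 4 * hw' - 2 * (z' : F) * hAB - (A + B * s) * hCD + 2 * (r : F) * hEG -
        (B : F) * D * hs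
    obtain ⟨h2, h3⟩ := coords_inj hq0 hs h1
    have h4 : A * C - q * B * D = 2 * r * E := by exact_mod_cast h2
    have h5 : A * D + B * C = 2 * r * G := by exact_mod_cast h3
    have h6 : (r : ℤ) ∣ (A ^ 2 + q * B ^ 2) * (C ^ 2 + q * D ^ 2) := by
      refine ⟨2 * E * (A * C - q * B * D) + 2 * q * G * (A * D + B * C), ?_⟩
      linear_combination (A * C - q * B * D) * h4 + q * (A * D + B * C) * h5
    rcases (Nat.prime_iff_prime_int.mp hr).dvd_or_dvd h6 with h7 | h7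
    · left
      obtain ⟨h8, h9⟩ := inert_dvd hr hin h7
      exact dvd_of_coords hq0 hF hs hq hr hr2 hAB h8 h9
    · right
      obtain ⟨h8, h9⟩ := inert_dvd hr hin h7
      exact dvd_of_coords hq0 hF hs hq hr hr2 hCD h8 h9

include hq0 hF hs hq in
lemma asIdeal_of_r_mem {r : ℕ} (hr : r.Prime) (hr2 : r ≠ 2)
    (hin : ¬ IsSquare (((-q : ℤ)) : ZMod r)) {v : HeightOneSpectrum (𝓞 F)}
    (hv : (r : 𝓞 F) ∈ v.asIdeal) : v.asIdeal = Ideal.span {(r : 𝓞 F)} := by
  have hr0 : (r : 𝓞 F) ≠ 0 := by exact_mod_cast hr.ne_zero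
  have h1 : (Ideal.span {(r : 𝓞 F)}).IsMaximal := by
    refine (spanR_isPrime hq0 hF hs hq hr hr2 hin).isMaximal ?_
    rw [Ne, Ideal.span_singleton_eq_bot]
    exact hr0
  exact (h1.eq_of_le v.isPrime.ne_top ((Ideal.span_singleton_le_iff_mem _).mpr hv)).symm

include hq0 hF hs hq in
/-- Norms are congruent modulo `r` when the elements are. -/
lemma norm_congr {r : ℕ} (hr : r.Prime) (hr2 : r ≠ 2) (z w : 𝓞 F) :
    (r : ℤ) ∣ Algebra.norm ℤ (z + r * w) - Algebra.norm ℤ z := by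
  obtain ⟨A, B, hAB⟩ := exists_int_coords hq0 hF hs hq z.isIntegral_coe
  obtain ⟨C, D, hCD⟩ := exists_int_coords hq0 hF hs hq w.isIntegral_coe
  have h1 : 2 * ((z + r * w : 𝓞 F) : F) = ((A + r * C : ℤ) : F) + ((B + r * D : ℤ) : F) * s := by
    have h0 : ((z + r * w : 𝓞 F) : F) = z + r * w := by
      simp only [RingOfIntegers.coe_eq_algebraMap, map_mul, map_add, map_natCast]
    rw [h0]
    push_cast
    linear_combination hAB + (r : F) * hCD
  have h2 := four_norm hq0 hF hs h1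
  have h3 := four_norm hq0 hF hs hAB
  have h4 : (r : ℤ) ∣ 4 * (Algebra.norm ℤ (z + r * w) - Algebra.norm ℤ z) := by
    refine ⟨2 * A * C + r * C ^ 2 + q * (2 * B * D + r * D ^ 2), ?_⟩
    linear_combination h2 - h3
  have hrp := Nat.prime_iff_prime_int.mp hr
  rcases hrp.dvd_or_dvd h4 with h5 | h5
  · exfalso
    have h6 : (r : ℤ) ∣ 2 ^ 2 := by norm_num; exact h5
    have h7 : (r : ℤ) ∣ 2 := hrp.dvd_of_dvd_pow h6
    have h8 : r ∣ 2 := by exact_mod_cast h7
    exact hr2 ((Nat.prime_dvd_prime_iff_eq hr Nat.prime_two).mp h8)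
  · exact h5

include hq0 hF hs hq in
/-- Norms of elements prime to an inert prime. -/
lemma not_dvd_norm {r : ℕ} (hr : r.Prime) (hr2 : r ≠ 2)
    (hin : ¬ IsSquare (((-q : ℤ)) : ZMod r)) {z : 𝓞 F} (hz : ¬ (r : 𝓞 F) ∣ z) :
    ¬ (r : ℤ) ∣ Algebra.norm ℤ z := by
  intro h
  obtain ⟨A, B, hAB⟩ := exists_int_coords hq0 hF hs hq z.isIntegral_coe
  have h3 := four_norm hq0 hF hs hAB
  obtain ⟨h8, h9⟩ := inert_dvd (q := q) hr hin (h3 ▸ (h.mul_left 4))
  exact hz (dvd_of_coords hq0 hF hs hq hr hr2 hAB h8 h9)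

/-- A rational square times an integer prime to `r` with square value. -/
lemma isSquare_zmod {r : ℕ} (hr : r.Prime) {Y : ℚ} {n E : ℤ} (h : Y ^ 2 * E = n)
    (hn : ¬ (r : ℤ) ∣ n) (hE : ¬ (r : ℤ) ∣ E) (hsq : IsSquare (n : ZMod r)) :
    IsSquare (E : ZMod r) := by
  have : Fact r.Prime := ⟨hr⟩
  have hrp := Nat.prime_iff_prime_int.mp hr
  obtain ⟨a, b, hb0, hcop, hY⟩ : ∃ a b : ℤ, (b : ℚ) ≠ 0 ∧ IsCoprime a b ∧ Y = a / b := by
    refine ⟨Y.num, Y.den, by exact_mod_cast Y.den_nz, ?_, by exact_mod_cast (Rat.num_div_den Y).symm⟩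
    rw [Int.isCoprime_iff_gcd_eq_one]
    exact Y.reduced
  have h1 : a ^ 2 * E = n * b ^ 2 := by
    have h2 : (a : ℚ) ^ 2 * E = n * b ^ 2 := by
      rw [hY] at h
      field_simp at h
      linear_combination h
    exact_mod_cast h2
  have hrb : ¬ (r : ℤ) ∣ b := by
    intro hb'
    have h3 : (r : ℤ) ∣ a ^ 2 * E := by
      rw [h1]
      exact (dvd_pow hb' two_ne_zero).mul_left _
    rcases hrp.dvd_or_dvd h3 with h4 | h4
    · exact hrp.not_isUnit (hcop.isUnit_of_dvd' (hrp.dvd_of_dvd_pow h4) hb')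
    · exact hE h4
  obtain ⟨c, hc⟩ := hsq
  have h5 : ((a : ZMod r)) ^ 2 * E = c * c * (b : ZMod r) ^ 2 := by
    rw [← hc]
    exact_mod_cast congrArg (fun t : ℤ => (t : ZMod r)) h1
  have ha : (a : ZMod r) ≠ 0 := by
    intro ha
    have h6 : (r : ℤ) ∣ n * b ^ 2 := by
      rw [← h1]
      exact (dvd_pow ((ZMod.intCast_zmod_eq_zero_iff_dvd a r).mp ha) two_ne_zero).mul_right _
    rcases hrp.dvd_or_dvd h6 with h4 | h4
    · exact hn h4
    · exact hrb (hrp.dvd_of_dvd_pow h4)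
  refine ⟨c * b / a, ?_⟩
  field_simp
  linear_combination h5

include hq0 hF hs hq in
/-- Local squares at inert primes in terms of norms. -/
lemma LocSq.isSquare_norm {r : ℕ} (hr : r.Prime) (hr2 : r ≠ 2)
    (hin : ¬ IsSquare (((-q : ℤ)) : ZMod r)) {v : HeightOneSpectrum (𝓞 F)}
    (hv : (r : 𝓞 F) ∈ v.asIdeal) {z : F} (hz : LocSq v z) {A : ℚ} {E : ℤ}
    (hN : Algebra.norm ℚ z = A ^ 2 * E) (hE : ¬ (r : ℤ) ∣ E) : IsSquare (E : ZMod r) := by
  obtain ⟨t, m, b, hb, ht, hm, htm⟩ := hz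
  have hvr := asIdeal_of_r_mem hq0 hF hs hq hr hr2 hin hv
  rw [hvr, Ideal.mem_span_singleton] at ht hm
  obtain ⟨w, rfl⟩ := hm
  have h1 : (((t ^ 2 + r * (-4 * w) : 𝓞 F)) : F) = b ^ 2 * z := by
    rw [← htm]
    simp only [RingOfIntegers.coe_eq_algebraMap, map_mul, map_add, map_natCast, map_pow, map_neg,
      map_ofNat]
    ring
  have h2 := Algebra.coe_norm_int (t ^ 2 + r * (-4 * w) : 𝓞 F)
  rw [h1, map_mul, map_pow, hN] at h2
  have h3 := norm_congr hq0 hF hs hq hr hr2 (t ^ 2) (-4 * w)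
  rw [map_pow] at h3
  have h4 := not_dvd_norm hq0 hF hs hq hr hr2 hin ht
  have hrp := Nat.prime_iff_prime_int.mp hr
  have h5 : ¬ (r : ℤ) ∣ Algebra.norm ℤ (t ^ 2 + r * (-4 * w) : 𝓞 F) := by
    intro h5
    have h6 := dvd_sub h5 h3
    rw [sub_sub_cancel] at h6
    exact h4 (hrp.dvd_of_dvd_pow h6)
  have h6 : IsSquare ((Algebra.norm ℤ (t ^ 2 + r * (-4 * w) : 𝓞 F) : ℤ) : ZMod r) := by
    refine ⟨((Algebra.norm ℤ t : ℤ) : ZMod r), ?_⟩
    have h7 : (((Algebra.norm ℤ (t ^ 2 + r * (-4 * w) : 𝓞 F)) : ℤ) : ZMod r) =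
        (((Algebra.norm ℤ t) ^ 2 : ℤ) : ZMod r) := by
      rw [eq_comm, ZMod.intCast_eq_intCast_iff_dvd_sub]
      exact h3
    rw [h7]
    push_cast
    ring
  refine isSquare_zmod hr (Y := Algebra.norm ℚ b * A) (n := Algebra.norm ℤ _) ?_ h5 hE h6
  rw [h2]
  ring

include hq0 hF hs hq in
/-- Local squares at the ramified prime in terms of residues. -/
lemma LocSq.isSquare_res (hq2 : q ≠ 2) {v : HeightOneSpectrum (𝓞 F)} (hv : sI hs ∈ v.asIdeal)
    {κ : 𝓞 F} {β : F} (hβ : β ≠ 0) (hz : LocSq v ((κ : F) * β ^ 2)) {a : ℤ}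
    (ha : κ - a ∈ Ideal.span {sI hs}) (hκ : κ ∉ Ideal.span {sI hs}) :
    IsSquare (a : ZMod q) := by
  have : Fact q.Prime := ⟨hq⟩
  obtain ⟨t, m, b, hb, ht, hm, htm⟩ := hz
  have hvs := asIdeal_of_sI_mem hq0 hF hs hq hv
  have hκv : v.valuation F (κ : F) = 1 := v.valuation_eq_one_iff_notMem.mpr (by rw [hvs]; exact hκ)
  have htm' : ((t ^ 2 - 4 * m : 𝓞 F) : F) = (b * β) ^ 2 * κ := by
    have h0 : (b * β) ^ 2 * (κ : F) = b ^ 2 * (κ * β ^ 2) := by ring
    rw [h0, ← htm]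
    simp only [RingOfIntegers.coe_eq_algebraMap, map_mul, map_sub, map_pow, map_ofNat]
  have h2 : (t ^ 2 - 4 * m : 𝓞 F) ∉ v.asIdeal := by
    intro h
    apply ht
    have h3 : t ^ 2 ∈ v.asIdeal := by
      have := v.asIdeal.add_mem h (v.asIdeal.mul_mem_left 4 hm)
      simpa using this
    exact v.isPrime.mem_of_pow_mem 2 h3
  have h3 : v.valuation F (b * β) ^ 2 = 1 := by
    have := v.valuation_eq_one_iff_notMem (K := F) |>.mpr h2
    rw [← RingOfIntegers.coe_eq_algebraMap, htm', map_mul, map_pow, hκv, mul_one] at this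
    exact this
  have h4 : v.valuation F (b * β) ≤ 1 := by
    by_contra hcon
    rw [not_le] at hcon
    have : (1 : WithZero (Multiplicative ℤ)) < v.valuation F (b * β) ^ 2 :=
      one_lt_pow₀ hcon two_ne_zero
    rw [h3] at this
    exact lt_irrefl _ this
  obtain ⟨n, e, hne⟩ := v.exists_primeCompl_mul_eq_of_integer (b * β) h4
  have h5 : n ^ 2 * κ = (e : 𝓞 F) ^ 2 * (t ^ 2 - 4 * m) := by
    apply RingOfIntegers.ext
    rw [RingOfIntegers.coe_eq_algebraMap, RingOfIntegers.coe_eq_algebraMap] at *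
    rw [map_mul, map_mul, map_pow, map_pow, htm', ← hne]
    ring
  obtain ⟨n0, hn0⟩ := exists_res hq0 hF hs hq hq2 n
  obtain ⟨e0, he0⟩ := exists_res hq0 hF hs hq hq2 (e : 𝓞 F)
  obtain ⟨t0, ht0⟩ := exists_res hq0 hF hs hq hq2 t
  have hev : (e : 𝓞 F) ∉ Ideal.span {sI hs} := by rw [← hvs]; exact e.2
  rw [hvs] at ht hm
  -- pass to the residue field
  have key : ∀ (z : 𝓞 F) (c : ℤ), z - c ∈ Ideal.span {sI hs} →
      Ideal.Quotient.mk (Ideal.span {sI hs}) z = Ideal.Quotient.mk (Ideal.span {sI hs}) c :=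
    fun z c h => Ideal.Quotient.eq.mpr h
  have h6 : Ideal.Quotient.mk (Ideal.span {sI hs}) ((n0 ^ 2 * a - e0 ^ 2 * t0 ^ 2 : ℤ) : 𝓞 F) = 0 := by
    have h7 := congrArg (Ideal.Quotient.mk (Ideal.span {sI hs})) h5
    rw [map_mul, map_mul, map_pow, map_pow, map_sub, map_pow, map_mul, key _ _ hn0, key _ _ he0,
      key _ _ ht0, key _ _ ha, Ideal.Quotient.eq_zero_iff_mem.mpr hm, mul_zero, sub_zero] at h7
    push_cast
    rw [map_sub, map_mul, map_mul, map_pow, map_pow, map_pow, h7, sub_self]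
  rw [Ideal.Quotient.eq_zero_iff_mem] at h6
  have h8 := dvd_of_int_mem hq0 hF hs hq h6
  have h9 : ((n0 : ZMod q)) ^ 2 * a = (e0 : ZMod q) ^ 2 * (t0 : ZMod q) ^ 2 := by
    have := (ZMod.intCast_zmod_eq_zero_iff_dvd _ q).mpr h8
    push_cast at this
    exact sub_eq_zero.mp this
  have hnz : ∀ (z : 𝓞 F) (c : ℤ), z - c ∈ Ideal.span {sI hs} → z ∉ Ideal.span {sI hs} →
      (c : ZMod q) ≠ 0 := by
    intro z c h10 h11 h12
    apply h11
    have h13 := (ZMod.intCast_zmod_eq_zero_iff_dvd c q).mp h12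
    obtain ⟨k, hk⟩ := h13
    have h14 : (c : 𝓞 F) ∈ Ideal.span {sI hs} := by
      rw [Ideal.mem_span_singleton]
      refine ⟨-(sI hs * k), ?_⟩
      have h15 := sI_sq hs
      rw [hk]
      push_cast
      linear_combination (k : 𝓞 F) * h15
    have := Ideal.add_mem _ h10 h14
    simpa using this
  have he0' := hnz _ _ he0 hev
  have ht0' := hnz _ _ ht0 ht
  have hn0' : (n0 : ZMod q) ≠ 0 := by
    intro h
    rw [h] at h9
    have : (e0 : ZMod q) ^ 2 * (t0 : ZMod q) ^ 2 = 0 := by rw [← h9]; ring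
    rcases mul_eq_zero.mp this with h10 | h10
    · exact he0' (pow_eq_zero_iff two_ne_zero |>.mp h10)
    · exact ht0' (pow_eq_zero_iff two_ne_zero |>.mp h10)
  refine ⟨e0 * t0 / n0, ?_⟩
  field_simp
  linear_combination h9

end

end Pool.Agent.Lib.MP_7c08ba_nt
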