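import Mathlib
import Pool.Agent.Lib.MP_7c08ba_nt.Main
import Pool.Agent.Lib.MP_7c08ba_nt.Tw.Primes

set_option autoImplicit false

/-!
Square roots, decomposition groups and inertia groups.
-/

namespace Pool.Agent.Lib.MP_7c08ba_nt

set_option linter.unusedSectionVars false

open NumberField Matrix IsDedekindDomain
open scoped Pointwise

section

variable {F : Type} [Field F] [NumberField F]

/-- The stabiliser of a square root. -/
def sqrtStab (y : AlgebraicClosure F) : Subgroup (AbsGal F) where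
  carrier := {g | g y = y}
  one_mem' := rfl
  mul_mem' {g h} hg hh := by
    rw [Set.mem_ofPred_eq] at hg hh ⊢
    rw [AlgEquiv.mul_apply, hh, hg]
  inv_mem' {g} hg := by
    rw [Set.mem_ofPred_eq] at hg ⊢
    rw [AlgEquiv.aut_inv, AlgEquiv.symm_apply_eq, hg]

lemma mem_sqrtStab {y : AlgebraicClosure F} {g : AbsGal F} : g ∈ sqrtStab y ↔ g y = y := Iff.rfl

lemma sqrtStab_or {y : AlgebraicClosure F} {z : F} (hy : y ^ 2 = algebraMap F _ z) (g : AbsGal F) :
    g y = y ∨ g y = -y := by
  have h1 : (g y - y) * (g y + y) = 0 := by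
    have h2 : (g y) ^ 2 = y ^ 2 := by
      rw [← map_pow, hy, AlgEquiv.commutes]
    linear_combination h2
  rcases mul_eq_zero.mp h1 with h | h
  · exact Or.inl (sub_eq_zero.mp h)
  · exact Or.inr (eq_neg_of_add_eq_zero_left h)

lemma neg_ne_self {y : AlgebraicClosure F} (hy0 : y ≠ 0) : -y ≠ y := by
  intro h
  apply hy0
  have h4 : (2 : AlgebraicClosure F) * y = 0 := by linear_combination (-1 : AlgebraicClosure F) * h
  exact (mul_eq_zero.mp h4).resolve_left two_ne_zero

lemma isOpen_sqrtStab (y : AlgebraicClosure F) : IsOpen (sqrtStab y : Set (AbsGal F)) := by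
  have h : (sqrtStab y : Set (AbsGal F)) = (MulAction.stabilizer (AbsGal F) y : Set (AbsGal F)) := by
    ext g
    rfl
  rw [h]
  exact stabilizer_isOpen_of_isIntegral _

/-- An element with a square root fixed by the whole Galois group is a square. -/
lemma isSquare_of_stab_top {y : AlgebraicClosure F} {z : F} (hy : y ^ 2 = algebraMap F _ z)
    (h : ∀ g : AbsGal F, g y = y) : IsSquare z := by
  obtain ⟨t, ht⟩ : y ∈ Set.range (algebraMap F (AlgebraicClosure F)) := by
    rw [InfiniteGalois.mem_range_algebraMap_iff_fixed]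
    exact h
  refine ⟨t, ?_⟩
  apply (algebraMap F (AlgebraicClosure F)).injective
  rw [← hy, ← ht, map_mul, sq]

/-- The stabiliser of a square root of a nonsquare has index two. -/
lemma sqrtStab_index {y : AlgebraicClosure F} (hy0 : y ≠ 0) {z : F}
    (hy : y ^ 2 = algebraMap F _ z) {g₀ : AbsGal F} (hg₀ : g₀ y ≠ y) :
    (sqrtStab y).index = 2 := by
  rw [Subgroup.index_eq_two_iff]
  refine ⟨g₀, fun b => ?_⟩
  have h0 : g₀ y = -y := (sqrtStab_or hy g₀).resolve_left hg₀
  have hn := neg_ne_self hy0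
  rcases sqrtStab_or hy b with hb | hb
  · right
    refine ⟨hb, ?_⟩
    rw [mem_sqrtStab, AlgEquiv.mul_apply, h0, map_neg, hb]
    exact hn
  · left
    refine ⟨?_, ?_⟩
    · rw [mem_sqrtStab, AlgEquiv.mul_apply, h0, map_neg, hb, neg_neg]
    · rw [mem_sqrtStab, hb]
      exact hn

/-- A square is a local square. -/
lemma locSq_of_isSquare {z : F} (hz : z ≠ 0) (h : IsSquare z) (v : HeightOneSpectrum (𝓞 F)) :
    LocSq v z := by
  obtain ⟨t, rfl⟩ := h
  have ht : t ≠ 0 := fun h => hz (by rw [h, mul_zero])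
  refine ⟨1, 0, t⁻¹, inv_ne_zero ht, one_notMem v, v.asIdeal.zero_mem, ?_⟩
  rw [RingOfIntegers.coe_eq_algebraMap, RingOfIntegers.coe_eq_algebraMap, map_one, map_zero]
  field_simp
  ring

variable {y : AlgebraicClosure F} {z : F}

/-- Decomposition groups and local squares. -/
lemma locSq_of_decomp (hz : z ≠ 0) (hy : y ^ 2 = algebraMap F _ z)
    (v : HeightOneSpectrum (𝓞 F)) (P : Ideal (AllInt F)) (hPp : P.IsPrime)
    (hP : ∀ x : 𝓞 F, x ∈ v.asIdeal ↔ algebraMap (𝓞 F) (AllInt F) x ∈ P)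
    (hD : ∀ g ∈ decomp F P, g y = y) : LocSq v z := by
  have hy0 : y ≠ 0 := by
    rintro rfl
    rw [zero_pow two_ne_zero, eq_comm, map_eq_zero_iff _ (algebraMap F _).injective] at hy
    exact hz hy
  by_cases htop : ∀ g : AbsGal F, g y = y
  · exact locSq_of_isSquare hz (isSquare_of_stab_top hy htop) v
  · push Not at htop
    obtain ⟨g₀, hg₀⟩ := htop
    have hidx := sqrtStab_index hy0 hy hg₀
    have hop := isOpen_sqrtStab y
    obtain ⟨t, m, b, hb, ht, hm, htm⟩ := exists_split hidx hy0 hy (fun g hg => hg)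
      (fun g hg => (sqrtStab_or hy g).resolve_left hg) P hg₀ ((sqrtStab y).isClosed_of_isOpen hop)
      (fun g hg => hD g (smul_eq_of_decomp hg))
    exact ⟨t, m, b, hb, fun h => ht ((hP t).mp h), (hP m).mpr hm, htm⟩

/-- Inertia groups and valuations. -/
lemma isSquare_val_of_inert (hz : z ≠ 0) (hy : y ^ 2 = algebraMap F _ z)
    (v : HeightOneSpectrum (𝓞 F)) (P : Ideal (AllInt F)) (hPp : P.IsPrime)
    (hP : ∀ x : 𝓞 F, x ∈ v.asIdeal ↔ algebraMap (𝓞 F) (AllInt F) x ∈ P)
    (hI : ∀ g ∈ inert F P, g y = y) : IsSquare (v.valuation F z) := by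
  have hy0 : y ≠ 0 := by
    rintro rfl
    rw [zero_pow two_ne_zero, eq_comm, map_eq_zero_iff _ (algebraMap F _).injective] at hy
    exact hz hy
  by_cases htop : ∀ g : AbsGal F, g y = y
  · obtain ⟨t, rfl⟩ := isSquare_of_stab_top hy htop
    exact ⟨v.valuation F t, map_mul _ _ _⟩
  · push Not at htop
    obtain ⟨g₀, hg₀⟩ := htop
    have hidx := sqrtStab_index hy0 hy hg₀
    have hop := isOpen_sqrtStab y
    by_contra hcon
    obtain ⟨g, hg, hgK⟩ := exists_inertia_not_mem hidx hy0 hy (fun g hg => hg)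
      (fun g hg => (sqrtStab_or hy g).resolve_left hg) v hcon P hP hg₀
      ((sqrtStab y).isClosed_of_isOpen hop)
    exact hgK (hI g hg)

/-- Decomposition groups at a dyadic place and squares in `ℚ₂`. -/
lemma isSquare_dyadic_of_decomp (hz : z ≠ 0) (hy : y ^ 2 = algebraMap F _ z) (j : F →+* ℚ_[2])
    (P₀ : Ideal (AllInt F)) (hP₀ : LiesAt j P₀) (hD : ∀ g ∈ decomp F P₀, g y = y) :
    IsSquare (j z) := by
  have hy0 : y ≠ 0 := by
    rintro rfl
    rw [zero_pow two_ne_zero, eq_comm, map_eq_zero_iff _ (algebraMap F _).injective] at hy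
    exact hz hy
  by_cases htop : ∀ g : AbsGal F, g y = y
  · obtain ⟨t, rfl⟩ := isSquare_of_stab_top hy htop
    exact ⟨j t, map_mul _ _ _⟩
  · push Not at htop
    obtain ⟨g₀, hg₀⟩ := htop
    have hidx := sqrtStab_index hy0 hy hg₀
    have hop := isOpen_sqrtStab y
    have := hP₀.1
    obtain ⟨t, m, b, hb, ht, hm, htm⟩ := exists_split hidx hy0 hy (fun g hg => hg)
      (fun g hg => (sqrtStab_or hy g).resolve_left hg) P₀ hg₀ ((sqrtStab y).isClosed_of_isOpen hop)
      (fun g hg => hD g (smul_eq_of_decomp hg))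
    rw [hP₀.2, not_lt] at ht
    rw [hP₀.2] at hm
    obtain ⟨r, hr⟩ := isSquare_of_split ht hm
    refine ⟨r / j b, ?_⟩
    have hjb : j b ≠ 0 := (map_ne_zero j).mpr hb
    have h1 := congrArg j htm
    rw [map_sub, map_pow, map_mul, map_mul, map_pow, map_ofNat, hr] at h1
    field_simp
    rw [← sq] at h1
    linear_combination (-1 : ℚ_[2]) * h1

end

end Pool.Agent.Lib.MP_7c08ba_nt
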