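import Mathlib
import Pool.Agent.Lib.MP_7c08ba_nt.Tw.Sqrt

set_option autoImplicit false

/-!
Frobenius elements at primes of degree one.
-/

namespace Pool.Agent.Lib.MP_7c08ba_nt

set_option linter.unusedSectionVars false

open NumberField Matrix IsDedekindDomain
open scoped Pointwise

section Lift

universe u

variable {F Ω : Type u} [Field F] [Field Ω] [Algebra F Ω] [IsGalois F Ω]

/-- Lifting an automorphism of the residue ring. -/
lemma exists_lift_equiv (K : Subgroup Gal(Ω/F)) (hK : IsClosed (K : Set Gal(Ω/F)))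
    (P : Ideal (𝓞 Ω)) [P.IsPrime] (e : (𝓞 Ω ⧸ P) ≃+* (𝓞 Ω ⧸ P))
    (he : ∀ x : 𝓞 Ω, (∀ k ∈ K, k • x = x) →
      e (Ideal.Quotient.mk P x) = Ideal.Quotient.mk P x) :
    ∃ k ∈ K, ∀ b : 𝓞 Ω, Ideal.Quotient.mk P (k • b) = e (Ideal.Quotient.mk P b) := by
  let : TopologicalSpace (𝓞 Ω) := ⊥
  have : DiscreteTopology (𝓞 Ω) := ⟨rfl⟩
  have : ContinuousSMul Gal(Ω/F) (𝓞 Ω) :=
    (continuousSMul_iff_stabilizer_isOpen (M := Gal(Ω/F)) (X := 𝓞 Ω)).mpr isOpen_stabilizer_int
  have : CompactSpace K := isCompact_iff_compactSpace.mp hK.isCompact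
  set p : Ideal (invar K) := P.under (invar K) with hp
  have : P.LiesOver p := ⟨rfl⟩
  let σ : (𝓞 Ω ⧸ P) ≃ₐ[invar K ⧸ p] (𝓞 Ω ⧸ P) :=
    AlgEquiv.ofRingEquiv (f := e) (by
      intro a
      obtain ⟨a, rfl⟩ := Ideal.Quotient.mk_surjective a
      exact he a.1 (fun k hk => a.2 ⟨k, hk⟩))
  obtain ⟨k, hk⟩ := Ideal.Quotient.stabilizerHom_surjective_of_profinite (G := K) p P σ
  refine ⟨k.1.1, k.1.2, ?_⟩
  intro b
  exact congrArg (fun τ : (𝓞 Ω ⧸ P) ≃ₐ[invar K ⧸ p] (𝓞 Ω ⧸ P) =>
    τ (Ideal.Quotient.mk P b)) hk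

end Lift

section

variable {F : Type} [Field F] [NumberField F]

/-- Integers modulo a prime number in the residue ring. -/
lemma int_pow_sub_mem {P : Ideal (AllInt F)} {l : ℕ} (hl : l.Prime) (hlP : (l : AllInt F) ∈ P)
    (a : ℤ) : (a : AllInt F) ^ l - a ∈ P := by
  have : Fact l.Prime := ⟨hl⟩
  have h1 : (l : ℤ) ∣ a ^ l - a := by
    rw [← ZMod.intCast_zmod_eq_zero_iff_dvd]
    push_cast
    rw [ZMod.pow_card, sub_self]
  obtain ⟨k, hk⟩ := h1
  have h2 : (a : AllInt F) ^ l - a = k * (l : AllInt F) := by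
    have := congrArg (fun t : ℤ => (t : AllInt F)) hk
    push_cast at this
    rw [this]
    ring
  rw [h2]
  exact P.mul_mem_left _ hlP

/-- Existence of Frobenius elements at primes of degree one. -/
theorem exists_frob {P : Ideal (AllInt F)} (hP : P.IsPrime) {l : ℕ} (hl : l.Prime)
    (hlP : (l : AllInt F) ∈ P)
    (hres : ∀ x : 𝓞 F, ∃ a : ℤ, algebraMap (𝓞 F) (AllInt F) x - a ∈ P) :
    ∃ g : AbsGal F, ∀ x : AllInt F, g • x - x ^ l ∈ P := by
  have : Fact l.Prime := ⟨hl⟩
  have hchar : CharP (AllInt F ⧸ P) l := by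
    have h0 : ((l : ℕ) : AllInt F ⧸ P) = 0 := by
      have h1 : ((l : ℕ) : AllInt F ⧸ P) = Ideal.Quotient.mk P (l : AllInt F) := by
        rw [map_natCast]
      rw [h1, Ideal.Quotient.eq_zero_iff_mem]
      exact hlP
    obtain ⟨p, hp⟩ := CharP.exists (AllInt F ⧸ P)
    have h2 : p ∣ l := (CharP.cast_eq_zero_iff (AllInt F ⧸ P) p l).mp h0
    rcases (Nat.dvd_prime hl).mp h2 with h3 | h3
    · exfalso
      rw [h3] at hp
      have := CharP.nontrivial_of_char_ne_one (R := AllInt F ⧸ P) (v := l)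
      have h4 : ((1 : ℕ) : AllInt F ⧸ P) = 0 := (CharP.cast_eq_zero_iff (AllInt F ⧸ P) 1 1).mpr
        (dvd_refl 1)
      rw [Nat.cast_one] at h4
      exact one_ne_zero h4
    · rwa [h3] at hp
  have : ExpChar (AllInt F ⧸ P) l := ExpChar.prime hl
  have hinj : Function.Injective (frobenius (AllInt F ⧸ P) l) := frobenius_inj _ _
  have hsurj : Function.Surjective (frobenius (AllInt F ⧸ P) l) := by
    intro b
    obtain ⟨b, rfl⟩ := Ideal.Quotient.mk_surjective b
    obtain ⟨c, hc⟩ := IsAlgClosed.exists_pow_nat_eq (b : AlgebraicClosure F) hl.pos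
    have hci : IsIntegral ℤ c := by
      apply IsIntegral.of_pow hl.pos
      rw [hc]
      exact b.2
    obtain ⟨C, hC⟩ : ∃ C : AllInt F, C ^ l = b := ⟨⟨c, hci⟩, RingOfIntegers.ext hc⟩
    refine ⟨Ideal.Quotient.mk P C, ?_⟩
    rw [frobenius_def, ← map_pow, hC]
  let e : (AllInt F ⧸ P) ≃+* (AllInt F ⧸ P) := RingEquiv.ofBijective _ ⟨hinj, hsurj⟩
  have he : ∀ x, e x = x ^ l := fun x => rfl
  obtain ⟨g, -, hg⟩ := exists_lift_equiv (F := F) (Ω := AlgebraicClosure F) ⊤ isClosed_univ P e (by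
    intro x hx
    obtain ⟨x₀, hx₀⟩ : (x : AlgebraicClosure F) ∈ Set.range (algebraMap F (AlgebraicClosure F)) := by
      rw [InfiniteGalois.mem_range_algebraMap_iff_fixed]
      intro g
      have := hx g (Subgroup.mem_top g)
      exact congrArg (fun z : AllInt F => (z : AlgebraicClosure F)) this
    have hx₀i : IsIntegral ℤ x₀ := by
      have h1 : IsIntegral ℤ (algebraMap F (AlgebraicClosure F) x₀) := by
        rw [hx₀]
        exact x.2
      exact (isIntegral_algebraMap_iff (algebraMap F (AlgebraicClosure F)).injective).mp h1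
    have hxx : algebraMap (𝓞 F) (AllInt F) ⟨x₀, hx₀i⟩ = x := RingOfIntegers.ext hx₀
    obtain ⟨a, ha⟩ := hres ⟨x₀, hx₀i⟩
    rw [hxx] at ha
    have h1 : Ideal.Quotient.mk P x = Ideal.Quotient.mk P (a : AllInt F) :=
      Ideal.Quotient.eq.mpr ha
    rw [h1, he, ← map_pow, Ideal.Quotient.eq]
    exact int_pow_sub_mem hl hlP a)
  refine ⟨g, fun x => ?_⟩
  rw [← Ideal.Quotient.eq, hg x, he, ← map_pow]

/-- The action of a Frobenius element on square roots. -/
theorem frob_sqrt {P : Ideal (AllInt F)} (hP : P.IsPrime) {l : ℕ} (hl : l.Prime) (hl2 : l ≠ 2)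
    (hlP : (l : AllInt F) ∈ P) {g : AbsGal F} (hg : ∀ x : AllInt F, g • x - x ^ l ∈ P)
    {y : AlgebraicClosure F} {z : 𝓞 F} (hy : y ^ 2 = algebraMap F _ (z : F)) {m : 𝓞 F}
    (hz : algebraMap (𝓞 F) (AllInt F) z ∉ P) (hm : algebraMap (𝓞 F) (AllInt F) m ∉ P) {a : ℤ}
    (ha : algebraMap (𝓞 F) (AllInt F) (z * m ^ 2) - a ∈ P) :
    (jacobiSym a l = 1 → g y = y) ∧ (jacobiSym a l = -1 → g y = -y) := by
  have : Fact l.Prime := ⟨hl⟩
  have hyi : IsIntegral ℤ y := by
    apply IsIntegral.of_pow two_pos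
    rw [hy]
    exact (z.isIntegral_coe).map (algebraMap F (AlgebraicClosure F)).toIntAlgHom
  set Y : AllInt F := ⟨y, hyi⟩ with hY
  set Z : AllInt F := algebraMap (𝓞 F) (AllInt F) z with hZ
  set Mm : AllInt F := algebraMap (𝓞 F) (AllInt F) m with hMm
  have hYZ : Y ^ 2 = Z := RingOfIntegers.ext hy
  have hgm : g • Mm = Mm := by
    apply RingOfIntegers.ext
    exact g.commutes (m : F)
  have hYP : Y ∉ P := by
    intro h
    apply hz
    rw [← hYZ]
    exact P.pow_mem_of_mem h 2 two_pos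
  have haP : (a : AllInt F) ∉ P := by
    intro h
    have h1 := P.add_mem ha h
    rw [sub_add_cancel, map_mul, map_pow] at h1
    rcases hP.mem_or_mem h1 with h2 | h2
    · exact hz h2
    · exact hm (hP.mem_of_pow_mem 2 h2)
  have hla : ¬ (l : ℤ) ∣ a := by
    rintro ⟨k, rfl⟩
    apply haP
    push_cast
    exact P.mul_mem_right _ hlP
  have h2P : (2 : AllInt F) ∉ P := by
    intro h
    obtain ⟨k, hk⟩ : ∃ k, l = 2 * k + 1 := by
      rcases hl.eq_two_or_odd' with h | h
      · exact absurd h hl2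
      · exact h
    apply hP.ne_top
    rw [Ideal.eq_top_iff_one]
    have h1 : (1 : AllInt F) = l - 2 * k := by
      rw [hk]
      push_cast
      ring
    rw [h1]
    exact P.sub_mem hlP (P.mul_mem_right _ h)
  obtain ⟨k, hk⟩ : ∃ k, l = 2 * k + 1 := by
    rcases hl.eq_two_or_odd' with h | h
    · exact absurd h hl2
    · exact h
  -- Euler's criterion
  have heul : (l : ℤ) ∣ a ^ k - jacobiSym a l := by
    rw [← ZMod.intCast_zmod_eq_zero_iff_dvd]
    push_cast
    rw [← jacobiSym.legendreSym.to_jacobiSym, legendreSym.eq_pow]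
    have : l / 2 = k := by omega
    rw [this, sub_self]
  have key : Y ^ l - (jacobiSym a l : AllInt F) * Y ∈ P := by
    have h1 : Mm ^ l - Mm ∈ P := by
      have := hg Mm
      rw [hgm] at this
      have h3 := P.neg_mem this
      rwa [neg_sub] at h3
    have h3 : Mm * (Y ^ l - (jacobiSym a l : AllInt F) * Y) ∈ P := by
      -- modulo `P`
      have e1 : Ideal.Quotient.mk P (Mm ^ l) = Ideal.Quotient.mk P Mm := Ideal.Quotient.eq.mpr h1
      have e2 : Ideal.Quotient.mk P (Z * Mm ^ 2) = Ideal.Quotient.mk P (a : AllInt F) := by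
        rw [Ideal.Quotient.eq]
        rw [map_mul, map_pow] at ha
        exact ha
      have e3 : Ideal.Quotient.mk P ((a : AllInt F) ^ k) =
          Ideal.Quotient.mk P (jacobiSym a l : AllInt F) := by
        rw [Ideal.Quotient.eq]
        obtain ⟨c, hc⟩ := heul
        have h4 : (a : AllInt F) ^ k - (jacobiSym a l : AllInt F) = c * l := by
          have := congrArg (fun t : ℤ => (t : AllInt F)) hc
          push_cast at this
          rw [this]
          ring
        rw [h4]
        exact P.mul_mem_left _ hlP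
      rw [← Ideal.Quotient.eq_zero_iff_mem]
      have e4 : Y ^ l * Mm ^ l = Y * Mm * (Z * Mm ^ 2) ^ k := by
        rw [← hYZ, hk]
        ring
      have e5 : Ideal.Quotient.mk P (Y ^ l * Mm ^ l) =
          Ideal.Quotient.mk P (Y * Mm) * Ideal.Quotient.mk P (jacobiSym a l : AllInt F) := by
        rw [e4, map_mul, map_pow, e2, ← map_pow, e3]
      rw [map_mul, e1] at e5
      rw [map_mul, map_sub, map_mul, mul_sub]
      rw [map_mul] at e5
      linear_combination e5
    rcases hP.mem_or_mem h3 with h4 | h4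
    · exact absurd h4 hm
    · exact h4
  have hgY : g • Y - (jacobiSym a l : AllInt F) * Y ∈ P := by
    have := P.add_mem (hg Y) key
    rwa [sub_add_sub_cancel] at this
  have hcase := sqrtStab_or hy g
  constructor
  · intro h
    rcases hcase with h1 | h1
    · exact h1
    · exfalso
      have h3 : g • Y = -Y := RingOfIntegers.ext h1
      rw [h, h3] at hgY
      push_cast at hgY
      have h4 : -Y - 1 * Y = (-2) * Y := by ring
      rw [h4] at hgY
      rcases hP.mem_or_mem hgY with h5 | h5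
      · exact h2P (by simpa using P.neg_mem h5)
      · exact hYP h5
  · intro h
    rcases hcase with h1 | h1
    · exfalso
      have h3 : g • Y = Y := RingOfIntegers.ext h1
      rw [h, h3] at hgY
      push_cast at hgY
      have h4 : Y - (-1) * Y = 2 * Y := by ring
      rw [h4] at hgY
      rcases hP.mem_or_mem hgY with h5 | h5
      · exact h2P h5
      · exact hYP h5
    · exact h1

end

end Pool.Agent.Lib.MP_7c08ba_nt
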