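import Mathlib
import Pool.Agent.Lib.MP_7c08ba_nt.Dyadic

set_option autoImplicit false

/-!
Quadratic symbols and dyadic conditions for the twisted problem.
-/

namespace Pool.Agent.Lib.MP_7c08ba_nt

/-- Coordinates of elements of norm twice a square: the Legendre symbol of `x` modulo `q`. -/
lemma jacobi_x {q : ℕ} (hq : q.Prime) (h16 : q % 16 = 7) {x y z : ℤ} (hcop : IsCoprime x y)
    (h : x ^ 2 + q * y ^ 2 = 2 * z ^ 2) :
    ((x % 8 = 1 ∨ x % 8 = 3) → jacobiSym x q = 1) ∧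
    ((x % 8 = 5 ∨ x % 8 = 7) → jacobiSym x q = -1) := by
  obtain ⟨hxo, hz0, hz2, -, -⟩ := int_part h16 hcop h
  have hqp := Nat.prime_iff_prime_int.mp hq
  have hqx : ¬ (q : ℤ) ∣ x := by
    intro hx
    have h2q : ¬ (q : ℤ) ∣ 2 := by
      intro h2
      have : q ∣ 2 := by exact_mod_cast h2
      have := Nat.le_of_dvd (by norm_num) this
      have := hq.two_le
      omega
    have h1 : (q : ℤ) ∣ 2 * z ^ 2 := by
      rw [← h]
      exact dvd_add (dvd_pow hx two_ne_zero) (dvd_mul_right _ _)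
    have h3 : (q : ℤ) ∣ z := hqp.dvd_of_dvd_pow ((hqp.dvd_or_dvd h1).resolve_left h2q)
    obtain ⟨x', rfl⟩ := hx
    obtain ⟨z', rfl⟩ := h3
    have h4 : (q : ℤ) * y ^ 2 = q * (q * (2 * z' ^ 2 - x' ^ 2)) := by linear_combination h
    have h5 : y ^ 2 = q * (2 * z' ^ 2 - x' ^ 2) := mul_left_cancel₀ hqp.ne_zero h4
    have h6 : (q : ℤ) ∣ y := hqp.dvd_of_dvd_pow ⟨_, h5⟩
    exact hqp.not_isUnit (hcop.isUnit_of_dvd' (dvd_mul_right _ _) h6)
  set m := x.natAbs with hm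
  have hmo : Odd m := by
    rw [hm, Int.natAbs_odd, ← Int.not_even_iff_odd]
    intro he
    exact hxo he.two_dvd
  have hm2 : m % 2 = 1 := Nat.odd_iff.mp hmo
  have hqo : Odd q := Nat.odd_iff.mpr (by omega)
  -- the symbol of `q` modulo `m`
  have hsq : jacobiSym (q : ℤ) m = jacobiSym 2 m := by
    have hmod : 2 * z ^ 2 ≡ q * y ^ 2 [ZMOD (m : ℤ)] := by
      have h1 : (m : ℤ) ∣ x ^ 2 := by
        rw [hm, Int.natCast_natAbs, abs_dvd]
        exact dvd_pow_self x two_ne_zero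
      have h2 : (q : ℤ) * y ^ 2 - 2 * z ^ 2 = -(x ^ 2) := by linear_combination h
      exact (Int.modEq_iff_dvd).mpr (h2 ▸ (dvd_neg.mpr h1))
    have hym : Int.gcd y m = 1 := by
      have h3 := Int.isCoprime_iff_gcd_eq_one.mp hcop.symm
      rw [hm]
      simpa [Int.gcd, Int.natAbs_abs] using h3
    have hqm : Int.gcd (q : ℤ) m = 1 := by
      have h3 : Nat.Coprime q m := by
        rw [Nat.Prime.coprime_iff_not_dvd hq]
        intro h4
        apply hqx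
        rw [hm] at h4
        exact Int.natCast_dvd.mpr h4
      simpa [Int.gcd] using h3
    have h1 := jacobiSym.mod_left' hmod
    rw [jacobiSym.mul_left, jacobiSym.pow_left, jacobiSym.mul_left, jacobiSym.pow_left] at h1
    have hy1 : (jacobiSym y m) ^ 2 = 1 := by
      rcases jacobiSym.eq_one_or_neg_one hym with h3 | h3 <;> rw [h3] <;> norm_num
    rw [hy1, mul_one] at h1
    have hzz : (jacobiSym z m) ^ 2 = 1 := by
      have h4 : (jacobiSym z m) ≠ 0 := by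
        intro h5
        rw [h5] at h1
        rcases jacobiSym.eq_one_or_neg_one hqm with h3 | h3 <;> rw [h3] at h1 <;> norm_num at h1
      rcases jacobiSym.trichotomy z m with h5 | h5 | h5
      · exact absurd h5 h4
      · rw [h5]; norm_num
      · rw [h5]; norm_num
    rw [hzz, mul_one] at h1
    exact h1.symm
  -- reciprocity
  have hrec : jacobiSym (m : ℤ) q = (if m % 8 = 1 ∨ m % 8 = 3 then 1 else -1) := by
    have h1 := jacobiSym.quadratic_reciprocity hmo hqo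
    rw [hsq, jacobiSym.at_two hmo, ZMod.χ₈_nat_eq_if_mod_eight] at h1
    obtain ⟨k, hk⟩ : ∃ k, q / 2 = 2 * k + 1 := ⟨q / 4, by omega⟩
    rw [hk] at h1
    have h8 : m % 8 = 1 ∨ m % 8 = 3 ∨ m % 8 = 5 ∨ m % 8 = 7 := by omega
    rcases h8 with h8 | h8 | h8 | h8
    · obtain ⟨a, ha⟩ : ∃ a, m / 2 = 2 * a := ⟨m / 4, by omega⟩
      rw [ha] at h1
      have h2 : (-1 : ℤ) ^ (2 * a * (2 * k + 1)) = 1 :=
        Even.neg_one_pow ⟨a * (2 * k + 1), by ring⟩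
      rw [h2, if_neg (by omega), if_pos (by omega)] at h1
      rw [h1, if_pos (by omega)]
      norm_num
    · obtain ⟨a, ha⟩ : ∃ a, m / 2 = 2 * a + 1 := ⟨m / 4, by omega⟩
      rw [ha] at h1
      have h2 : (-1 : ℤ) ^ ((2 * a + 1) * (2 * k + 1)) = -1 :=
        Odd.neg_one_pow ⟨2 * a * k + a + k, by ring⟩
      rw [h2, if_neg (by omega), if_neg (by omega)] at h1
      rw [h1, if_pos (by omega)]
      norm_num
    · obtain ⟨a, ha⟩ : ∃ a, m / 2 = 2 * a := ⟨m / 4, by omega⟩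
      rw [ha] at h1
      have h2 : (-1 : ℤ) ^ (2 * a * (2 * k + 1)) = 1 :=
        Even.neg_one_pow ⟨a * (2 * k + 1), by ring⟩
      rw [h2, if_neg (by omega), if_neg (by omega)] at h1
      rw [h1, if_neg (by omega)]
      norm_num
    · obtain ⟨a, ha⟩ : ∃ a, m / 2 = 2 * a + 1 := ⟨m / 4, by omega⟩
      rw [ha] at h1
      have h2 : (-1 : ℤ) ^ ((2 * a + 1) * (2 * k + 1)) = -1 :=
        Odd.neg_one_pow ⟨2 * a * k + a + k, by ring⟩
      rw [h2, if_neg (by omega), if_pos (by omega)] at h1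
      rw [h1, if_neg (by omega)]
      norm_num
  have hneg : jacobiSym (-1) q = -1 := by
    rw [jacobiSym.at_neg_one hqo, ZMod.χ₄_nat_eq_if_mod_four, if_neg (by omega), if_neg (by omega)]
  rcases Int.natAbs_eq x with hx | hx
  · rw [← hm] at hx
    rw [hx, hrec]
    constructor
    · intro h1
      rw [if_pos (by omega)]
    · intro h1
      rw [if_neg (by omega)]
  · rw [← hm] at hx
    have h3 : x = -1 * (m : ℤ) := by rw [hx]; ring
    rw [h3, jacobiSym.mul_left, hneg, hrec]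
    constructor
    · intro h1
      rw [if_neg (by omega)]
      norm_num
    · intro h1
      rw [if_pos (by omega)]
      norm_num

/-- Units of `ℤ₂` up to squares. -/
lemma exists_sq_of_mod {ξ : ℤ_[2]} {ξ₀ : ℤ} (h : PadicInt.toZModPow 3 ξ = (ξ₀ : ZMod (2 ^ 3)))
    (hodd : ¬ 2 ∣ ξ₀) : ∃ κ : ℤ_[2], IsUnit κ ∧ ξ * κ ^ 2 = ξ₀ := by
  have h0 : IsUnit (ξ₀ : ℤ_[2]) := by
    have := int_odd_isUnit hodd 0
    simpa using this
  obtain ⟨a, ha⟩ := h0.exists_right_inv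
  have h1 : PadicInt.toZModPow 3 (ξ * (ξ₀ : ℤ_[2]) - 1) = 0 := by
    rw [map_sub, map_mul, h, map_intCast, map_one]
    have h2 : ((ξ₀ : ZMod (2 ^ 3))) ^ 2 = 1 := by
      have := sq_mod_eight h0
      rwa [map_intCast] at this
    linear_combination h2
  have h2 : ξ * (ξ₀ : ℤ_[2]) - 1 ∈ RingHom.ker (PadicInt.toZModPow (p := 2) 3) := h1
  rw [PadicInt.ker_toZModPow, Ideal.mem_span_singleton] at h2
  obtain ⟨w, hw⟩ := h2
  obtain ⟨κ, hκ⟩ := isSquare_one_add_eight w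
  have h3 : ξ * (ξ₀ : ℤ_[2]) = κ ^ 2 := by
    rw [sq, ← hκ]
    push_cast at hw
    linear_combination hw
  have h4 : IsUnit ξ := by
    have h5 : IsUnit (ξ * (ξ₀ : ℤ_[2])) := by
      rcases two_dvd_or_isUnit (ξ * (ξ₀ : ℤ_[2])) with h6 | h6
      · exfalso
        apply not_two_dvd_one
        have h7 : (1 : ℤ_[2]) = ξ * ξ₀ - 2 ^ 3 * w := by
          push_cast at hw
          linear_combination -hw
        rw [h7]
        exact dvd_sub h6 ⟨2 ^ 2 * w, by ring⟩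
      · exact h6
    exact isUnit_of_mul_isUnit_left h5
  have hκu : IsUnit κ := by
    have : IsUnit (κ ^ 2) := by rw [← h3]; exact h4.mul h0
    exact (isUnit_pow_iff two_ne_zero).mp this
  obtain ⟨b, hb⟩ := h4.exists_right_inv
  refine ⟨κ * b, hκu.mul (IsUnit.of_mul_eq_one ξ (by rw [mul_comm]; exact hb)), ?_⟩
  have h5 : ξ * (κ * b) ^ 2 = κ ^ 2 * (b * (ξ * b)) := by ring
  rw [h5, hb, ← h3]
  linear_combination (ξ₀ : ℤ_[2]) * hb

/-- Dyadic condition, rational case. -/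
lemma dyadic_rat {ξ : ℤ_[2]} {ξ₀ : ℤ} (h : PadicInt.toZModPow 3 ξ = (ξ₀ : ZMod (2 ^ 3)))
    (hodd : ¬ 2 ∣ ξ₀) {e : ℕ} (he : e ≤ 1) (hsq : IsSquare ((ξ : ℚ_[2]) * 2 ^ e)) :
    e = 0 ∧ ξ₀ % 8 = 1 := by
  have hp : Prime (2 : ℤ_[2]) := by exact_mod_cast PadicInt.prime_p (p := 2)
  obtain ⟨κ, hκ, hκ2⟩ := exists_sq_of_mod h hodd
  have h0 : IsUnit (ξ₀ : ℤ_[2]) := by
    have := int_odd_isUnit hodd 0
    simpa using this
  obtain ⟨β, hβ⟩ := hsq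
  obtain ⟨b, -, hb⟩ := exists_int_of_sq (α := (ξ₀ : ℤ_[2]) * 2 ^ e) (β := β * κ) (by
    have h2 : (((ξ₀ : ℤ_[2]) : ℚ_[2])) = ξ * (κ : ℚ_[2]) ^ 2 := by
      rw [← hκ2]
      push_cast
      rfl
    have h8 : ((2 : ℤ_[2]) : ℚ_[2]) = 2 := map_ofNat (PadicInt.Coe.ringHom (p := 2)) 2
    rw [PadicInt.coe_mul, PadicInt.coe_pow, h8, h2, mul_pow, sq β, ← hβ]
    ring)
  have he' : e = 0 := by
    by_contra hcon
    have he1 : e = 1 := by omega
    rw [he1, pow_one] at hb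
    have h3 : (2 : ℤ_[2]) ∣ b := hp.dvd_of_dvd_pow ⟨ξ₀, by rw [← hb]; ring⟩
    obtain ⟨b', rfl⟩ := h3
    have h4 : (2 : ℤ_[2]) ∣ ξ₀ := by
      refine ⟨b' ^ 2, ?_⟩
      apply mul_left_cancel₀ hp.ne_zero
      linear_combination hb
    exact hp.not_isUnit (isUnit_of_dvd_unit h4 h0)
  refine ⟨he', ?_⟩
  rw [he', pow_zero, mul_one] at hb
  have hbu : IsUnit b := (isUnit_pow_iff two_ne_zero).mp (hb ▸ h0)
  have h5 := congrArg (PadicInt.toZModPow 3) hb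
  rw [map_pow, sq_mod_eight hbu, map_intCast] at h5
  have h7 : ((ξ₀ : ℤ) : ZMod (2 ^ 3)) = ((1 : ℤ) : ZMod (2 ^ 3)) := by
    rw [h5]; push_cast; rfl
  have h8 := (ZMod.intCast_eq_intCast_iff _ _ _).mp h7
  have h9 : ξ₀ % 8 = 1 % 8 := h8
  omega

/-- Dyadic condition, elements of norm twice a square. -/
lemma dyadic_two {q : ℕ} (h16 : q % 16 = 7) {x y z : ℤ} (hcop : IsCoprime x y)
    (hxyz : x ^ 2 + q * y ^ 2 = 2 * z ^ 2) {ξ σ : ℤ_[2]} (hσ : σ ^ 2 = -(q : ℤ_[2])) {ξ₀ : ℤ}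
    (h : PadicInt.toZModPow 3 ξ = (ξ₀ : ZMod (2 ^ 3))) (hodd : ¬ 2 ∣ ξ₀) {e : ℕ} (he : e ≤ 1)
    (hsq : IsSquare ((ξ : ℚ_[2]) * 2 ^ e * (x + y * σ))) :
    (ξ₀ % 8 = 3 ∧ (x % 8 = 1 ∨ x % 8 = 3)) ∨ (ξ₀ % 8 = 5 ∧ (x % 8 = 5 ∨ x % 8 = 7)) := by
  obtain ⟨hxo, hz0, hz2, h4, h4'⟩ := int_part h16 hcop hxyz
  obtain ⟨κ, hκ, hκ2⟩ := exists_sq_of_mod h hodd
  obtain ⟨β, hβ⟩ := hsq
  set α : ℤ_[2] := ξ₀ * (x + y * σ) with hα
  have h8 : ((2 : ℤ_[2]) : ℚ_[2]) = 2 := map_ofNat (PadicInt.Coe.ringHom (p := 2)) 2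
  obtain ⟨b, -, hb⟩ := exists_int_of_sq (α := 2 ^ e * α) (β := β * κ) (by
    have h2 : (((ξ₀ : ℤ_[2]) : ℚ_[2])) = ξ * (κ : ℚ_[2]) ^ 2 := by
      rw [← hκ2]
      push_cast
      rfl
    rw [hα]
    push_cast
    rw [h8]
    have h3 : ((ξ₀ : ℚ_[2])) = ξ * (κ : ℚ_[2]) ^ 2 := by
      rw [← h2]
      push_cast
      rfl
    rw [h3]
    linear_combination (κ : ℚ_[2]) ^ 2 * hβ)
  have hb' : α = b ^ 2 ∨ 2 * α = b ^ 2 := by
    rcases (by omega : e = 0 ∨ e = 1) with rfl | rfl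
    · left; rw [← hb]; ring
    · right; rw [← hb]; ring
  have h1 : α * (2 * ((ξ₀ * x : ℤ) : ℤ_[2]) - α) = 2 * ((ξ₀ * z : ℤ) : ℤ_[2]) ^ 2 := by
    have h2 : ((x : ℤ_[2])) ^ 2 + q * (y : ℤ_[2]) ^ 2 = 2 * (z : ℤ_[2]) ^ 2 := by
      exact_mod_cast congrArg (fun t : ℤ => (t : ℤ_[2])) hxyz
    rw [hα]
    push_cast
    linear_combination (ξ₀ : ℤ_[2]) ^ 2 * h2 - (ξ₀ : ℤ_[2]) ^ 2 * (y : ℤ_[2]) ^ 2 * hσ
  have h2p : Prime (2 : ℤ) := Int.prime_two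
  have hxo' : ¬ 2 ∣ ξ₀ * x := fun h => (h2p.dvd_or_dvd h).elim hodd hxo
  have hξ0 : ξ₀ ≠ 0 := by
    rintro rfl
    exact hodd (dvd_zero 2)
  have hz0' : ξ₀ * z ≠ 0 := mul_ne_zero hξ0 hz0
  have h3 := mod_eight hxo' hz0' (hz2.mul_left ξ₀) h1 hb'
  have hiff : 4 ∣ ξ₀ * z ↔ 4 ∣ z := by
    constructor
    · intro h5
      have h6 : IsCoprime (4 : ℤ) ξ₀ := by
        have h7 : IsCoprime (2 : ℤ) ξ₀ := (Prime.coprime_iff_not_dvd h2p).mpr hodd
        have h9 := h7.pow_left (m := 2)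
        norm_num at h9
        exact h9
      exact h6.dvd_of_dvd_mul_left h5
    · intro h5
      exact h5.mul_left ξ₀
  have hξ8 : ξ₀ % 8 = 1 ∨ ξ₀ % 8 = 3 ∨ ξ₀ % 8 = 5 ∨ ξ₀ % 8 = 7 := by omega
  have hx8 : x % 8 = 1 ∨ x % 8 = 3 ∨ x % 8 = 5 ∨ x % 8 = 7 := by omega
  have hmul : (ξ₀ * x) % 8 = ((ξ₀ % 8) * (x % 8)) % 8 := Int.mul_emod ξ₀ x 8
  by_cases h5 : 4 ∣ z
  · have h6 := h3.1 (hiff.mpr h5)
    have h7 := h4 h5
    rcases hξ8 with h9 | h9 | h9 | h9 <;> rcases hx8 with h10 | h10 | h10 | h10 <;>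
      rw [h9, h10] at hmul <;> omega
  · have h6 := h3.2 (fun h => h5 (hiff.mp h))
    have h7 := h4' h5
    rcases hξ8 with h9 | h9 | h9 | h9 <;> rcases hx8 with h10 | h10 | h10 | h10 <;>
      rw [h9, h10] at hmul <;> omega

end Pool.Agent.Lib.MP_7c08ba_nt
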