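import Mathlib
import Pool.Agent.Lib.MP_7c08ba_nt.Tw.Primes
import Pool.Agent.Lib.MP_7c08ba_nt.Tw.Sym

set_option autoImplicit false

/-!
Decomposition of elements of `ℚ(√-q)` of even valuation away from `2`, `√-q` and a finite set of
inert primes.
-/

namespace Pool.Agent.Lib.MP_7c08ba_nt

set_option linter.unusedSectionVars false

open NumberField IsDedekindDomain Module

section

variable {F : Type*} [Field F] [NumberField F] {q : ℕ} (hq0 : 0 < q)
  (hF : finrank ℚ F = 2) {s : F} (hs : s ^ 2 = -(q : F)) (hq : q.Prime)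

/-- Coprime integers do not lie in the same prime. -/
lemma notMem_of_coprime {v : HeightOneSpectrum (𝓞 F)} {m n : ℕ} (hm : (m : 𝓞 F) ∈ v.asIdeal)
    (h : Nat.Coprime n m) : (n : 𝓞 F) ∉ v.asIdeal := by
  intro hn
  apply one_notMem v
  obtain ⟨a, b, hab⟩ := (Nat.isCoprime_iff_coprime.mpr h)
  have h3 : (1 : 𝓞 F) = a * (n : 𝓞 F) + b * (m : 𝓞 F) := by
    exact_mod_cast (congrArg (fun t : ℤ => (t : 𝓞 F)) hab).symm
  rw [h3]
  exact v.asIdeal.add_mem (v.asIdeal.mul_mem_left _ hn) (v.asIdeal.mul_mem_left _ hm)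

lemma val_natCast_eq_one {v : HeightOneSpectrum (𝓞 F)} {n : ℕ} (h : (n : 𝓞 F) ∉ v.asIdeal) :
    v.valuation F (n : F) = 1 := by
  have := (v.valuation_eq_one_iff_notMem (K := F)).mpr h
  rwa [map_natCast] at this

include hs in
lemma q_mem {v : HeightOneSpectrum (𝓞 F)} (hv : sI hs ∈ v.asIdeal) : (q : 𝓞 F) ∈ v.asIdeal := by
  have h1 : (q : 𝓞 F) = -(sI hs * sI hs) := by
    have := sI_sq hs
    linear_combination this
  rw [h1]
  exact v.asIdeal.neg_mem (v.asIdeal.mul_mem_left _ hv)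

include hq0 hs hq in
/-- Divisors of `2 * q` up to squares. -/
lemma class_of_dvd {g : ℕ} (hg : g ∣ 2 * q) : ∃ (η : ℤ) (e : ℕ) (β : F), (η = 1 ∨ η = -1) ∧
    e ≤ 1 ∧ β ≠ 0 ∧ (g : F) = η * 2 ^ e * β ^ 2 := by
  have hs0 : s ≠ 0 := by
    rintro rfl
    rw [zero_pow two_ne_zero, eq_comm, neg_eq_zero] at hs
    exact hq0.ne' (by exact_mod_cast hs)
  have hg4 : g = 1 ∨ g = 2 ∨ g = q ∨ g = 2 * q := by
    obtain ⟨d1, d2, h4, h5, rfl⟩ := (Nat.dvd_mul).mp hg
    rcases (Nat.dvd_prime Nat.prime_two).mp h4 with rfl | rfl <;>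
      rcases (Nat.dvd_prime hq).mp h5 with rfl | rfl <;> simp
  rcases hg4 with rfl | rfl | rfl | rfl
  · exact ⟨1, 0, 1, Or.inl rfl, by norm_num, one_ne_zero, by push_cast; ring⟩
  · exact ⟨1, 1, 1, Or.inl rfl, le_rfl, one_ne_zero, by push_cast; ring⟩
  · exact ⟨-1, 0, s, Or.inr rfl, by norm_num, hs0, by push_cast; linear_combination hs⟩
  · exact ⟨-1, 1, s, Or.inr rfl, le_rfl, hs0, by push_cast; linear_combination (2 : F) * hs⟩

include hq0 hF hs hq in
/-- Rational elements of even valuation away from `2`. -/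
lemma rat_class {R : ℚ} (hR : R ≠ 0)
    (hev : ∀ v : HeightOneSpectrum (𝓞 F), (2 : 𝓞 F) ∉ v.asIdeal →
      IsSquare (v.valuation F (R : F))) : ∃ (η : ℤ) (e : ℕ) (β : F), (η = 1 ∨ η = -1) ∧
    e ≤ 1 ∧ β ≠ 0 ∧ (R : F) = η * 2 ^ e * β ^ 2 := by
  have hR' : (R : F) ≠ 0 := by exact_mod_cast hR
  obtain ⟨g, x, y, r, hg, hxy, hr, hu⟩ := exists_primitive hq0 hF hs hR'
  have hgd := squarefree_part_dvd hq0 hF hs hq hg hxy hr hu hev
  have h1 : ((R : ℚ) : F) + ((0 : ℚ) : F) * s =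
      ((g * x * r ^ 2 : ℚ) : F) + ((g * y * r ^ 2 : ℚ) : F) * s := by
    rw [hu]
    push_cast
    ring
  obtain ⟨h2, h3⟩ := coords_inj hq0 hs h1
  have hy : y = 0 := by
    have hg0 : (g : ℚ) ≠ 0 := by exact_mod_cast hg.ne_zero
    rw [eq_comm, mul_eq_zero, mul_eq_zero] at h3
    rcases h3 with (h3 | h3) | h3
    · exact absurd h3 hg0
    · exact_mod_cast h3
    · exact absurd h3 (pow_ne_zero 2 hr)
  rw [hy, isCoprime_zero_right, Int.isUnit_iff] at hxy
  have hrF : (r : F) ≠ 0 := by exact_mod_cast hr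
  obtain ⟨η, e, β, hη, he, hβ, hgβ⟩ := class_of_dvd hq0 hs hq hgd
  have h2F : (R : F) = g * x * (r : F) ^ 2 := by
    rw [h2]
    push_cast
    ring
  rcases hxy with rfl | rfl
  · refine ⟨η, e, β * r, hη, he, mul_ne_zero hβ hrF, ?_⟩
    rw [h2F, hgβ]
    push_cast
    ring
  · refine ⟨-η, e, β * r, ?_, he, mul_ne_zero hβ hrF, ?_⟩
    · rcases hη with rfl | rfl
      · right; rfl
      · left; norm_num
    · rw [h2F, hgβ]
      push_cast
      ring

include hq0 hF hs hq in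
/-- Elements of even valuation at all primes not above `2`. -/
lemma even_class {u : F} (hu0 : u ≠ 0)
    (hev : ∀ v : HeightOneSpectrum (𝓞 F), (2 : 𝓞 F) ∉ v.asIdeal → IsSquare (v.valuation F u)) :
    ∃ (η : ℤ) (e : ℕ) (x y : ℤ) (β : F), (η = 1 ∨ η = -1) ∧ e ≤ 1 ∧ β ≠ 0 ∧
      ((x = 1 ∧ y = 0) ∨ (IsCoprime x y ∧ ∃ z : ℤ, x ^ 2 + q * y ^ 2 = 2 * z ^ 2)) ∧
      u = η * 2 ^ e * (x + y * s) * β ^ 2 := by
  obtain ⟨g, x, y, r, hg, hxy, hr, hu⟩ := exists_primitive hq0 hF hs hu0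
  have hrF : (r : F) ≠ 0 := by exact_mod_cast hr
  have hgF : (g : F) ≠ 0 := by exact_mod_cast hg.ne_zero
  rcases norm_primitive hq0 hF hs hq hg hxy hr hu hev with ⟨T, hT⟩ | ⟨T, hT⟩
  · have hpos : x ≠ 0 ∨ y ≠ 0 := by
      by_contra hcon
      push Not at hcon
      rw [hcon.1, hcon.2] at hxy
      exact not_isCoprime_zero_zero hxy
    obtain ⟨S, hS, hS2⟩ : ∃ S : ℤ, x ^ 2 + q * y ^ 2 = S ^ 2 ∧ x + S ≠ 0 := by
      by_cases h : x + T = 0
      · refine ⟨-T, by rw [hT]; ring, ?_⟩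
        intro h'
        have hx : x = 0 := by omega
        have hT0 : T = 0 := by omega
        rw [hx, hT0] at hT
        have hq' : (q : ℤ) ≠ 0 := by exact_mod_cast hq0.ne'
        have hy : y = 0 := by
          have : (q : ℤ) * y ^ 2 = 0 := by linarith
          exact pow_eq_zero_iff two_ne_zero |>.mp ((mul_eq_zero.mp this).resolve_left hq')
        rcases hpos with h4 | h4
        · exact h4 hx
        · exact h4 hy
      · exact ⟨T, hT, h⟩
    have hSF : ((x : F)) ^ 2 + q * (y : F) ^ 2 = (S : F) ^ 2 := by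
      exact_mod_cast congrArg (fun t : ℤ => (t : F)) hS
    have hS2F : ((x : F)) + S ≠ 0 := by exact_mod_cast hS2
    set R : ℚ := 2 * (x + S) * g with hR
    have hR0 : R ≠ 0 := by
      rw [hR]
      have h1 : ((x : ℚ) + S) ≠ 0 := by exact_mod_cast hS2
      have h2 : (g : ℚ) ≠ 0 := by exact_mod_cast hg.ne_zero
      positivity
    have hRF : (R : F) = 2 * (x + S) * g := by
      rw [hR]
      push_cast
      ring
    have h2F : (2 : F) ≠ 0 := two_ne_zero
    have huR : u * (2 * ((x : F) + S)) ^ 2 = R * (((x : F) + y * s + S) * r) ^ 2 := by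
      rw [hu, hRF]
      linear_combination (2 * ((x : F) + S) * g * (r : F) ^ 2) * hSF -
        (2 * ((x : F) + S) * g * (r : F) ^ 2 * (y : F) ^ 2) * hs
    set A : F := 2 * ((x : F) + S) with hA
    set B : F := ((x : F) + y * s + S) * r with hB
    have hA0 : A ≠ 0 := mul_ne_zero h2F hS2F
    have hB0 : B ≠ 0 := by
      intro h
      rw [h, zero_pow two_ne_zero, mul_zero, mul_eq_zero] at huR
      rcases huR with h3 | h3
      · exact hu0 h3
      · exact pow_ne_zero 2 hA0 h3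
    have hRu : (R : F) = u * (A / B) ^ 2 := by
      rw [div_pow, mul_div_assoc', huR]
      field_simp
    obtain ⟨η, e, β, hη, he, hβ, hRβ⟩ := rat_class hq0 hF hs hq hR0 (by
      intro v hv
      rw [hRu, isSquare_val_mul_sq v (div_ne_zero hA0 hB0)]
      exact hev v hv)
    refine ⟨η, e, 1, 0, β * B / A, hη, he, div_ne_zero (mul_ne_zero hβ hB0) hA0,
      Or.inl ⟨rfl, rfl⟩, ?_⟩
    field_simp
    rw [huR, hRβ]
    push_cast
    ring
  · have hgd := squarefree_part_dvd hq0 hF hs hq hg hxy hr hu hev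
    obtain ⟨η, e, β, hη, he, hβ, hgβ⟩ := class_of_dvd hq0 hs hq hgd
    refine ⟨η, e, x, y, β * r, hη, he, mul_ne_zero hβ hrF, Or.inr ⟨hxy, T, hT⟩, ?_⟩
    rw [hu, hgβ]
    ring

/-- A finite set of odd primes inert in `ℚ(√-q)`. -/
def InertSet (q : ℕ) (rs : Finset ℕ) : Prop :=
  ∀ r ∈ rs, r.Prime ∧ r ≠ 2 ∧ ¬ IsSquare (((-q : ℤ)) : ZMod r)

lemma InertSet.coprime_q {rs : Finset ℕ} (h : InertSet q rs) (hqp : q.Prime) {r : ℕ}
    (hr : r ∈ rs) : Nat.Coprime r q := by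
  obtain ⟨h1, h2, h3⟩ := h r hr
  rw [Nat.coprime_primes h1 hqp]
  rintro rfl
  apply h3
  refine ⟨0, ?_⟩
  push_cast
  simp

include hs hq in
lemma r_notMem_of_sI {rs : Finset ℕ} (hrs : InertSet q rs) {v : HeightOneSpectrum (𝓞 F)}
    (hv : sI hs ∈ v.asIdeal) {r : ℕ} (hr : r ∈ rs) : (r : 𝓞 F) ∉ v.asIdeal :=
  notMem_of_coprime (q_mem hs hv) (hrs.coprime_q hq hr)

include hs hq in
lemma sI_notMem_of_r {rs : Finset ℕ} (hrs : InertSet q rs) {v : HeightOneSpectrum (𝓞 F)}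
    {r : ℕ} (hr : r ∈ rs) (hv : (r : 𝓞 F) ∈ v.asIdeal) : sI hs ∉ v.asIdeal :=
  fun h => r_notMem_of_sI hs hq hrs h hr hv

/-- The valuation of a product of primes at a prime not containing them. -/
lemma val_prod_eq_one {v : HeightOneSpectrum (𝓞 F)} {I : Finset ℕ}
    (h : ∀ r ∈ I, (r : 𝓞 F) ∉ v.asIdeal) : v.valuation F ((∏ r ∈ I, r : ℕ) : F) = 1 := by
  classical
  induction I using Finset.induction_on with
  | empty => simp
  | insert a S ha ih =>
    rw [Finset.prod_insert ha, Nat.cast_mul, map_mul,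
      ih (fun r hr => h r (Finset.mem_insert_of_mem hr)),
      val_natCast_eq_one (h a (Finset.mem_insert_self a S)), mul_one]

/-- The valuation of a product of distinct primes at a prime above one of them. -/
lemma val_prod_eq {v : HeightOneSpectrum (𝓞 F)} {I : Finset ℕ} (hI : ∀ r ∈ I, r.Prime) {r : ℕ}
    (hr : r.Prime) (hv : (r : 𝓞 F) ∈ v.asIdeal) :
    (r ∈ I → v.valuation F ((∏ r ∈ I, r : ℕ) : F) = v.valuation F (r : F)) ∧
    (r ∉ I → v.valuation F ((∏ r ∈ I, r : ℕ) : F) = 1) := by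
  classical
  have key : ∀ r' ∈ I, r' ≠ r → (r' : 𝓞 F) ∉ v.asIdeal := fun r' hr' hne =>
    notMem_of_coprime hv ((Nat.coprime_primes (hI r' hr') hr).mpr hne)
  constructor
  · intro h
    rw [← Finset.mul_prod_erase I (fun r => r) h, Nat.cast_mul, map_mul,
      val_prod_eq_one (fun r' hr' => key r' (Finset.mem_of_mem_erase hr')
        (Finset.ne_of_mem_erase hr')), mul_one]
  · intro h
    exact val_prod_eq_one (fun r' hr' => key r' hr' (fun h' => h (h' ▸ hr')))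

include hq0 hF hs hq in
/-- The decomposition in the twisted case. -/
theorem twist_decomp {rs : Finset ℕ} (hrs : InertSet q rs) {u : F} (hu0 : u ≠ 0)
    (hev : ∀ v : HeightOneSpectrum (𝓞 F), (2 : 𝓞 F) ∉ v.asIdeal → sI hs ∉ v.asIdeal →
      (∀ r ∈ rs, (r : 𝓞 F) ∉ v.asIdeal) → IsSquare (v.valuation F u)) :
    ∃ (I : Finset ℕ) (c : ℕ) (η : ℤ) (e : ℕ) (x y : ℤ) (β : F), I ⊆ rs ∧ c ≤ 1 ∧
      (η = 1 ∨ η = -1) ∧ e ≤ 1 ∧ β ≠ 0 ∧
      ((x = 1 ∧ y = 0) ∨ (IsCoprime x y ∧ ∃ z : ℤ, x ^ 2 + q * y ^ 2 = 2 * z ^ 2)) ∧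
      u = ((∏ r ∈ I, r : ℕ) : F) * s ^ c * η * 2 ^ e * (x + y * s) * β ^ 2 ∧
      (∀ v : HeightOneSpectrum (𝓞 F), sI hs ∈ v.asIdeal →
        (c = 0 ↔ IsSquare (v.valuation F u))) ∧
      ∀ r ∈ rs, ∀ v : HeightOneSpectrum (𝓞 F), (r : 𝓞 F) ∈ v.asIdeal →
        (r ∉ I ↔ IsSquare (v.valuation F u)) := by
  classical
  have hs0 : s ≠ 0 := by
    rintro rfl
    rw [zero_pow two_ne_zero, eq_comm, neg_eq_zero] at hs
    exact hq0.ne' (by exact_mod_cast hs)
  -- uniqueness of the primes above the special ones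
  have huS : ∀ v v' : HeightOneSpectrum (𝓞 F), sI hs ∈ v.asIdeal → sI hs ∈ v'.asIdeal → v = v' :=
    fun v v' h h' => HeightOneSpectrum.ext
      ((asIdeal_of_sI_mem hq0 hF hs hq h).trans (asIdeal_of_sI_mem hq0 hF hs hq h').symm)
  have huR : ∀ r ∈ rs, ∀ v v' : HeightOneSpectrum (𝓞 F), (r : 𝓞 F) ∈ v.asIdeal →
      (r : 𝓞 F) ∈ v'.asIdeal → v = v' := by
    intro r hr v v' h h'
    obtain ⟨h1, h2, h3⟩ := hrs r hr
    exact HeightOneSpectrum.ext ((asIdeal_of_r_mem hq0 hF hs hq h1 h2 h3 h).trans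
      (asIdeal_of_r_mem hq0 hF hs hq h1 h2 h3 h').symm)
  set I : Finset ℕ := rs.filter (fun r => ∃ v : HeightOneSpectrum (𝓞 F),
    (r : 𝓞 F) ∈ v.asIdeal ∧ ¬ IsSquare (v.valuation F u)) with hI
  have hIrs : I ⊆ rs := Finset.filter_subset _ _
  have hIp : ∀ r ∈ I, r.Prime := fun r hr => (hrs r (hIrs hr)).1
  obtain ⟨c, hc1, hc⟩ : ∃ c : ℕ, c ≤ 1 ∧ ∀ v : HeightOneSpectrum (𝓞 F), sI hs ∈ v.asIdeal →
      (c = 0 ↔ IsSquare (v.valuation F u)) := by
    by_cases h : ∃ v : HeightOneSpectrum (𝓞 F), sI hs ∈ v.asIdeal ∧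
        ¬ IsSquare (v.valuation F u)
    · obtain ⟨v, hv, hv'⟩ := h
      refine ⟨1, le_rfl, fun v' hv'' => ?_⟩
      rw [huS v' v hv'' hv]
      exact ⟨fun h => absurd h one_ne_zero, fun h => absurd h hv'⟩
    · push Not at h
      exact ⟨0, by norm_num, fun v hv => ⟨fun _ => h v hv, fun _ => rfl⟩⟩
  have hIr : ∀ r ∈ rs, ∀ v : HeightOneSpectrum (𝓞 F), (r : 𝓞 F) ∈ v.asIdeal →
      (r ∉ I ↔ IsSquare (v.valuation F u)) := by
    intro r hr v hv
    constructor
    · intro h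
      by_contra hcon
      exact h (Finset.mem_filter.mpr ⟨hr, v, hv, hcon⟩)
    · intro h h'
      obtain ⟨-, v', hv', h''⟩ := Finset.mem_filter.mp h'
      rw [huR r hr v' v hv' hv] at h''
      exact h'' h
  set d : F := ((∏ r ∈ I, r : ℕ) : F) with hd
  have hd0 : d ≠ 0 := by
    rw [hd]
    have : (∏ r ∈ I, r) ≠ 0 := Finset.prod_ne_zero_iff.mpr fun r hr => (hIp r hr).ne_zero
    exact_mod_cast this
  have hu'' : ∀ v : HeightOneSpectrum (𝓞 F), (2 : 𝓞 F) ∉ v.asIdeal →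
      IsSquare (v.valuation F (u * (d * s ^ c))) := by
    intro v hv
    by_cases hvs : sI hs ∈ v.asIdeal
    · have h1 : v.valuation F d = 1 := by
        rw [hd]
        exact val_prod_eq_one fun r hr => r_notMem_of_sI hs hq hrs hvs (hIrs hr)
      rw [map_mul, map_mul, h1, one_mul]
      rcases (by omega : c = 0 ∨ c = 1) with h0 | h0
      · rw [h0, pow_zero, map_one, mul_one]
        exact (hc v hvs).mp h0
      · rw [h0, pow_one]
        refine isSquare_mul_of_not (fun h => ?_) (val_s_not_isSquare hq0 hF hs hq hvs)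
        have := (hc v hvs).mpr h
        omega
    · have hvs1 : v.valuation F s = 1 := by
        have := (v.valuation_eq_one_iff_notMem (K := F)).mpr hvs
        exact this
      rw [map_mul, map_mul, map_pow, hvs1, one_pow, mul_one]
      by_cases hvr : ∃ r ∈ rs, (r : 𝓞 F) ∈ v.asIdeal
      · obtain ⟨r, hr, hrv⟩ := hvr
        obtain ⟨h1, h2, h3⟩ := hrs r hr
        have h4 := val_prod_eq hIp h1 hrv
        by_cases hrI : r ∈ I
        · rw [hd, h4.1 hrI]
          refine isSquare_mul_of_not (fun h => ?_) ?_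
          · exact (hIr r hr v hrv).mpr h hrI
          · refine not_isSquare_valuation hq0 hF hs hq h1 h2 ?_ v hrv
            rintro rfl
            exact sI_notMem_of_r hs hq hrs hr hrv (v.isPrime.mem_of_pow_mem 2 (by
              rw [sI_sq hs]; exact v.asIdeal.neg_mem hrv))
        · rw [hd, h4.2 hrI, mul_one]
          exact (hIr r hr v hrv).mp hrI
      · push Not at hvr
        have h1 : v.valuation F d = 1 := by
          rw [hd]
          exact val_prod_eq_one fun r hr => hvr r (hIrs hr)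
        rw [h1, mul_one]
        exact hev v hv hvs hvr
  have hds0 : d * s ^ c ≠ 0 := mul_ne_zero hd0 (pow_ne_zero c hs0)
  obtain ⟨η, e, x, y, β, hη, he, hβ, hxy, huβ⟩ :=
    even_class hq0 hF hs hq (mul_ne_zero hu0 hds0) hu''
  refine ⟨I, c, η, e, x, y, β / (d * s ^ c), hIrs, hc1, hη, he, div_ne_zero hβ hds0, hxy, ?_,
    hc, hIr⟩
  have h1 : u * (d * s ^ c) ^ 2 = d * s ^ c * η * 2 ^ e * (x + y * s) * β ^ 2 := by
    linear_combination (d * s ^ c) * huβ
  rw [div_pow, mul_div_assoc', eq_div_iff (pow_ne_zero 2 hds0)]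
  exact h1

end

end Pool.Agent.Lib.MP_7c08ba_nt
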