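import Mathlib
import Pool.Agent.Lib.MP_7c08ba_nt.Tw.Decomp

set_option autoImplicit false

/-!
Quadratic symbols of the inert primes and of their products.
-/

namespace Pool.Agent.Lib.MP_7c08ba_nt

set_option linter.unusedSectionVars false

/-- The square conditions at an inert prime. -/
lemma inert_cond {q r : ℕ} (hr : r.Prime) (hr2 : r ≠ 2)
    (hin : ¬ IsSquare (((-q : ℤ)) : ZMod r)) {k δ : ℕ}
    (hsq : IsSquare (((q : ℤ) ^ k * 2 ^ δ : ℤ) : ZMod r)) :
    (r % 8 = 1 → Even k) ∧ (r % 8 = 5 → Even (k + δ)) ∧ (r % 8 = 3 → Even δ) := by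
  have : Fact r.Prime := ⟨hr⟩
  have hrq : ¬ (r : ℤ) ∣ (q : ℤ) := by
    intro h
    apply hin
    refine ⟨0, ?_⟩
    have h1 := (ZMod.intCast_zmod_eq_zero_iff_dvd (q : ℤ) r).mpr h
    push_cast at h1 ⊢
    rw [h1]
    simp
  have hq0 : ((q : ℤ) : ZMod r) ≠ 0 := fun h =>
    hrq ((ZMod.intCast_zmod_eq_zero_iff_dvd _ _).mp h)
  have hr2' : ¬ (r : ℤ) ∣ 2 := by
    intro h
    have h1 : r ∣ 2 := by exact_mod_cast h
    exact hr2 ((Nat.prime_dvd_prime_iff_eq hr Nat.prime_two).mp h1)
  have h20 : ((2 : ℤ) : ZMod r) ≠ 0 := fun h =>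
    hr2' ((ZMod.intCast_zmod_eq_zero_iff_dvd _ _).mp h)
  have hE0 : (((q : ℤ) ^ k * 2 ^ δ : ℤ) : ZMod r) ≠ 0 := by
    have h1 : (((q : ℤ) ^ k * 2 ^ δ : ℤ) : ZMod r) = ((q : ℤ) : ZMod r) ^ k * ((2 : ℤ) : ZMod r) ^ δ := by
      push_cast
      rfl
    rw [h1]
    exact mul_ne_zero (pow_ne_zero _ hq0) (pow_ne_zero _ h20)
  have h1 := (legendreSym.eq_one_iff r hE0).mpr hsq
  have hpow : ∀ (a : ℤ) (m : ℕ), legendreSym r (a ^ m) = (legendreSym r a) ^ m := by
    intro a m
    induction m with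
    | zero => simp
    | succ m ih => rw [pow_succ, legendreSym.mul, ih, pow_succ]
  rw [legendreSym.mul, hpow, hpow, legendreSym.at_two hr2] at h1
  have h2 : legendreSym r (-q : ℤ) = -1 := legendreSym.eq_neg_one_iff r |>.mpr hin
  have h3 : (-q : ℤ) = -1 * q := by ring
  rw [h3, legendreSym.mul, legendreSym.at_neg_one hr2] at h2
  refine ⟨?_, ?_, ?_⟩
  · intro h8
    rw [ZMod.χ₄_nat_one_mod_four (by omega), one_mul] at h2
    rw [h2, ZMod.χ₈_nat_eq_if_mod_eight, if_neg (by omega), if_pos (by omega), one_pow,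
      mul_one] at h1
    by_contra hcon
    rw [Nat.not_even_iff_odd] at hcon
    rw [hcon.neg_one_pow] at h1
    norm_num at h1
  · intro h8
    rw [ZMod.χ₄_nat_one_mod_four (by omega), one_mul] at h2
    rw [h2, ZMod.χ₈_nat_eq_if_mod_eight, if_neg (by omega), if_neg (by omega), ← pow_add] at h1
    by_contra hcon
    rw [Nat.not_even_iff_odd] at hcon
    rw [hcon.neg_one_pow] at h1
    norm_num at h1
  · intro h8
    rw [ZMod.χ₄_nat_three_mod_four (by omega)] at h2
    have h4 : legendreSym r q = 1 := by linarith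
    rw [h4, ZMod.χ₈_nat_eq_if_mod_eight, if_neg (by omega), if_neg (by omega), one_pow,
      one_mul] at h1
    by_contra hcon
    rw [Nat.not_even_iff_odd] at hcon
    rw [hcon.neg_one_pow] at h1
    norm_num at h1

/-- The symbol of an inert prime modulo `q`. -/
lemma jacobi_inert {q r : ℕ} (hq : q.Prime) (hq4 : q % 4 = 3) (hr : r.Prime) (hr2 : r ≠ 2)
    (hin : ¬ IsSquare (((-q : ℤ)) : ZMod r)) : jacobiSym (r : ℤ) q = -1 := by
  have : Fact r.Prime := ⟨hr⟩
  have : Fact q.Prime := ⟨hq⟩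
  have h2 : legendreSym r (-q : ℤ) = -1 := legendreSym.eq_neg_one_iff r |>.mpr hin
  have h3 : (-q : ℤ) = -1 * q := by ring
  rw [h3, legendreSym.mul, legendreSym.at_neg_one hr2] at h2
  rw [← jacobiSym.legendreSym.to_jacobiSym]
  have hro : r % 4 = 1 ∨ r % 4 = 3 := by
    have := hr.eq_two_or_odd'.resolve_left hr2
    rw [Nat.odd_iff] at this
    omega
  rcases hro with h4 | h4
  · rw [legendreSym.quadratic_reciprocity_one_mod_four h4 (by rintro rfl; omega)]
    rw [ZMod.χ₄_nat_one_mod_four h4, one_mul] at h2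
    exact h2
  · rw [legendreSym.quadratic_reciprocity_three_mod_four h4 hq4]
    rw [ZMod.χ₄_nat_three_mod_four h4] at h2
    linarith

/-- Symbols of products. -/
lemma jacobi_prod {q : ℕ} (S : Finset ℕ) (h : ∀ r ∈ S, jacobiSym (r : ℤ) q = -1) :
    jacobiSym ((∏ r ∈ S, r : ℕ) : ℤ) q = (-1) ^ S.card := by
  classical
  induction S using Finset.induction_on with
  | empty => simp
  | insert a S ha ih =>
    rw [Finset.prod_insert ha, Nat.cast_mul, jacobiSym.mul_left, h a (Finset.mem_insert_self a S),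
      ih (fun r hr => h r (Finset.mem_insert_of_mem hr)), Finset.card_insert_of_notMem ha, pow_succ]
    ring

/-- Products modulo eight. -/
lemma prod_mod_eight (S : Finset ℕ) (h : ∀ r ∈ S, r % 8 = 1 ∨ r % 8 = 3 ∨ r % 8 = 5) :
    (∏ r ∈ S, r) % 8 = (5 ^ (S.filter (fun r => r % 8 = 5)).card *
      3 ^ (S.filter (fun r => r % 8 = 3)).card) % 8 := by
  classical
  rw [← ZMod.natCast_eq_natCast_iff']
  induction S using Finset.induction_on with
  | empty => simp
  | insert a S ha ih =>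
    have h1 := ih (fun r hr => h r (Finset.mem_insert_of_mem hr))
    rw [Finset.prod_insert ha, Finset.filter_insert, Finset.filter_insert, Nat.cast_mul, h1]
    have hn5 : a ∉ S.filter (fun r => r % 8 = 5) := fun h => ha (Finset.mem_filter.mp h).1
    have hn3 : a ∉ S.filter (fun r => r % 8 = 3) := fun h => ha (Finset.mem_filter.mp h).1
    rcases h a (Finset.mem_insert_self a S) with h2 | h2 | h2
    · have h3 : (a : ZMod 8) = (1 : ℕ) := (ZMod.natCast_eq_natCast_iff' a 1 8).mpr (by omega)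
      rw [if_neg (by omega), if_neg (by omega), h3]
      push_cast
      ring
    · have h3 : (a : ZMod 8) = (3 : ℕ) := (ZMod.natCast_eq_natCast_iff' a 3 8).mpr (by omega)
      rw [if_neg (by omega), if_pos h2, Finset.card_insert_of_notMem hn3, h3]
      push_cast
      ring
    · have h3 : (a : ZMod 8) = (5 : ℕ) := (ZMod.natCast_eq_natCast_iff' a 5 8).mpr (by omega)
      rw [if_pos h2, if_neg (by omega), Finset.card_insert_of_notMem hn5, h3]
      push_cast
      ring

/-- Cardinality by residue classes. -/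
lemma card_split (S : Finset ℕ) (h : ∀ r ∈ S, r % 2 = 1) :
    S.card = (S.filter (fun r => r % 8 = 1)).card + (S.filter (fun r => r % 8 = 5)).card +
      (S.filter (fun r => r % 8 = 3)).card + (S.filter (fun r => r % 8 = 7)).card := by
  classical
  induction S using Finset.induction_on with
  | empty => simp
  | insert a S ha ih =>
    have h1 := ih (fun r hr => h r (Finset.mem_insert_of_mem hr))
    have h8 : a % 8 = 1 ∨ a % 8 = 3 ∨ a % 8 = 5 ∨ a % 8 = 7 := by
      have := h a (Finset.mem_insert_self a S)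
      omega
    rw [Finset.filter_insert, Finset.filter_insert, Finset.filter_insert, Finset.filter_insert,
      Finset.card_insert_of_notMem ha, h1]
    have hn1 : a ∉ S.filter (fun r => r % 8 = 1) := fun h => ha (Finset.mem_filter.mp h).1
    have hn5 : a ∉ S.filter (fun r => r % 8 = 5) := fun h => ha (Finset.mem_filter.mp h).1
    have hn3 : a ∉ S.filter (fun r => r % 8 = 3) := fun h => ha (Finset.mem_filter.mp h).1
    have hn7 : a ∉ S.filter (fun r => r % 8 = 7) := fun h => ha (Finset.mem_filter.mp h).1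
    rcases h8 with h2 | h2 | h2 | h2
    · rw [if_pos h2, if_neg (by omega), if_neg (by omega), if_neg (by omega),
        Finset.card_insert_of_notMem hn1]
      ring
    · rw [if_neg (by omega), if_neg (by omega), if_pos h2, if_neg (by omega),
        Finset.card_insert_of_notMem hn3]
      ring
    · rw [if_neg (by omega), if_pos h2, if_neg (by omega), if_neg (by omega),
        Finset.card_insert_of_notMem hn5]
      ring
    · rw [if_neg (by omega), if_neg (by omega), if_neg (by omega), if_pos h2,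
        Finset.card_insert_of_notMem hn7]
      ring

lemma five_pow_mod (m : ℕ) : (Even m ∧ 5 ^ m % 8 = 1) ∨ (Odd m ∧ 5 ^ m % 8 = 5) := by
  induction m with
  | zero => left; exact ⟨Even.zero, rfl⟩
  | succ m ih =>
    rcases ih with ⟨h1, h2⟩ | ⟨h1, h2⟩
    · right
      refine ⟨h1.add_one, ?_⟩
      rw [pow_succ]
      omega
    · left
      refine ⟨h1.add_one, ?_⟩
      rw [pow_succ]
      omega

/-- The basic bound in terms of the numbers of primes `≡ 3, 5, 7 (mod 8)`. -/
def base0 (n3 n5 n7 : ℕ) : ℕ := n7 + if n3 = 0 then n5 % 2 else n3 - 1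

/-- The final combinatorial step. Here `nᵢ`, `mᵢ` count the primes `≡ i (mod 8)` of the set and of
the subset, `d` is the product of the subset, `x₁` is the symbol of `x`. -/
lemma final_cases {n1 n3 n5 n7 m1 m3 m5 c δ d : ℕ} {η τ x₁ ξ₀ x : ℤ}
    (hm3 : m3 ≤ n3) (hm3' : m3 ≤ 1) (hc : c ≤ 1) (hδ : δ ≤ 1) (h1 : m1 = if c = 1 then n1 else 0)
    (h5 : m5 = if c = δ then 0 else n5) (h5' : n3 = 0 → n5 % 2 = 1 → c = δ) (h3 : δ = 1 → n3 = 0)
    (hd : d % 8 = (5 ^ m5 * 3 ^ m3) % 8) (hη : η = 1 ∨ η = -1) (hτ : τ = 1 ∨ τ = -1)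
    (hsym1 : c = 1 →
      (-1) ^ (m1 + m5 + m3 + (n1 + n5 + n3 + n7)) * η * τ * x₁ = 1)
    (hξ : ξ₀ = d * η * 5 ^ c)
    (hdy0 : δ = 0 → x₁ = 1 ∧ ξ₀ % 8 = 1)
    (hdy1 : δ = 1 → (ξ₀ % 8 = 3 ∧ (x % 8 = 1 ∨ x % 8 = 3)) ∨ (ξ₀ % 8 = 5 ∧ (x % 8 = 5 ∨ x % 8 = 7)))
    (hx : δ = 1 → ((x % 8 = 1 ∨ x % 8 = 3) → x₁ = 1) ∧ ((x % 8 = 5 ∨ x % 8 = 7) → x₁ = -1)) :
    (c = 0 ∧ δ = 0 ∧ m1 = 0 ∧ m5 = 0 ∧ m3 = 0 ∧ η = 1) ∨
      (c = 1 ∧ τ = (-1) ^ (base0 n3 n5 n7 + 1)) := by
  have hc' : c = 0 ∨ c = 1 := by omega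
  have hδ' : δ = 0 ∨ δ = 1 := by omega
  have hττ : τ * τ = 1 := by rcases hτ with rfl | rfl <;> norm_num
  have hηη : η * η = 1 := by rcases hη with rfl | rfl <;> norm_num
  have hpp : ∀ e : ℕ, ((-1 : ℤ) ^ e) * (-1) ^ e = 1 := by
    intro e
    rw [← pow_add]
    exact Even.neg_one_pow ⟨e, rfl⟩
  rcases hc' with rfl | rfl <;> rcases hδ' with rfl | rfl
  · -- `c = 0`, `δ = 0`
    left
    obtain ⟨-, hξ1⟩ := hdy0 rfl
    rw [if_neg (by norm_num)] at h1
    rw [if_pos rfl] at h5
    subst h1 h5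
    rw [pow_zero, one_mul] at hd
    rw [pow_zero, mul_one] at hξ
    have hm3' : m3 = 0 ∨ m3 = 1 := by omega
    rcases hm3' with rfl | rfl
    · rw [pow_zero] at hd
      rcases hη with rfl | rfl
      · exact ⟨rfl, rfl, rfl, rfl, rfl, rfl⟩
      · exfalso
        omega
    · exfalso
      rcases hη with rfl | rfl <;> omega
  · -- `c = 0`, `δ = 1`
    exfalso
    have hn := h3 rfl
    have h6 : n5 % 2 = 0 := by
      by_contra hcon
      have := h5' hn (by omega)
      omega
    rw [if_neg (by norm_num)] at h5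
    subst h5
    have hm30 : m3 = 0 := by omega
    subst hm30
    rw [pow_zero, mul_one] at hd
    rw [pow_zero, mul_one] at hξ
    have h8 := hdy1 rfl
    have h9 := five_pow_mod m5
    rw [Nat.even_iff, Nat.odd_iff] at h9
    rcases hη with rfl | rfl <;> omega
  · -- `c = 1`, `δ = 0`
    right
    refine ⟨rfl, ?_⟩
    obtain ⟨hx1, hξ1⟩ := hdy0 rfl
    rw [if_pos rfl] at h1
    rw [if_neg (by norm_num)] at h5
    subst h1 h5 hx1
    have hsym := hsym1 rfl
    rw [pow_one] at hξ
    have h9 := five_pow_mod m5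
    rw [Nat.even_iff, Nat.odd_iff] at h9
    have hm30 : m3 = 0 ∨ m3 = 1 := by omega
    rcases Nat.eq_zero_or_pos n3 with hn3 | hn3
    · exfalso
      have h6 : m5 % 2 = 0 := by
        by_contra hcon
        have := h5' hn3 (by omega)
        omega
      have hm : m3 = 0 := by omega
      subst hm
      rw [pow_zero, mul_one] at hd
      rcases hη with rfl | rfl <;> omega
    · unfold base0
      rw [if_neg (by omega)]
      have e1 : n7 + (n3 - 1) + 1 = n3 + n7 := by omega
      rw [e1]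
      have key : (-1 : ℤ) ^ (m3 + (n3 + n7)) * η * τ = 1 := by
        have e2 : m1 + m5 + m3 + (m1 + m5 + n3 + n7) = (m1 + m5) + (m1 + m5) + (m3 + (n3 + n7)) := by
          ring
        rw [e2, pow_add, pow_add, hpp, one_mul, mul_one] at hsym
        exact hsym
      rw [pow_add] at key
      rcases hm30 with rfl | rfl
      · have hη1 : η = 1 := by
          rw [pow_zero, mul_one] at hd
          rcases hη with rfl | rfl
          · rfl
          · exfalso
            omega
        rw [hη1, pow_zero, one_mul, mul_one] at key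
        linear_combination (-1 : ℤ) ^ (n3 + n7) * key - τ * hpp (n3 + n7)
      · have hη1 : η = -1 := by
          rcases hη with rfl | rfl
          · exfalso
            omega
          · rfl
        rw [hη1, pow_one] at key
        linear_combination (-1 : ℤ) ^ (n3 + n7) * key - τ * hpp (n3 + n7)
  · -- `c = 1`, `δ = 1`
    right
    refine ⟨rfl, ?_⟩
    have hn := h3 rfl
    rw [if_pos rfl] at h1 h5
    have hm3' : m3 = 0 := by omega
    subst h1 h5 hm3'
    rw [pow_zero, pow_zero, mul_one] at hd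
    rw [pow_one] at hξ
    have hsym := hsym1 rfl
    obtain ⟨hx1, hx2⟩ := hx rfl
    subst hn
    unfold base0
    rw [if_pos rfl]
    have hηx : η * x₁ = -1 := by
      rcases hdy1 rfl with ⟨h11, h12⟩ | ⟨h11, h12⟩
      · rw [hx1 h12]
        rcases hη with rfl | rfl
        · omega
        · norm_num
      · rw [hx2 h12]
        rcases hη with rfl | rfl
        · norm_num
        · omega
    have e2 : m1 + 0 + 0 + (m1 + n5 + 0 + n7) = m1 + m1 + (n5 + n7) := by ring
    rw [e2, pow_add, pow_add, hpp, one_mul] at hsym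
    have key : (-1 : ℤ) ^ (n5 + n7) * τ = -1 := by
      linear_combination (-1 : ℤ) * hsym + (-1 : ℤ) ^ (n5 + n7) * τ * hηx
    have e3 : (-1 : ℤ) ^ (n7 + n5 % 2 + 1) = -(-1) ^ (n5 + n7) := by
      rw [pow_succ, pow_add, pow_add]
      have e4 : (-1 : ℤ) ^ (n5 % 2) = (-1) ^ n5 := by
        conv_rhs => rw [← Nat.div_add_mod n5 2, pow_add, pow_mul]
        norm_num
      rw [e4]
      ring
    rw [e3]
    linear_combination (-1 : ℤ) ^ (n5 + n7) * key - τ * hpp (n5 + n7)

end Pool.Agent.Lib.MP_7c08ba_nt
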