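import Mathlib
import Pool.Agent.Lib.MP_7c08ba_nt.Tw.Symb

set_option autoImplicit false

/-!
The arithmetic of the twisted problem.
-/

namespace Pool.Agent.Lib.MP_7c08ba_nt

set_option linter.unusedSectionVars false

open NumberField IsDedekindDomain Module

/-- Inert primes are odd. -/
lemma InertSet.odd {q : ℕ} {rs : Finset ℕ} (h : InertSet q rs) {r : ℕ} (hr : r ∈ rs) :
    r % 2 = 1 := by
  obtain ⟨h1, h2, h3⟩ := h r hr
  exact Nat.odd_iff.mp (h1.eq_two_or_odd'.resolve_left h2)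

/-- The basic bound. -/
def base (rs : Finset ℕ) : ℕ :=
  base0 (rs.filter (fun r => r % 8 = 3)).card (rs.filter (fun r => r % 8 = 5)).card
    (rs.filter (fun r => r % 8 = 7)).card

section

variable {F : Type*} [Field F] [NumberField F] {q : ℕ} (hq0 : 0 < q)
  (hF : finrank ℚ F = 2) {s : F} (hs : s ^ 2 = -(q : F)) (hq : q.Prime)

include hq0 hF hs in
lemma norm_rat (a : ℚ) : Algebra.norm ℚ (a : F) = a ^ 2 := by
  have h := (norm_trace hq0 hF hs a 0).1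
  have h1 : ((a : ℚ) : F) + ((0 : ℚ) : F) * s = a := by push_cast; ring
  rw [h1] at h
  rw [h]
  ring

include hq0 hF hs in
lemma norm_s : Algebra.norm ℚ s = q := by
  have h := (norm_trace hq0 hF hs 0 1).1
  have h1 : ((0 : ℚ) : F) + ((1 : ℚ) : F) * s = s := by push_cast; ring
  rw [h1] at h
  rw [h]
  ring

include hq0 hF hs in
/-- The norm of a decomposed element. -/
lemma norm_decomp {d : ℕ} {c e : ℕ} {η x y : ℤ} {β : F} (hη : η = 1 ∨ η = -1) {δ : ℕ} {z : ℚ}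
    (hz : (x : ℚ) ^ 2 + q * (y : ℚ) ^ 2 = z ^ 2 * 2 ^ δ) :
    Algebra.norm ℚ ((d : F) * s ^ c * η * 2 ^ e * (x + y * s) * β ^ 2) =
      (d * 2 ^ e * z * Algebra.norm ℚ β) ^ 2 * (q ^ c * 2 ^ δ) := by
  have h1 : (d : F) = ((d : ℚ) : F) := by push_cast; rfl
  have h2 : (η : F) = ((η : ℚ) : F) := by push_cast; rfl
  have h3 : (2 : F) = ((2 : ℚ) : F) := by push_cast; rfl
  have h4 : ((x : F) + y * s) = ((x : ℚ) : F) + ((y : ℚ) : F) * s := by push_cast; rfl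
  rw [h1, h2, h4]
  conv_lhs => rw [h3]
  rw [map_mul, map_mul, map_mul, map_mul, map_mul, map_pow, map_pow, map_pow,
    norm_rat hq0 hF hs, norm_rat hq0 hF hs, norm_rat hq0 hF hs, norm_s hq0 hF hs,
    (norm_trace hq0 hF hs _ _).1, hz]
  have h5 : (η : ℚ) ^ 2 = 1 := by
    rcases hη with rfl | rfl <;> norm_num
  have h6 : ((2 : ℚ) ^ 2) ^ e = (2 ^ e) ^ 2 := by rw [← pow_mul, ← pow_mul, mul_comm]
  rw [h6]
  linear_combination ((d : ℚ) ^ 2 * q ^ c * (2 ^ e) ^ 2 * (z ^ 2 * 2 ^ δ) *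
    (Algebra.norm ℚ β) ^ 2) * h5

include hq0 hF hs hq in
/-- The symbol condition at the ramified prime. -/
lemma symbol_at_s (h16 : q % 16 = 7) {v : HeightOneSpectrum (𝓞 F)} (hv : sI hs ∈ v.asIdeal)
    {d : ℕ} {e : ℕ} {η x y : ℤ} {β : F} (hβ : β ≠ 0)
    (hd : ¬ (q : ℤ) ∣ (d : ℤ) * η * x)
    (h : LocSq v ((d : F) * η * 2 ^ e * (x + y * s) * β ^ 2)) :
    jacobiSym ((d : ℤ) * η * x) q = 1 := by
  have : Fact q.Prime := ⟨hq⟩
  have hq2 : q ≠ 2 := by rintro rfl; omega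
  have hqp := Nat.prime_iff_prime_int.mp hq
  set κ : 𝓞 F := (d : 𝓞 F) * η * 2 ^ e * (x + y * sI hs) with hκ
  have h1 : ((κ : 𝓞 F) : F) = (d : F) * η * 2 ^ e * (x + y * s) := by
    rw [hκ]
    simp only [map_mul, map_add, map_natCast, map_intCast, map_pow, map_ofNat, algebraMap_sI]
  rw [← h1] at h
  have h2 : κ - ((d * η * 2 ^ e * x : ℤ) : 𝓞 F) ∈ Ideal.span {sI hs} := by
    rw [Ideal.mem_span_singleton]
    refine ⟨(d : 𝓞 F) * η * 2 ^ e * y, ?_⟩
    rw [hκ]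
    push_cast
    ring
  have h2q : ¬ (q : ℤ) ∣ 2 := by
    intro h2
    have : q ∣ 2 := by exact_mod_cast h2
    exact hq2 ((Nat.prime_dvd_prime_iff_eq hq Nat.prime_two).mp this)
  have h3 : ¬ (q : ℤ) ∣ (d * η * 2 ^ e * x : ℤ) := by
    intro h4
    have h5 : (d * η * 2 ^ e * x : ℤ) = (d * η * x) * 2 ^ e := by ring
    rw [h5] at h4
    rcases hqp.dvd_or_dvd h4 with h6 | h6
    · exact hd h6
    · exact h2q (hqp.dvd_of_dvd_pow h6)
  have h4 : κ ∉ Ideal.span {sI hs} := by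
    intro h5
    apply h3
    apply dvd_of_int_mem hq0 hF hs hq
    have := Ideal.sub_mem _ h5 h2
    simpa using this
  have h5 := LocSq.isSquare_res hq0 hF hs hq hq2 hv hβ h h2 h4
  have h6 : ((d * η * 2 ^ e * x : ℤ) : ZMod q) ≠ 0 := fun h7 =>
    h3 ((ZMod.intCast_zmod_eq_zero_iff_dvd _ _).mp h7)
  have h7 := (legendreSym.eq_one_iff q h6).mpr h5
  rw [jacobiSym.legendreSym.to_jacobiSym] at h7
  have h8 : (d * η * 2 ^ e * x : ℤ) = (d * η * x) * 2 ^ e := by ring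
  have h9 : jacobiSym 2 q = 1 := by
    rw [jacobiSym.at_two (Nat.odd_iff.mpr (by omega)), ZMod.χ₈_nat_eq_if_mod_eight,
      if_neg (by omega), if_pos (by omega)]
  rw [h8, jacobiSym.mul_left, jacobiSym.pow_left, h9, one_pow, mul_one] at h7
  exact h7

/-- The twisting element `±2^a·√-q·∏r`. -/
noncomputable def twEl (τ : ℤ) (a : ℕ) (s : F) (rs : Finset ℕ) : F :=
  (τ : F) * 2 ^ a * s * ((∏ r ∈ rs, r : ℕ) : F)

lemma val_two_pow {v : HeightOneSpectrum (𝓞 F)} (h2 : (2 : 𝓞 F) ∉ v.asIdeal) (a : ℕ) :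
    v.valuation F ((2 : F) ^ a) = 1 := by
  have h : v.valuation F ((2 : ℕ) : F) = 1 :=
    val_natCast_eq_one (by rw [Nat.cast_ofNat]; exact h2)
  rw [Nat.cast_ofNat] at h
  rw [map_pow, h, one_pow]

include hq0 hs in
lemma s_ne_zero : s ≠ 0 := by
  rintro rfl
  rw [zero_pow two_ne_zero, eq_comm, neg_eq_zero] at hs
  exact hq0.ne' (by exact_mod_cast hs)

lemma prod_ne_zero' {rs : Finset ℕ} (h : ∀ r ∈ rs, r.Prime) : ((∏ r ∈ rs, r : ℕ) : F) ≠ 0 := by
  have : (∏ r ∈ rs, r) ≠ 0 := Finset.prod_ne_zero_iff.mpr fun r hr => (h r hr).ne_zero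
  exact_mod_cast this

lemma val_pm_one (v : HeightOneSpectrum (𝓞 F)) {τ : ℤ} (hτ : τ = 1 ∨ τ = -1) :
    v.valuation F (τ : F) = 1 := by
  rcases hτ with rfl | rfl
  · simp
  · push_cast
    rw [Valuation.map_neg, map_one]

include hq0 hF hs hq in
/-- The twisting element has odd valuation at `√-q`. -/
lemma val_twEl_s {rs : Finset ℕ} (hrs : InertSet q rs) {τ : ℤ} (hτ : τ = 1 ∨ τ = -1)
    {a : ℕ} {v : HeightOneSpectrum (𝓞 F)} (hv : sI hs ∈ v.asIdeal) (h2v : (2 : 𝓞 F) ∉ v.asIdeal) :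
    ¬ IsSquare (v.valuation F (twEl τ a s rs)) := by
  rw [twEl, map_mul, map_mul, map_mul, val_pm_one v hτ, one_mul, val_two_pow h2v, one_mul,
    val_prod_eq_one (fun r hr => r_notMem_of_sI hs hq hrs hv hr), mul_one]
  exact val_s_not_isSquare hq0 hF hs hq hv

include hq0 hF hs hq in
/-- The twisting element has odd valuation at the primes of `rs`. -/
lemma val_twEl_r {rs : Finset ℕ} (hrs : InertSet q rs) {τ : ℤ} (hτ : τ = 1 ∨ τ = -1)
    {a : ℕ} {r : ℕ} (hr : r ∈ rs) {v : HeightOneSpectrum (𝓞 F)} (hv : (r : 𝓞 F) ∈ v.asIdeal)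
    (h2v : (2 : 𝓞 F) ∉ v.asIdeal) : ¬ IsSquare (v.valuation F (twEl τ a s rs)) := by
  obtain ⟨h1, h2, h3⟩ := hrs r hr
  have h4 : v.valuation F s = 1 := v.valuation_eq_one_iff_notMem (K := F) |>.mpr
    (sI_notMem_of_r hs hq hrs hr hv)
  rw [twEl, map_mul, map_mul, map_mul, val_pm_one v hτ, one_mul, val_two_pow h2v, one_mul, h4,
    one_mul, (val_prod_eq (fun r hr => (hrs r hr).1) h1 hv).1 hr]
  refine not_isSquare_valuation hq0 hF hs hq h1 h2 ?_ v hv
  rintro rfl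
  exact sI_notMem_of_r hs hq hrs hr hv (v.isPrime.mem_of_pow_mem 2 (by
    rw [sI_sq hs]; exact v.asIdeal.neg_mem hv))

/-- If `v(w)` is odd, then `v(u)` even forces `u` to be the local square. -/
lemma locSq_of_even {v : HeightOneSpectrum (𝓞 F)} {u w : F}
    (hw : ¬ IsSquare (v.valuation F w)) (hu0 : u ≠ 0)
    (h : LocSq v u ∨ LocSq v (u * w)) (hu : IsSquare (v.valuation F u)) : LocSq v u := by
  rcases h with h | h
  · exact h
  · exfalso
    have h1 := h.isSquare_val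
    rw [map_mul] at h1
    exact not_isSquare_mul hu ((Valuation.ne_zero_iff _).mpr hu0) hw h1

/-- If `v(u)` is odd, then `uw` is the local square. -/
lemma locSq_of_odd {v : HeightOneSpectrum (𝓞 F)} {u w : F}
    (h : LocSq v u ∨ LocSq v (u * w)) (hu : ¬ IsSquare (v.valuation F u)) : LocSq v (u * w) := by
  rcases h with h | h
  · exact absurd h.isSquare_val hu
  · exact h

omit [NumberField F] in
lemma two_notMem_of_odd {v : HeightOneSpectrum (𝓞 F)} {n : ℕ} (hn : (n : 𝓞 F) ∈ v.asIdeal)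
    (ho : n % 2 = 1) : (2 : 𝓞 F) ∉ v.asIdeal := by
  intro h
  obtain ⟨k, hk⟩ : ∃ k, n = 2 * k + 1 := ⟨n / 2, by omega⟩
  have h1 : (1 : 𝓞 F) = (n : 𝓞 F) - 2 * k := by
    rw [hk]
    push_cast
    ring
  have h3 : (1 : 𝓞 F) ∈ v.asIdeal := by
    rw [h1]
    exact v.asIdeal.sub_mem hn (v.asIdeal.mul_mem_right _ h)
  exact v.isPrime.ne_top ((Ideal.eq_top_iff_one _).mpr h3)

include hq0 hF hs hq in
/-- The arithmetic of the twisted problem. -/
theorem twist_arith (h16 : q % 16 = 7) {rs : Finset ℕ} (hrs : InertSet q rs) {τ : ℤ}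
    (hτ : τ = 1 ∨ τ = -1) {a : ℕ} (J : F →+* ℚ_[2]) {σ : ℤ_[2]} (hJ : J s = σ)
    (hσ : PadicInt.toZModPow 3 σ = 5) {u : F} (hu0 : u ≠ 0)
    (hev : ∀ v : HeightOneSpectrum (𝓞 F), (2 : 𝓞 F) ∉ v.asIdeal → sI hs ∉ v.asIdeal →
      (∀ r ∈ rs, (r : 𝓞 F) ∉ v.asIdeal) → IsSquare (v.valuation F u))
    (hS : ∀ v : HeightOneSpectrum (𝓞 F), sI hs ∈ v.asIdeal →
      LocSq v u ∨ LocSq v (u * twEl τ a s rs))
    (hR : ∀ r ∈ rs, ∀ v : HeightOneSpectrum (𝓞 F), (r : 𝓞 F) ∈ v.asIdeal →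
      LocSq v u ∨ LocSq v (u * twEl τ a s rs))
    (h2 : IsSquare (J u))
    (ht7 : ∀ r ∈ rs, r % 8 = 7 → ∀ v : HeightOneSpectrum (𝓞 F), (r : 𝓞 F) ∈ v.asIdeal →
      IsSquare (v.valuation F u))
    (ht3 : ∃ r₀, ∀ r ∈ rs, r % 8 = 3 → r ≠ r₀ → ∀ v : HeightOneSpectrum (𝓞 F),
      (r : 𝓞 F) ∈ v.asIdeal → IsSquare (v.valuation F u))
    (ht5 : (rs.filter (fun r => r % 8 = 3)).card = 0 →
      (rs.filter (fun r => r % 8 = 5)).card % 2 = 1 → ∃ r ∈ rs, r % 8 = 5 ∧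
      ∀ v : HeightOneSpectrum (𝓞 F), (r : 𝓞 F) ∈ v.asIdeal → IsSquare (v.valuation F u)) :
    IsSquare u ∨ (τ = (-1) ^ (base rs + 1) ∧
      ∀ v : HeightOneSpectrum (𝓞 F), sI hs ∈ v.asIdeal → ¬ IsSquare (v.valuation F u)) := by
  classical
  have hqp := Nat.prime_iff_prime_int.mp hq
  have hq2 : q ≠ 2 := by rintro rfl; omega
  obtain ⟨I, c, η, e, x, y, β, hI, hc, hη, he, hβ, hxy, hu, hcs, hIr⟩ :=
    twist_decomp hq0 hF hs hq hrs hu0 hev
  obtain ⟨δ, z, hδ, hz, hx0, hx1⟩ : ∃ (δ : ℕ) (z : ℚ), δ ≤ 1 ∧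
      (x : ℚ) ^ 2 + q * (y : ℚ) ^ 2 = z ^ 2 * 2 ^ δ ∧ (δ = 0 → x = 1 ∧ y = 0) ∧
      (δ = 1 → IsCoprime x y ∧ ∃ z : ℤ, x ^ 2 + q * y ^ 2 = 2 * z ^ 2) := by
    rcases hxy with ⟨hx, hy⟩ | ⟨hxy, z, hz⟩
    · exact ⟨0, 1, by norm_num, by rw [hx, hy]; norm_num, fun _ => ⟨hx, hy⟩,
        fun h => absurd h (by norm_num)⟩
    · refine ⟨1, z, le_rfl, ?_, fun h => absurd h (by norm_num), fun _ => ⟨hxy, z, hz⟩⟩
      have : ((x ^ 2 + q * y ^ 2 : ℤ) : ℚ) = ((2 * z ^ 2 : ℤ) : ℚ) := by rw [hz]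
      push_cast at this
      rw [this]
      ring
  set d : ℕ := ∏ r ∈ I, r with hd
  set R : ℕ := ∏ r ∈ rs, r with hR'
  have hwdef : twEl τ a s rs = (τ : F) * 2 ^ a * s * (R : F) := rfl
  have hs0 : s ≠ 0 := s_ne_zero hq0 hs
  have hprime : ∀ r ∈ rs, ∃ v : HeightOneSpectrum (𝓞 F), (r : 𝓞 F) ∈ v.asIdeal := by
    intro r hr
    obtain ⟨h1, h3, h4⟩ := hrs r hr
    have hr0 : (r : 𝓞 F) ≠ 0 := by exact_mod_cast h1.ne_zero
    exact ⟨⟨Ideal.span {(r : 𝓞 F)}, spanR_isPrime hq0 hF hs hq h1 h3 h4, by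
        rw [Ne, Ideal.span_singleton_eq_bot]; exact hr0⟩, Ideal.mem_span_singleton_self _⟩
  have hnotI : ∀ r ∈ rs, (∀ v : HeightOneSpectrum (𝓞 F), (r : 𝓞 F) ∈ v.asIdeal →
      IsSquare (v.valuation F u)) → r ∉ I := by
    intro r hr h
    obtain ⟨v, hv⟩ := hprime r hr
    exact (hIr r hr v hv).mpr (h v hv)
  have hmR : ∀ r ∈ rs, r % 2 = 1 := fun r hr => hrs.odd hr
  have hmI' : ∀ r ∈ I, r % 2 = 1 := fun r hr => hrs.odd (hI hr)
  have hmI : ∀ r ∈ I, r % 8 = 1 ∨ r % 8 = 3 ∨ r % 8 = 5 := by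
    intro r hr
    have h1 := hmI' r hr
    have h3 : r % 8 ≠ 7 := fun h => hnotI r (hI hr) (ht7 r (hI hr) h) hr
    omega
  have hjac : ∀ r ∈ rs, jacobiSym (r : ℤ) q = -1 := fun r hr =>
    jacobi_inert hq (by omega) (hrs r hr).1 (hrs r hr).2.1 (hrs r hr).2.2
  have hjd : jacobiSym (d : ℤ) q = (-1) ^ I.card := jacobi_prod I fun r hr => hjac r (hI hr)
  have hjR : jacobiSym (R : ℤ) q = (-1) ^ rs.card := jacobi_prod rs hjac
  have hjη : ∀ η : ℤ, (η = 1 ∨ η = -1) → jacobiSym η q = η := by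
    intro η hη
    rcases hη with rfl | rfl
    · exact jacobiSym.one_left q
    · rw [jacobiSym.at_neg_one (Nat.odd_iff.mpr (by omega)), ZMod.χ₄_nat_eq_if_mod_four,
        if_neg (by omega), if_neg (by omega)]
  -- the symbol of `x`
  have hjx : (δ = 0 → jacobiSym x q = 1) ∧ (δ = 1 → ((x % 8 = 1 ∨ x % 8 = 3) → jacobiSym x q = 1) ∧
      ((x % 8 = 5 ∨ x % 8 = 7) → jacobiSym x q = -1)) := by
    constructor
    · intro h
      rw [(hx0 h).1]
      exact jacobiSym.one_left q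
    · intro h
      obtain ⟨h1, z', h2⟩ := hx1 h
      exact jacobi_x hq h16 h1 h2
  have hjx0 : jacobiSym x q ≠ 0 := by
    rcases (by omega : δ = 0 ∨ δ = 1) with h | h
    · rw [hjx.1 h]; norm_num
    · obtain ⟨h1, z', h3⟩ := hx1 h
      have h4 := (int_part h16 h1 h3).1
      rcases (by omega : (x % 8 = 1 ∨ x % 8 = 3) ∨ (x % 8 = 5 ∨ x % 8 = 7)) with h5 | h5
      · rw [(hjx.2 h).1 h5]; norm_num
      · rw [(hjx.2 h).2 h5]; norm_num
  have hnd : ∀ a : ℤ, jacobiSym a q ≠ 0 → ¬ (q : ℤ) ∣ a := by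
    intro a ha hqa
    apply ha
    have : Fact q.Prime := ⟨hq⟩
    rw [← jacobiSym.legendreSym.to_jacobiSym, legendreSym.eq_zero_iff]
    exact (ZMod.intCast_zmod_eq_zero_iff_dvd a q).mpr hqa
  -- the conditions at the inert primes
  have hcond : ∀ r ∈ rs, (r % 8 = 1 → (r ∈ I ↔ c = 1)) ∧ (r % 8 = 5 → (r ∈ I ↔ c ≠ δ)) ∧
      (r % 8 = 3 → δ = 0) := by
    intro r hr
    obtain ⟨h1, h3, h4⟩ := hrs r hr
    obtain ⟨v, hv⟩ := hprime r hr
    have h2v := two_notMem_of_odd hv (hrs.odd hr)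
    have hrp := Nat.prime_iff_prime_int.mp h1
    have hr2 : ¬ (r : ℤ) ∣ 2 := by
      intro h2
      have : r ∣ 2 := by exact_mod_cast h2
      exact h3 ((Nat.prime_dvd_prime_iff_eq h1 Nat.prime_two).mp this)
    have hrq : ¬ (r : ℤ) ∣ q := by
      intro h2
      have h5 : r ∣ q := by exact_mod_cast h2
      have h6 := (Nat.prime_dvd_prime_iff_eq h1 hq).mp h5
      apply h4
      refine ⟨0, ?_⟩
      rw [← h6]
      push_cast
      simp
    have hE : ∀ k : ℕ, ¬ (r : ℤ) ∣ (q : ℤ) ^ k * 2 ^ δ := by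
      intro k h2
      rcases hrp.dvd_or_dvd h2 with h5 | h5
      · exact hrq (hrp.dvd_of_dvd_pow h5)
      · exact hr2 (hrp.dvd_of_dvd_pow h5)
    have hNu : Algebra.norm ℚ u = (d * 2 ^ e * z * Algebra.norm ℚ β) ^ 2 *
        (((q : ℤ) ^ c * 2 ^ δ : ℤ) : ℚ) := by
      rw [hu, norm_decomp hq0 hF hs hη hz]
      push_cast
      ring
    by_cases hrI : r ∈ I
    · have h5 : ¬ IsSquare (v.valuation F u) := fun h => (hIr r hr v hv).mpr h hrI
      have h6 := locSq_of_odd (hR r hr v hv) h5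
      have h7 : Algebra.norm ℚ (u * twEl τ a s rs) =
          (d * 2 ^ e * z * Algebra.norm ℚ β * (R * 2 ^ a)) ^ 2 *
            (((q : ℤ) ^ (c + 1) * 2 ^ δ : ℤ) : ℚ) := by
        have h8 : twEl τ a s rs = (R : F) * s ^ 1 * τ * 2 ^ a *
            (((1 : ℤ) : F) + ((0 : ℤ) : F) * s) * (1 : F) ^ 2 := by
          rw [hwdef]
          push_cast
          ring
        rw [map_mul, hNu, h8, norm_decomp hq0 hF hs hτ (δ := 0) (z := 1) (by norm_num), map_one]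
        push_cast
        ring
      have h9 := inert_cond h1 h3 h4 (LocSq.isSquare_norm hq0 hF hs hq h1 h3 h4 hv h6 h7 (hE _))
      refine ⟨fun h => ?_, fun h => ?_, fun h => ?_⟩
      · have := h9.1 h
        rw [Nat.even_iff] at this
        exact ⟨fun _ => by omega, fun _ => hrI⟩
      · have := h9.2.1 h
        rw [Nat.even_iff] at this
        exact ⟨fun _ => by omega, fun _ => hrI⟩
      · have := h9.2.2 h
        rw [Nat.even_iff] at this
        omega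
    · have h5 : IsSquare (v.valuation F u) := (hIr r hr v hv).mp hrI
      have h6 := locSq_of_even (val_twEl_r hq0 hF hs hq hrs hτ hr hv h2v) hu0 (hR r hr v hv) h5
      have h9 := inert_cond h1 h3 h4 (LocSq.isSquare_norm hq0 hF hs hq h1 h3 h4 hv h6 hNu (hE _))
      refine ⟨fun h => ?_, fun h => ?_, fun h => ?_⟩
      · have := h9.1 h
        rw [Nat.even_iff] at this
        exact ⟨fun h => absurd h hrI, fun _ => by omega⟩
      · have := h9.2.1 h
        rw [Nat.even_iff] at this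
        exact ⟨fun h => absurd h hrI, fun _ => by omega⟩
      · have := h9.2.2 h
        rw [Nat.even_iff] at this
        omega
  -- counting
  have hm1 : (I.filter (fun r => r % 8 = 1)).card =
      if c = 1 then (rs.filter (fun r => r % 8 = 1)).card else 0 := by
    split_ifs with h
    · congr 1
      ext r
      simp only [Finset.mem_filter]
      exact ⟨fun h1 => ⟨hI h1.1, h1.2⟩, fun h1 => ⟨((hcond r h1.1).1 h1.2).mpr h, h1.2⟩⟩
    · rw [Finset.card_eq_zero, Finset.filter_eq_empty_iff]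
      exact fun r hr h1 => h (((hcond r (hI hr)).1 h1).mp hr)
  have hm5 : (I.filter (fun r => r % 8 = 5)).card =
      if c = δ then 0 else (rs.filter (fun r => r % 8 = 5)).card := by
    split_ifs with h
    · rw [Finset.card_eq_zero, Finset.filter_eq_empty_iff]
      exact fun r hr h1 => (((hcond r (hI hr)).2.1 h1).mp hr) h
    · congr 1
      ext r
      simp only [Finset.mem_filter]
      exact ⟨fun h1 => ⟨hI h1.1, h1.2⟩, fun h1 => ⟨((hcond r h1.1).2.1 h1.2).mpr h, h1.2⟩⟩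
  have hm3 : (I.filter (fun r => r % 8 = 3)).card ≤ (rs.filter (fun r => r % 8 = 3)).card :=
    Finset.card_le_card (Finset.filter_subset_filter _ hI)
  have hm3' : (I.filter (fun r => r % 8 = 3)).card ≤ 1 := by
    obtain ⟨r₀, hr₀⟩ := ht3
    rw [Finset.card_le_one]
    intro r hr r' hr'
    rw [Finset.mem_filter] at hr hr'
    have key : ∀ r ∈ I, r % 8 = 3 → r = r₀ := by
      intro r hr h
      by_contra hcon
      exact hnotI r (hI hr) (hr₀ r (hI hr) h hcon) hr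
    rw [key r hr.1 hr.2, key r' hr'.1 hr'.2]
  have hm7 : (I.filter (fun r => r % 8 = 7)).card = 0 := by
    rw [Finset.card_eq_zero, Finset.filter_eq_empty_iff]
    intro r hr h
    exact hnotI r (hI hr) (ht7 r (hI hr) h) hr
  have h5' : (rs.filter (fun r => r % 8 = 3)).card = 0 →
      (rs.filter (fun r => r % 8 = 5)).card % 2 = 1 → c = δ := by
    intro h h'
    obtain ⟨r, hr, h8, h9⟩ := ht5 h h'
    by_contra hcon
    exact hnotI r hr h9 (((hcond r hr).2.1 h8).mpr hcon)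
  have hn3 : δ = 1 → (rs.filter (fun r => r % 8 = 3)).card = 0 := by
    intro h
    rw [Finset.card_eq_zero, Finset.filter_eq_empty_iff]
    intro r hr h1
    have := (hcond r hr).2.2 h1
    omega
  -- the ramified prime
  obtain ⟨v, hv⟩ : ∃ v : HeightOneSpectrum (𝓞 F), sI hs ∈ v.asIdeal :=
    ⟨⟨Ideal.span {sI hs}, spanS_isPrime hq0 hF hs hq, by
      rw [Ne, Ideal.span_singleton_eq_bot]; exact sI_ne_zero hq0 hs⟩,
      Ideal.mem_span_singleton_self _⟩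
  have hsym1 : c = 1 → (-1) ^ ((I.filter (fun r => r % 8 = 1)).card +
      (I.filter (fun r => r % 8 = 5)).card + (I.filter (fun r => r % 8 = 3)).card +
      ((rs.filter (fun r => r % 8 = 1)).card + (rs.filter (fun r => r % 8 = 5)).card +
      (rs.filter (fun r => r % 8 = 3)).card + (rs.filter (fun r => r % 8 = 7)).card)) * η * τ *
      jacobiSym x q = 1 := by
    intro h
    have h0 : ¬ IsSquare (v.valuation F u) := fun h' => by
      have := (hcs v hv).mpr h'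
      omega
    have h1 := locSq_of_odd (hS v hv) h0
    have h3 : u * twEl τ a s rs = ((d * R : ℕ) : F) * ((η * τ : ℤ) : F) * 2 ^ (e + a) *
        (x + y * s) * (s * β) ^ 2 := by
      rw [hu, hwdef, h, pow_add]
      push_cast
      ring
    rw [h3] at h1
    have hητ : η * τ = 1 ∨ η * τ = -1 := by
      rcases hη with rfl | rfl <;> rcases hτ with rfl | rfl <;> norm_num
    have h4 : jacobiSym (((d * R : ℕ) : ℤ) * (η * τ) * x) q =
        (-1) ^ (I.card + rs.card) * (η * τ) * jacobiSym x q := by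
      rw [jacobiSym.mul_left, jacobiSym.mul_left, Nat.cast_mul, jacobiSym.mul_left, hjd, hjR,
        hjη _ hητ, ← pow_add]
    have h5 := symbol_at_s hq0 hF hs hq h16 hv (mul_ne_zero hs0 hβ) (d := d * R) (η := η * τ)
      (x := x) (hnd _ (by
        rw [h4]
        refine mul_ne_zero (mul_ne_zero (pow_ne_zero _ (by norm_num)) ?_) hjx0
        rcases hητ with h | h <;> rw [h] <;> norm_num)) h1
    rw [h4, card_split I hmI', card_split rs hmR, hm7, add_zero] at h5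
    linear_combination h5
  -- the dyadic place
  set ξ : ℤ_[2] := (d : ℤ_[2]) * η * σ ^ c with hξ
  have hξ0 : PadicInt.toZModPow 3 ξ = (((d : ℤ) * η * 5 ^ c : ℤ) : ZMod (2 ^ 3)) := by
    rw [hξ, map_mul, map_mul, map_pow, hσ, map_natCast, map_intCast]
    push_cast
    rfl
  have hd2 : d % 2 = 1 := by
    rw [hd, ← Nat.odd_iff]
    refine Finset.prod_induction (fun r => r) Odd (fun a b ha hb => ha.mul hb) odd_one ?_
    intro r hr
    rw [Nat.odd_iff]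
    exact hmI' r hr
  have hξodd : ¬ (2 : ℤ) ∣ ((d : ℤ) * η * 5 ^ c : ℤ) := by
    intro h
    have h2p : Prime (2 : ℤ) := Int.prime_two
    rcases h2p.dvd_or_dvd h with h3 | h3
    · rcases h2p.dvd_or_dvd h3 with h4 | h4
      · omega
      · rcases hη with rfl | rfl <;> omega
    · have := h2p.dvd_of_dvd_pow h3
      omega
  have hJu : J u = (ξ : ℚ_[2]) * 2 ^ e * (x + y * σ) * (J β) ^ 2 := by
    rw [hu, hξ]
    simp only [map_mul, map_add, map_pow, map_natCast, map_intCast, map_ofNat, hJ]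
    push_cast
    ring
  have hJβ : J β ≠ 0 := (map_ne_zero J).mpr hβ
  have hsqJ : IsSquare ((ξ : ℚ_[2]) * 2 ^ e * (x + y * σ)) := by
    rw [hJu] at h2
    exact isSquare_of_mul_sq hJβ h2
  have hdy0 : δ = 0 → jacobiSym x q = 1 ∧ ((d : ℤ) * η * 5 ^ c) % 8 = 1 := by
    intro h
    obtain ⟨h3, h4⟩ := hx0 h
    refine ⟨hjx.1 h, ?_⟩
    rw [h3, h4] at hsqJ
    push_cast at hsqJ
    rw [zero_mul, add_zero, mul_one] at hsqJ
    exact (dyadic_rat hξ0 hξodd he hsqJ).2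
  have hσ2 : σ ^ 2 = -(q : ℤ_[2]) := by
    apply PadicInt.ext
    push_cast
    rw [← hJ, ← map_pow, hs, map_neg, map_natCast]
  have hdy1 : δ = 1 → (((d : ℤ) * η * 5 ^ c) % 8 = 3 ∧ (x % 8 = 1 ∨ x % 8 = 3)) ∨
      (((d : ℤ) * η * 5 ^ c) % 8 = 5 ∧ (x % 8 = 5 ∨ x % 8 = 7)) := by
    intro h
    obtain ⟨h3, z', h4⟩ := hx1 h
    exact dyadic_two h16 h3 h4 hσ2 hξ0 hξodd he hsqJ
  have hfin := final_cases hm3 hm3' hc hδ hm1 hm5 h5' hn3 (prod_mod_eight I hmI)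
    hη hτ hsym1 rfl hdy0 hdy1 hjx.2
  rcases hfin with ⟨hc0, hδ0, h1, h5, h3, hη1⟩ | ⟨hc1, hτ1⟩
  · left
    have hcard : I.card = 0 := by rw [card_split I hmI', h1, h5, h3, hm7]
    rw [Finset.card_eq_zero] at hcard
    obtain ⟨hx, hy⟩ := hx0 hδ0
    rw [hx, hy] at hsqJ
    push_cast at hsqJ
    rw [zero_mul, add_zero, mul_one] at hsqJ
    have he0 := (dyadic_rat hξ0 hξodd he hsqJ).1
    refine ⟨β, ?_⟩
    rw [hu, hd, hcard, hc0, hη1, he0, hx, hy]
    push_cast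
    simp
    ring
  · right
    refine ⟨hτ1, fun v hv h => ?_⟩
    have := (hcs v hv).mpr h
    omega

end

end Pool.Agent.Lib.MP_7c08ba_nt
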