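import Mathlib
import Pool.Agent.Lib.MP_7c08ba_nt.Tw.TwArith

set_option autoImplicit false

/-!
Odd powers of ideals prime to `2` are principal.
-/

namespace Pool.Agent.Lib.MP_7c08ba_nt

set_option linter.unusedSectionVars false

open NumberField IsDedekindDomain Module

section

variable {F : Type*} [Field F] [NumberField F]

/-- Generators of squares of ideals have even valuations. -/
lemma isSquare_val_of_sq {I : Ideal (𝓞 F)} {a : 𝓞 F} (ha : a ≠ 0) (h : I ^ 2 = Ideal.span {a})
    (v : HeightOneSpectrum (𝓞 F)) : IsSquare (v.valuation F (a : F)) := by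
  have hI : Associates.mk I ≠ 0 := by
    rw [Ne, Associates.mk_eq_zero]
    rintro rfl
    rw [Ideal.zero_eq_bot, ← Ideal.zero_eq_bot, zero_pow two_ne_zero, eq_comm, Ideal.zero_eq_bot,
      Ideal.span_singleton_eq_bot] at h
    exact ha h
  rw [RingOfIntegers.coe_eq_algebraMap, v.valuation_of_algebraMap, v.intValuation_if_neg ha, ← h,
    Associates.mk_pow, Associates.count_pow hI v.associates_irreducible]
  refine ⟨WithZero.exp (-((Associates.mk v.asIdeal).count (Associates.mk I).factors : ℤ)), ?_⟩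
  rw [← WithZero.exp_add]
  congr 1
  push_cast
  ring

/-- Norms of dyadic numbers are powers of two. -/
lemma norm_sq_ne_two (x : ℚ_[2]) : ‖x‖ ^ 2 ≠ 2 := by
  intro h
  have hx : x ≠ 0 := by
    rintro rfl
    rw [norm_zero] at h
    norm_num at h
  rw [Padic.norm_eq_zpow_neg_valuation hx] at h
  have h1 : (2 : ℝ) ^ (-x.valuation * 2) = (2 : ℝ) ^ (1 : ℤ) := by
    rw [zpow_mul, zpow_one]
    exact_mod_cast h
  have h2 := zpow_right_injective₀ (a := (2 : ℝ)) (by norm_num) (by norm_num) h1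
  omega

end

section

variable {F : Type*} [Field F] [NumberField F] {q : ℕ} (hq0 : 0 < q)
  (hF : finrank ℚ F = 2) {s : F} (hs : s ^ 2 = -(q : F)) (hq : q.Prime)

include hq0 hF hs hq in
/-- If the square of an ideal is generated by an element which is a dyadic unit, then the ideal is
principal. -/
lemma isPrincipal_of_sq (J : F →+* ℚ_[2]) {I : Ideal (𝓞 F)} {a : 𝓞 F} (ha : a ≠ 0)
    (h : I ^ 2 = Ideal.span {a}) (hJ : ‖J a‖ = 1) : ∃ b : 𝓞 F, I = Ideal.span {b} := by
  have ha' : (a : F) ≠ 0 := by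
    rw [RingOfIntegers.coe_eq_algebraMap]
    exact (map_ne_zero_iff _ (RingOfIntegers.coe_injective)).mpr ha
  obtain ⟨η, e, x, y, β, hη, he, hβ, hxy, hu⟩ := even_class hq0 hF hs hq ha'
    (fun v _ => isSquare_val_of_sq ha h v)
  -- the norm of `a` is a rational square
  have hnorm : IsSquare (Algebra.norm ℚ (a : F)) := by
    have h1 : (Ideal.absNorm I) ^ 2 = (Algebra.norm ℤ a).natAbs := by
      rw [← map_pow, h, Ideal.absNorm_span_singleton]
    have h2 := Algebra.coe_norm_int a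
    have h3 : 0 ≤ Algebra.norm ℤ a := by
      obtain ⟨A, B, hAB⟩ := exists_int_coords hq0 hF hs hq a.isIntegral_coe
      have := four_norm hq0 hF hs hAB
      nlinarith [sq_nonneg A, mul_nonneg (Int.natCast_nonneg q) (sq_nonneg B)]
    have h4 : Algebra.norm ℤ a = ((Ideal.absNorm I : ℕ) : ℤ) ^ 2 := by
      rw [← Int.natAbs_of_nonneg h3, ← h1]
      push_cast
      rfl
    rw [← h2, h4]
    exact ⟨(Ideal.absNorm I : ℚ), by push_cast; ring⟩
  rcases hxy with ⟨hx, hy⟩ | ⟨hxy, z, hz⟩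
  · -- rational case
    rw [hx, hy] at hu
    push_cast at hu
    rw [zero_mul, add_zero, mul_one] at hu
    have he0 : e = 0 := by
      by_contra hcon
      have he1 : e = 1 := by omega
      rw [he1, pow_one] at hu
      have h1 : J a = η * 2 * (J β) ^ 2 := by
        rw [hu]
        simp only [map_mul, map_pow, map_intCast, map_ofNat]
      have h2 : ‖((η : ℤ) : ℚ_[2])‖ = 1 := by
        rcases hη with rfl | rfl <;> simp
      have h3 : ‖(2 : ℚ_[2])‖ = 2⁻¹ := by
        have := Padic.norm_p (p := 2)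
        exact_mod_cast this
      rw [h1, norm_mul, norm_mul, norm_pow, h2, h3] at hJ
      apply norm_sq_ne_two (J β)
      linarith
    rw [he0, pow_zero, mul_one] at hu
    have hβi : IsIntegral ℤ β := by
      apply IsIntegral.of_pow two_pos
      have h1 : β ^ 2 = ((η * a : 𝓞 F) : F) := by
        rw [RingOfIntegers.coe_eq_algebraMap, map_mul, map_intCast,
          ← RingOfIntegers.coe_eq_algebraMap, hu]
        rcases hη with rfl | rfl <;> push_cast <;> ring
      rw [h1]
      exact RingOfIntegers.isIntegral_coe _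
    obtain ⟨b, hb⟩ : ∃ b : 𝓞 F, (b : F) = β := ⟨⟨β, hβi⟩, rfl⟩
    have hab : a = η * b ^ 2 := by
      apply RingOfIntegers.ext
      have h6 : (((η : 𝓞 F) * b ^ 2 : 𝓞 F) : F) = η * β ^ 2 := by
        rw [RingOfIntegers.coe_eq_algebraMap, map_mul, map_pow, map_intCast,
          ← RingOfIntegers.coe_eq_algebraMap, hb]
      exact hu.trans h6.symm
    refine ⟨b, ?_⟩
    have h5 : I ^ 2 = (Ideal.span {b}) ^ 2 := by
      rw [h, Ideal.span_singleton_pow, Ideal.span_singleton_eq_span_singleton]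
      rcases hη with rfl | rfl
      · rw [hab]
        push_cast
        rw [one_mul]
      · rw [hab]
        push_cast
        rw [neg_one_mul]
        exact Associated.neg_left (Associated.refl _)
    apply le_antisymm
    · rw [← Ideal.dvd_iff_le, ← UniqueFactorizationMonoid.pow_dvd_pow_iff_dvd two_ne_zero, h5]
    · rw [← Ideal.dvd_iff_le, ← UniqueFactorizationMonoid.pow_dvd_pow_iff_dvd two_ne_zero, h5]
  · -- norm twice a square
    exfalso
    have hzQ : (x : ℚ) ^ 2 + q * (y : ℚ) ^ 2 = (z : ℚ) ^ 2 * 2 ^ 1 := by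
      have : ((x ^ 2 + q * y ^ 2 : ℤ) : ℚ) = ((2 * z ^ 2 : ℤ) : ℚ) := by rw [hz]
      push_cast at this
      rw [this]
      ring
    have h1 : (a : F) = ((1 : ℕ) : F) * s ^ 0 * η * 2 ^ e * (x + y * s) * β ^ 2 := by
      rw [hu]
      push_cast
      ring
    rw [h1, norm_decomp hq0 hF hs hη hzQ] at hnorm
    obtain ⟨m, hm⟩ := hnorm
    have hA0 : (((1 : ℕ) : ℚ) * 2 ^ e * z * Algebra.norm ℚ β) ≠ 0 := by
      have hz0 : (z : ℚ) ≠ 0 := by
        intro h0
        rw [h0] at hzQ
        have hq' : (0 : ℚ) < q := by exact_mod_cast hq0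
        have hy0 : (y : ℚ) ^ 2 = 0 := by nlinarith [sq_nonneg (x : ℚ), sq_nonneg (y : ℚ)]
        have hx0 : (x : ℚ) ^ 2 = 0 := by
          rw [hy0] at hzQ
          linarith
        have hy1 : y = 0 := by exact_mod_cast pow_eq_zero_iff two_ne_zero |>.mp hy0
        have hx1 : x = 0 := by exact_mod_cast pow_eq_zero_iff two_ne_zero |>.mp hx0
        rw [hx1, hy1] at hxy
        exact not_isCoprime_zero_zero hxy
      have hN0 : Algebra.norm ℚ β ≠ 0 := (Algebra.norm_ne_zero_iff).mpr hβ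
      rw [Nat.cast_one, one_mul]
      positivity
    have h2 : IsSquare ((2 : ℤ) : ℚ_[2]) := by
      refine ⟨((m / (((1 : ℕ) : ℚ) * 2 ^ e * z * Algebra.norm ℚ β) : ℚ) : ℚ_[2]), ?_⟩
      have h3 : (2 : ℚ) = (m / (((1 : ℕ) : ℚ) * 2 ^ e * z * Algebra.norm ℚ β)) *
          (m / (((1 : ℕ) : ℚ) * 2 ^ e * z * Algebra.norm ℚ β)) := by
        rw [pow_zero, one_mul, pow_one] at hm
        rw [div_mul_div_comm, ← hm, ← sq, mul_div_cancel_left₀ _ (pow_ne_zero 2 hA0)]
      have h4 := congrArg (fun t : ℚ => (t : ℚ_[2])) h3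
      simp only [Rat.cast_mul] at h4
      rw [← h4]
      norm_num
    exact not_isSquare_of_mod (Or.inr (Or.inl rfl)) h2

include hq0 hF hs hq in
/-- An odd power of an ideal prime to `2` is principal. -/
theorem exists_odd_power (J : F →+* ℚ_[2]) {I : Ideal (𝓞 F)} (hI : I ≠ ⊥)
    (hJ : ∀ (n : ℕ) (a : 𝓞 F), I ^ n = Ideal.span {a} → ‖J a‖ = 1) :
    ∃ (N : ℕ) (a : 𝓞 F), N % 2 = 1 ∧ I ^ N = Ideal.span {a} := by
  have hstart : ∃ (n : ℕ) (a : 𝓞 F), 0 < n ∧ I ^ n = Ideal.span {a} := by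
    have hIn : I ∈ nonZeroDivisors (Ideal (𝓞 F)) := mem_nonZeroDivisors_of_ne_zero hI
    have h1 : ClassGroup.mk0 ⟨I, hIn⟩ ^ Fintype.card (ClassGroup (𝓞 F)) = 1 := pow_card_eq_one
    rw [← map_pow, ClassGroup.mk0_eq_one_iff] at h1
    obtain ⟨a, ha⟩ := h1.principal
    exact ⟨_, a, Fintype.card_pos, ha⟩
  obtain ⟨n, a, hn, hna⟩ := hstart
  induction n using Nat.strong_induction_on generalizing a with
  | _ n ih =>
    rcases (by omega : n % 2 = 0 ∨ n % 2 = 1) with h | h
    · obtain ⟨m, hm⟩ : ∃ m, n = m * 2 := ⟨n / 2, by omega⟩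
      have ha : a ≠ 0 := by
        rintro rfl
        rw [Ideal.span_singleton_eq_bot.mpr rfl, ← Ideal.zero_eq_bot] at hna
        exact hI (by simpa using pow_eq_zero_iff hn.ne' |>.mp hna)
      have h1 : (I ^ m) ^ 2 = Ideal.span {a} := by
        rw [← pow_mul, ← hm]
        exact hna
      obtain ⟨b, hb⟩ := isPrincipal_of_sq hq0 hF hs hq J ha h1 (hJ n a hna)
      exact ih m (by omega) b (by omega) hb
    · exact ⟨n, a, h, hna⟩

end

end Pool.Agent.Lib.MP_7c08ba_nt
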