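import Mathlib
import Pool.Agent.Lib.MP_7c08ba_nt.Norm

set_option autoImplicit false

/-!
Cocycles with values in representations congruent to a quadratic character modulo four.
-/

namespace Pool.Agent.Lib.MP_7c08ba_nt

set_option linter.unusedSectionVars false

open Matrix

section

variable {L : Type*} [NormedField L] [IsUltrametricDist L] {n : ℕ}

/-- Norms of matrix-vector products. -/
lemma norm_mulVec_le {A : Matrix (Fin n) (Fin n) L} {C : ℝ} (hC : 0 ≤ C)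
    (hA : ∀ i j, ‖A i j‖ ≤ C) (x : Fin n → L) : ‖A *ᵥ x‖ ≤ C * ‖x‖ := by
  rw [pi_norm_le_iff_of_nonneg (mul_nonneg hC (norm_nonneg x))]
  intro i
  rw [Matrix.mulVec, dotProduct]
  refine IsUltrametricDist.norm_sum_le_of_forall_le_of_nonneg
    (mul_nonneg hC (norm_nonneg x)) fun j _ => ?_
  rw [norm_mul]
  exact mul_le_mul (hA i j) (norm_le_pi_norm x j) (norm_nonneg _) hC

variable {G : Type*} [Group G]

/-- The representation is congruent to the sign character with kernel `H` modulo `4`. -/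
def CongSign (ρ : G →* Matrix.GeneralLinearGroup (Fin n) L) (H : Subgroup G) : Prop :=
  (∀ g ∈ H, ∀ x : Fin n → L, ‖(ρ g : Matrix (Fin n) (Fin n) L) *ᵥ x - x‖ ≤ ‖(4 : L)‖ * ‖x‖) ∧
  (∀ g, g ∉ H → ∀ x : Fin n → L,
    ‖(ρ g : Matrix (Fin n) (Fin n) L) *ᵥ x + x‖ ≤ ‖(4 : L)‖ * ‖x‖)

variable {ρ : G →* Matrix.GeneralLinearGroup (Fin n) L} {H : Subgroup G}

lemma norm_four_le (h2 : ‖(2 : L)‖ < 1) : ‖(4 : L)‖ ≤ ‖(2 : L)‖ := by
  have h1 : (4 : L) = 2 * 2 := by norm_num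
  rw [h1, norm_mul]
  exact mul_le_of_le_one_right (norm_nonneg _) h2.le

lemma CongSign.norm_sub_le (h2 : ‖(2 : L)‖ < 1) (hρ : CongSign ρ H) (g : G) (x : Fin n → L) :
    ‖(ρ g : Matrix (Fin n) (Fin n) L) *ᵥ x - x‖ ≤ ‖(2 : L)‖ * ‖x‖ := by
  have h4 := norm_four_le h2
  by_cases hg : g ∈ H
  · exact (hρ.1 g hg x).trans (mul_le_mul_of_nonneg_right h4 (norm_nonneg x))
  · have h1 : (ρ g : Matrix (Fin n) (Fin n) L) *ᵥ x - x =
        ((ρ g : Matrix (Fin n) (Fin n) L) *ᵥ x + x) + -((2 : L) • x) := by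
      rw [two_smul]
      abel
    rw [h1]
    refine (IsUltrametricDist.norm_add_le_max _ _).trans (max_le ?_ ?_)
    · exact (hρ.2 g hg x).trans (mul_le_mul_of_nonneg_right h4 (norm_nonneg x))
    · rw [norm_neg, norm_smul]

lemma CongSign.norm_le (h2 : ‖(2 : L)‖ < 1) (hρ : CongSign ρ H) (g : G) (x : Fin n → L) :
    ‖(ρ g : Matrix (Fin n) (Fin n) L) *ᵥ x‖ ≤ ‖x‖ := by
  have h1 : (ρ g : Matrix (Fin n) (Fin n) L) *ᵥ x =
      ((ρ g : Matrix (Fin n) (Fin n) L) *ᵥ x - x) + x := by abel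
  rw [h1]
  refine (IsUltrametricDist.norm_add_le_max _ _).trans (max_le ?_ le_rfl)
  refine (hρ.norm_sub_le h2 g x).trans ?_
  exact mul_le_of_le_one_left (norm_nonneg x) h2.le

/-- A nonzero cocycle is small only inside some open subgroup of index two. -/
theorem exists_index_two_cong [TopologicalSpace G] [IsTopologicalGroup G] [CompactSpace G]
    (h2 : ‖(2 : L)‖ < 1) (hρ : CongSign ρ H) (c : G → Fin n → L) (hc : Continuous c)
    (hcoc : ∀ g h, c (g * h) = c g + (ρ g : Matrix (Fin n) (Fin n) L) *ᵥ c h)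
    (hne : ∃ g, c g ≠ 0) :
    ∃ (K : Subgroup G) (M : ℝ), 0 < M ∧ (∀ g, ‖c g‖ ≤ M) ∧ IsOpen (K : Set G) ∧ K.index = 2 ∧
      ∀ g, ‖c g‖ < M → g ∈ K := by
  obtain ⟨x, -, hx⟩ := isCompact_univ.exists_isMaxOn (Set.univ_nonempty (α := G))
    hc.norm.continuousOn
  set M := ‖c x‖ with hMdef
  have hmax : ∀ y, ‖c y‖ ≤ M := fun y => hx (Set.mem_univ y)
  have hM : 0 < M := by
    obtain ⟨g, hg⟩ := hne
    exact (norm_pos_iff.mpr hg).trans_le (hmax g)
  have hone : c 1 = 0 := by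
    have h1 := hcoc 1 1
    rw [mul_one, map_one] at h1
    simp only [Units.val_one, Matrix.one_mulVec] at h1
    simpa using h1
  let U : Subgroup G :=
    { carrier := {g | ‖c g‖ < M}
      mul_mem' := fun {a b} ha hb => by
        rw [Set.mem_ofPred_eq] at ha hb ⊢
        rw [hcoc]
        refine (IsUltrametricDist.norm_add_le_max _ _).trans_lt (max_lt ha ?_)
        exact (hρ.norm_le h2 a _).trans_lt hb
      one_mem' := by
        rw [Set.mem_ofPred_eq, hone, norm_zero]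
        exact hM
      inv_mem' := fun {a} ha => by
        rw [Set.mem_ofPred_eq] at ha ⊢
        have h1 := hcoc a⁻¹ a
        rw [inv_mul_cancel, hone] at h1
        have h3 : c a⁻¹ = - ((ρ a⁻¹ : Matrix (Fin n) (Fin n) L) *ᵥ c a) :=
          eq_neg_of_add_eq_zero_left h1.symm
        rw [h3, norm_neg]
        exact (hρ.norm_le h2 _ _).trans_lt ha }
  have hmem : ∀ g, g ∈ U ↔ ‖c g‖ < M := fun g => Iff.rfl
  have hUopen : IsOpen (U : Set G) := isOpen_lt hc.norm continuous_const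
  have hUne : U ≠ ⊤ := by
    intro h
    have h1 : x ∈ U := h ▸ Subgroup.mem_top _
    exact lt_irrefl M ((hmem _).mp h1)
  obtain ⟨K, hK1, hK2, hK3⟩ := exists_index_two_of_pow U hUopen hUne 1 (fun g => by
    rw [pow_one, hmem, sq, hcoc]
    have h1 : c g + (ρ g : Matrix (Fin n) (Fin n) L) *ᵥ c g =
        ((ρ g : Matrix (Fin n) (Fin n) L) *ᵥ c g - c g) + (2 : L) • c g := by
      rw [two_smul]
      abel
    have h3 : ‖(2 : L)‖ * ‖c g‖ < M := by
      have h4 := hmax g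
      have h5 : ‖(2 : L)‖ * ‖c g‖ ≤ ‖(2 : L)‖ * M := mul_le_mul_of_nonneg_left h4 (norm_nonneg _)
      have h6 : ‖(2 : L)‖ * M < 1 * M := mul_lt_mul_of_pos_right h2 hM
      linarith
    rw [h1]
    refine (IsUltrametricDist.norm_add_le_max _ _).trans_lt (max_lt ?_ ?_)
    · exact (hρ.norm_sub_le h2 g _).trans_lt h3
    · rw [norm_smul]
      exact h3)
  exact ⟨K, M, hM, hmax, hK1, hK2, fun g hg => hK3 hg⟩

omit [IsUltrametricDist L] in
/-- A cocycle which is a coboundary on a normal subgroup containing an element acting as `-1` is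
a coboundary. -/
lemma coboundary_of_neg [CharZero L] {c : G → Fin n → L}
    (hcoc : ∀ g h, c (g * h) = c g + (ρ g : Matrix (Fin n) (Fin n) L) *ᵥ c h)
    {D I : Subgroup G} (hI : ∀ g ∈ D, ∀ i ∈ I, g⁻¹ * i * g ∈ I) {x : Fin n → L}
    (hx : ∀ i ∈ I, c i = (ρ i : Matrix (Fin n) (Fin n) L) *ᵥ x - x) {t : G} (ht : t ∈ I)
    (htneg : ρ t = -1) : ∀ g ∈ D, c g = (ρ g : Matrix (Fin n) (Fin n) L) *ᵥ x - x := by
  intro g hg
  have hg' := hI g hg t ht
  -- two expressions for `c (t g)`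
  have h1 := hcoc t g
  have h2 := hcoc g (g⁻¹ * t * g)
  have h3 : g * (g⁻¹ * t * g) = t * g := by group
  rw [h3] at h2
  have h4 : (ρ g : Matrix (Fin n) (Fin n) L) *ᵥ ((ρ (g⁻¹ * t * g) : Matrix (Fin n) (Fin n) L) *ᵥ x)
      = -((ρ g : Matrix (Fin n) (Fin n) L) *ᵥ x) := by
    rw [Matrix.mulVec_mulVec, ← Units.val_mul, ← map_mul, h3, map_mul, htneg]
    simp [Matrix.neg_mulVec]
  rw [hx _ hg', Matrix.mulVec_sub, h4] at h2
  rw [hx t ht, htneg] at h1
  simp only [Units.val_neg, Units.val_one, Matrix.neg_mulVec, Matrix.one_mulVec] at h1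
  have h5 : (2 : L) • (c g - ((ρ g : Matrix (Fin n) (Fin n) L) *ᵥ x - x)) = 0 := by
    have h6 := h1.symm.trans h2
    rw [two_smul]
    have h7 : c g - ((ρ g : Matrix (Fin n) (Fin n) L) *ᵥ x - x) +
        (c g - ((ρ g : Matrix (Fin n) (Fin n) L) *ᵥ x - x)) =
        (c g + (-((ρ g : Matrix (Fin n) (Fin n) L) *ᵥ x) - (ρ g : Matrix (Fin n) (Fin n) L) *ᵥ x)) -
        (-x - x + -c g) := by abel
    rw [h7, ← h6, sub_self]
  rw [smul_eq_zero] at h5
  rcases h5 with h6 | h6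
  · exact absurd h6 two_ne_zero
  · exact sub_eq_zero.mp h6

/-- The dichotomy for a subgroup on which the cocycle is a coboundary. -/
lemma dichotomy [CharZero L] (h2 : ‖(2 : L)‖ < 1) (hρ : CongSign ρ H) (hH : H.index = 2)
    {c : G → Fin n → L} {D : Subgroup G} {x : Fin n → L}
    (hx : ∀ g ∈ D, c g = (ρ g : Matrix (Fin n) (Fin n) L) *ᵥ x - x) {t : G} (ht : t ∈ D)
    (htneg : ρ t = -1) {K : Subgroup G} {M : ℝ} (hM : 0 < M) (hmax : ∀ g, ‖c g‖ ≤ M)
    (hK : ∀ g, ‖c g‖ < M → g ∈ K) :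
    (∀ g ∈ D, g ∈ K) ∨ (∀ g ∈ D, g ∈ K ↔ g ∈ H) := by
  have h20 : (0 : ℝ) < ‖(2 : L)‖ := norm_pos_iff.mpr two_ne_zero
  have hx2 : ‖(2 : L)‖ * ‖x‖ ≤ M := by
    have h1 := hmax t
    rw [hx t ht, htneg] at h1
    simp only [Units.val_neg, Units.val_one, Matrix.neg_mulVec, Matrix.one_mulVec] at h1
    have h3 : -x - x = -((2 : L) • x) := by rw [two_smul]; abel
    rw [h3, norm_neg, norm_smul] at h1
    exact h1
  have hDH : ∀ g ∈ D, g ∈ H → g ∈ K := by
    intro g hg hgH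
    apply hK
    rw [hx g hg]
    refine (hρ.1 g hgH x).trans_lt ?_
    have h4 : (4 : L) = 2 * 2 := by norm_num
    rw [h4, norm_mul, mul_assoc]
    have h5 : ‖(2 : L)‖ * (‖(2 : L)‖ * ‖x‖) ≤ ‖(2 : L)‖ * M :=
      mul_le_mul_of_nonneg_left hx2 h20.le
    have h6 : ‖(2 : L)‖ * M < 1 * M := mul_lt_mul_of_pos_right h2 hM
    linarith
  by_cases hD : ∀ g ∈ D, g ∈ K
  · exact Or.inl hD
  · right
    push Not at hD
    obtain ⟨d, hd, hdK⟩ := hD
    have hdH : d ∉ H := fun h => hdK (hDH d hd h)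
    intro g hg
    constructor
    · intro hgK
      by_contra hgH
      have h1 : g⁻¹ * d ∈ H := by
        rw [Subgroup.mul_mem_iff_of_index_two hH, Subgroup.inv_mem_iff]
        exact ⟨fun h => absurd h hgH, fun h => absurd h hdH⟩
      have h3 := hDH _ (D.mul_mem (D.inv_mem hg) hd) h1
      apply hdK
      have := K.mul_mem hgK h3
      rwa [mul_inv_cancel_left] at this
    · exact hDH g hg

end

end Pool.Agent.Lib.MP_7c08ba_nt
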