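import Mathlib
import Pool.Agent.Lib.MP_7c08ba_nt.Tw.Coc
import Pool.Agent.Lib.MP_7c08ba_nt.Tw.Sqrt
import Pool.Agent.Lib.MP_7c08ba_nt.Tw.TwArith

set_option autoImplicit false

/-!
Selmer cocycles of representations congruent to a quadratic character modulo four.
-/

namespace Pool.Agent.Lib.MP_7c08ba_nt

set_option linter.unusedSectionVars false

open NumberField Matrix IsDedekindDomain
open scoped Pointwise

section

variable {F : Type} [Field F] [NumberField F]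

/-- The inertia group is normal in the decomposition group. -/
lemma inert_normal {P : Ideal (AllInt F)} {g i : AbsGal F} (hg : g ∈ decomp F P)
    (hi : i ∈ inert F P) : g⁻¹ * i * g ∈ inert F P := by
  intro x
  have h1 : (g⁻¹ * i * g) • x - x = g⁻¹ • (i • (g • x) - g • x) := by
    rw [smul_sub, mul_smul, mul_smul, inv_smul_smul]
  rw [h1]
  have h2 := (decomp F P).inv_mem hg
  exact (h2 _).mpr (hi (g • x))

/-- The prime of `F` below a prime of the ring of all algebraic integers. -/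
lemma exists_below {P : Ideal (AllInt F)} (hP : P.IsPrime) {a : 𝓞 F} (ha : a ≠ 0)
    (haP : algebraMap (𝓞 F) (AllInt F) a ∈ P) : ∃ v : HeightOneSpectrum (𝓞 F),
    ∀ x : 𝓞 F, x ∈ v.asIdeal ↔ algebraMap (𝓞 F) (AllInt F) x ∈ P := by
  refine ⟨⟨P.comap (algebraMap (𝓞 F) (AllInt F)), Ideal.IsPrime.comap _, ?_⟩, fun x => Iff.rfl⟩
  intro h
  have h1 : a ∈ P.comap (algebraMap (𝓞 F) (AllInt F)) := haP
  rw [h] at h1
  exact ha h1

variable {L : Type} [NormedField L] [IsUltrametricDist L] {n : ℕ}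

/-- A scalar `±1` which is congruent to `-1` modulo `4`. -/
lemma eq_neg_one_of_cong [CharZero L] (hL : ‖(2 : L)‖ < 1) (hn : 0 < n)
    {ρ : AbsGal F →* Matrix.GeneralLinearGroup (Fin n) L} {H : Subgroup (AbsGal F)}
    (hρ : CongSign ρ H) {t : AbsGal F} (ht : t ∉ H) (h : ρ t = 1 ∨ ρ t = -1) : ρ t = -1 := by
  rcases h with h | h
  · exfalso
    have : Nonempty (Fin n) := ⟨⟨0, hn⟩⟩
    have h1 := hρ.2 t ht (fun _ => 1)
    rw [h] at h1
    simp only [Units.val_one, Matrix.one_mulVec] at h1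
    have h2 : ‖(fun _ : Fin n => (1 : L))‖ = 1 := by
      have := pi_norm_const (ι := Fin n) (1 : L)
      rw [this, norm_one]
    have h3 : (fun _ : Fin n => (1 : L)) + (fun _ : Fin n => (1 : L)) = fun _ => (2 : L) := by
      funext k
      simp only [Pi.add_apply]
      norm_num
    have h4 : ‖(fun _ : Fin n => (2 : L))‖ = ‖(2 : L)‖ := pi_norm_const (ι := Fin n) (2 : L)
    rw [h3, h2, h4, mul_one] at h1
    have h5 : (4 : L) = 2 * 2 := by norm_num
    rw [h5, norm_mul] at h1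
    have h6 : (0 : ℝ) < ‖(2 : L)‖ := norm_pos_iff.mpr two_ne_zero
    have h7 : ‖(2 : L)‖ * ‖(2 : L)‖ < 1 * ‖(2 : L)‖ := mul_lt_mul_of_pos_right hL h6
    linarith
  · exact h

end

/-- The cocycle `c` vanishes at some inertia element acting as `-1` at a prime containing `a`. -/
def TestAt {F : Type} [Field F] {L : Type} [NormedField L] {n : ℕ}
    (ρ : AbsGal F →* Matrix.GeneralLinearGroup (Fin n) L) (c : AbsGal F → Fin n → L)
    (a : AllInt F) : Prop :=
  ∃ S : Ideal (AllInt F), S.IsPrime ∧ a ∈ S ∧ ∃ g ∈ inert F S, ρ g = -1 ∧ c g = 0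

/-- Vanishing of Selmer cocycles in the twisted case. -/
theorem twist_vanish {q : ℕ} (hq : q.Prime) (h16 : q % 16 = 7) {F : Type} [Field F]
    [NumberField F] (hF : Module.finrank ℚ F = 2) {s : F} (hs : s ^ 2 = -(q : F))
    {rs : Finset ℕ} (hrs : InertSet q rs) {τ : ℤ} (hτ : τ = 1 ∨ τ = -1) {a : ℕ} (J : F →+* ℚ_[2])
    {σ : ℤ_[2]} (hJ : J s = σ) (hσ : PadicInt.toZModPow 3 σ = 5)
    {L : Type} [NormedField L] [IsUltrametricDist L] [CharZero L] (hL : ‖(2 : L)‖ < 1)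
    {n : ℕ} {ρ : AbsGal F →* Matrix.GeneralLinearGroup (Fin n) L}
    {y : AlgebraicClosure F} (hy : y ^ 2 = algebraMap F _ (twEl τ a s rs))
    (hρ : CongSign ρ (sqrtStab y))
    (hram : ∀ P : Ideal (AllInt F), P.IsPrime → (2 : AllInt F) ∉ P → ∀ g ∈ inert F P,
      ρ g = 1 ∨ ρ g = -1)
    (hunr : ∀ P : Ideal (AllInt F), P.IsPrime → (2 : AllInt F) ∉ P →
      algebraMap (𝓞 F) (AllInt F) (sI hs) ∉ P → (∀ r ∈ rs, (r : AllInt F) ∉ P) →
      ∀ g ∈ inert F P, ρ g = 1)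
    {P₀ : Ideal (AllInt F)} (hP₀ : LiesAt J P₀)
    {c : AbsGal F → Fin n → L} (hc : c ∈ cocycles ρ) (hD : ∀ g ∈ decomp F P₀, c g = 0)
    (hI : ∀ P : Ideal (AllInt F), P.IsPrime → (2 : AllInt F) ∉ P → c ∈ coboundOn ρ (inert F P))
    (ht7 : ∀ r ∈ rs, r % 8 = 7 → TestAt ρ c r)
    (ht3 : ∃ r₀, ∀ r ∈ rs, r % 8 = 3 → r ≠ r₀ → TestAt ρ c r)
    (ht5 : (rs.filter (fun r => r % 8 = 3)).card = 0 →
      (rs.filter (fun r => r % 8 = 5)).card % 2 = 1 → ∃ r ∈ rs, r % 8 = 5 ∧ TestAt ρ c r)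
    (hts : τ = (-1) ^ (base rs + 1) → TestAt ρ c (algebraMap (𝓞 F) (AllInt F) (sI hs))) :
    c = 0 := by
  have hq0 := hq.pos
  obtain ⟨hcc, hcoc⟩ := hc
  by_contra hne
  have hne' : ∃ g, c g ≠ 0 := by
    by_contra hcon
    push Not at hcon
    exact hne (funext hcon)
  have hn : 0 < n := by
    rcases Nat.eq_zero_or_pos n with rfl | h
    · exfalso
      obtain ⟨g, hg⟩ := hne'
      exact hg (Subsingleton.elim _ _)
    · exact h
  obtain ⟨K, M, hM, hmax, hKo, hKi, hKs⟩ := exists_index_two_cong hL hρ c hcc hcoc hne'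
  obtain ⟨yu, u, hyu0, hyu, hyK, hyn, g₀, hg₀⟩ := exists_sqrt K hKo hKi
  have hu0 : u ≠ 0 := by
    rintro rfl
    rw [map_zero] at hyu
    exact hyu0 (pow_eq_zero_iff two_ne_zero |>.mp hyu)
  have hKmem : ∀ g, g yu = yu → g ∈ K := by
    intro g hg
    by_contra hcon
    have := hyn g hcon
    rw [hg] at this
    exact neg_ne_self hyu0 this.symm
  have hw0 : twEl τ a s rs ≠ 0 := by
    unfold twEl
    refine mul_ne_zero (mul_ne_zero (mul_ne_zero ?_ (pow_ne_zero _ two_ne_zero))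
      (s_ne_zero hq0 hs)) (prod_ne_zero' fun r hr => (hrs r hr).1)
    rcases hτ with rfl | rfl <;> simp
  have hy0 : y ≠ 0 := by
    rintro rfl
    rw [zero_pow two_ne_zero, eq_comm, map_eq_zero_iff _ (algebraMap F _).injective] at hy
    exact hw0 hy
  have hzero : ∀ g, c g = 0 → g ∈ K := fun g hg => hKs g (by rw [hg, norm_zero]; exact hM)
  have h2mem : ∀ {v : HeightOneSpectrum (𝓞 F)} {P : Ideal (AllInt F)},
      (∀ x : 𝓞 F, x ∈ v.asIdeal ↔ algebraMap (𝓞 F) (AllInt F) x ∈ P) → (2 : 𝓞 F) ∉ v.asIdeal →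
      (2 : AllInt F) ∉ P := by
    intro v P hP h h'
    apply h
    rw [hP]
    have h4 : algebraMap (𝓞 F) (AllInt F) 2 = 2 := map_ofNat _ 2
    rw [h4]
    exact h'
  -- the decomposition groups at the places where the twisting element is odd
  have key : ∀ (v : HeightOneSpectrum (𝓞 F)) (P : Ideal (AllInt F)), P.IsPrime →
      (∀ x : 𝓞 F, x ∈ v.asIdeal ↔ algebraMap (𝓞 F) (AllInt F) x ∈ P) → (2 : AllInt F) ∉ P →
      ¬ IsSquare (v.valuation F (twEl τ a s rs)) →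
      ∃ (x : Fin n → L) (t : AbsGal F), t ∈ inert F P ∧ ρ t = -1 ∧ t y ≠ y ∧
        ∀ g ∈ decomp F P, c g = (ρ g : Matrix (Fin n) (Fin n) L) *ᵥ x - x := by
    intro v P hPp hP h2P hvw
    obtain ⟨t, ht, hty⟩ : ∃ t ∈ inert F P, t y ≠ y := by
      by_contra hcon
      push Not at hcon
      exact hvw (isSquare_val_of_inert hw0 hy v P hPp hP hcon)
    have htneg := eq_neg_one_of_cong hL hn hρ (t := t) hty (hram P hPp h2P t ht)
    obtain ⟨x, hx⟩ := hI P hPp h2P
    exact ⟨x, t, ht, htneg, hty,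
      coboundary_of_neg hcoc (fun g hg i hi => inert_normal hg hi) hx ht htneg⟩
  have hinert_le : ∀ P : Ideal (AllInt F), inert F P ≤ decomp F P := by
    intro P g hg x
    have h1 := hg x
    constructor
    · intro h
      have := P.sub_mem h h1
      simpa using this
    · intro h
      have := P.add_mem h1 h
      simpa using this
  have hloc : ∀ v : HeightOneSpectrum (𝓞 F), (2 : 𝓞 F) ∉ v.asIdeal →
      ¬ IsSquare (v.valuation F (twEl τ a s rs)) → LocSq v u ∨ LocSq v (u * twEl τ a s rs) := by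
    intro v hv hvw
    obtain ⟨P, hPp, hP⟩ := exists_prime_over v
    obtain ⟨x, t, ht, htneg, hty, hx⟩ := key v P hPp hP (h2mem hP hv) hvw
    have hidx := sqrtStab_index hy0 hy hty
    rcases dichotomy hL hρ hidx hx (hinert_le P ht) htneg hM hmax hKs with h | h
    · left
      exact locSq_of_decomp hu0 hyu v P hPp hP (fun g hg => hyK g (h g hg))
    · right
      refine locSq_of_decomp (y := yu * y) (mul_ne_zero hu0 hw0) ?_ v P hPp hP ?_
      · rw [mul_pow, hyu, hy, map_mul]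
      · intro g hg
        rw [map_mul]
        by_cases hgK : g ∈ K
        · have h1 : g y = y := (h g hg).mp hgK
          rw [hyK g hgK, h1]
        · have h1 : g y = -y := (sqrtStab_or hy g).resolve_left fun h' => hgK ((h g hg).mpr h')
          rw [hyn g hgK, h1, neg_mul_neg]
  have hs2 : ∀ v : HeightOneSpectrum (𝓞 F), sI hs ∈ v.asIdeal → (2 : 𝓞 F) ∉ v.asIdeal :=
    fun v hv => two_notMem_of_odd (q_mem hs hv) (by omega)
  have hr2 : ∀ r ∈ rs, ∀ v : HeightOneSpectrum (𝓞 F), (r : 𝓞 F) ∈ v.asIdeal →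
      (2 : 𝓞 F) ∉ v.asIdeal := fun r hr v hv => two_notMem_of_odd hv (hrs.odd hr)
  -- the tests
  have htest : ∀ (b : 𝓞 F), b ≠ 0 → (∀ v : HeightOneSpectrum (𝓞 F), b ∈ v.asIdeal →
      (2 : 𝓞 F) ∉ v.asIdeal) → (∀ v v' : HeightOneSpectrum (𝓞 F), b ∈ v.asIdeal →
      b ∈ v'.asIdeal → v = v') → TestAt ρ c (algebraMap (𝓞 F) (AllInt F) b) →
      ∀ v : HeightOneSpectrum (𝓞 F), b ∈ v.asIdeal → IsSquare (v.valuation F u) := by
    rintro b hb0 hb2 hbu ⟨S, hSp, hS, g₁, hg₁, hg₁', hcg⟩ v' hv'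
    obtain ⟨v, hv⟩ := exists_below hSp hb0 hS
    have hbv : b ∈ v.asIdeal := (hv _).mpr hS
    rw [hbu v' v hv' hbv]
    have h2S := h2mem hv (hb2 v hbv)
    refine isSquare_val_of_inert hu0 hyu v S hSp hv fun g hg => hyK g (hzero g ?_)
    obtain ⟨x, hx⟩ := hI S hSp h2S
    have h1 := hx g₁ hg₁
    rw [hcg, hg₁'] at h1
    simp only [Units.val_neg, Units.val_one, Matrix.neg_mulVec, Matrix.one_mulVec] at h1
    have h3 : (2 : L) • x = 0 := by
      rw [two_smul]
      have h4 : x + x = -(-x - x) := by abel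
      rw [h4, ← h1, neg_zero]
    rw [smul_eq_zero] at h3
    rcases h3 with h4 | h4
    · exact absurd h4 two_ne_zero
    · rw [hx g hg, h4, Matrix.mulVec_zero, sub_zero]
  have htestR : ∀ r ∈ rs, TestAt ρ c r → ∀ v : HeightOneSpectrum (𝓞 F), (r : 𝓞 F) ∈ v.asIdeal →
      IsSquare (v.valuation F u) := by
    intro r hr h v hv
    obtain ⟨h1, h3, h4⟩ := hrs r hr
    refine htest (r : 𝓞 F) (by exact_mod_cast h1.ne_zero) (hr2 r hr) ?_ (by
      rw [map_natCast]; exact h) v hv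
    intro v v' hv hv'
    exact HeightOneSpectrum.ext ((asIdeal_of_r_mem hq0 hF hs hq h1 h3 h4 hv).trans
      (asIdeal_of_r_mem hq0 hF hs hq h1 h3 h4 hv').symm)
  have hmain := twist_arith hq0 hF hs hq h16 hrs hτ J hJ hσ hu0 (by
      intro v hv hvs hvr
      obtain ⟨P, hPp, hP⟩ := exists_prime_over v
      refine isSquare_val_of_inert hu0 hyu v P hPp hP fun g hg => hyK g (hzero g ?_)
      obtain ⟨x, hx⟩ := hI P hPp (h2mem hP hv)
      rw [hx g hg, hunr P hPp (h2mem hP hv) (fun h => hvs ((hP _).mpr h)) (fun r hr h => hvr r hr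
        ((hP _).mpr (by rw [map_natCast]; exact h))) g hg, Units.val_one, Matrix.one_mulVec,
        sub_self])
    (fun v hv => hloc v (hs2 v hv) (val_twEl_s hq0 hF hs hq hrs hτ hv (hs2 v hv)))
    (fun r hr v hv => hloc v (hr2 r hr v hv) (val_twEl_r hq0 hF hs hq hrs hτ hr hv (hr2 r hr v hv)))
    (isSquare_dyadic_of_decomp hu0 hyu J P₀ hP₀ (fun g hg => hyK g (hzero g (hD g hg))))
    (fun r hr h => htestR r hr (ht7 r hr h))
    (by
      obtain ⟨r₀, hr₀⟩ := ht3
      exact ⟨r₀, fun r hr h h' => htestR r hr (hr₀ r hr h h')⟩)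
    (by
      intro h h'
      obtain ⟨r, hr, h8, hT⟩ := ht5 h h'
      exact ⟨r, hr, h8, htestR r hr hT⟩)
  rcases hmain with ⟨t, ht⟩ | ⟨hτ1, hvs⟩
  · have h1 : (yu - algebraMap F _ t) * (yu + algebraMap F _ t) = 0 := by
      have h2 : yu ^ 2 = algebraMap F (AlgebraicClosure F) t ^ 2 := by
        rw [hyu, ht, map_mul, sq]
      linear_combination h2
    have h2 : g₀ yu = yu := by
      rcases mul_eq_zero.mp h1 with h | h
      · rw [sub_eq_zero.mp h, AlgEquiv.commutes]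
      · rw [eq_neg_of_add_eq_zero_left h, map_neg, AlgEquiv.commutes]
    exact hg₀ (hKmem g₀ h2)
  · obtain ⟨v, hv⟩ : ∃ v : HeightOneSpectrum (𝓞 F), sI hs ∈ v.asIdeal :=
      ⟨⟨Ideal.span {sI hs}, spanS_isPrime hq0 hF hs hq, by
        rw [Ne, Ideal.span_singleton_eq_bot]; exact sI_ne_zero hq0 hs⟩,
        Ideal.mem_span_singleton_self _⟩
    refine hvs v hv (htest (sI hs) (sI_ne_zero hq0 hs) hs2 ?_ (hts hτ1) v hv)
    intro v v' hv hv'
    exact HeightOneSpectrum.ext ((asIdeal_of_sI_mem hq0 hF hs hq hv).trans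
      (asIdeal_of_sI_mem hq0 hF hs hq hv').symm)

end Pool.Agent.Lib.MP_7c08ba_nt
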