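import Mathlib
import Pool.Agent.Lib.MP_7c08ba_nt.Tw.ClassOdd
import Pool.Agent.Lib.MP_7c08ba_nt.Tw.Frob
import Pool.Agent.Lib.MP_7c08ba_nt.Tw.Global

set_option autoImplicit false

/-!
Split primes of `ℚ(√-q)`.
-/

namespace Pool.Agent.Lib.MP_7c08ba_nt

set_option linter.unusedSectionVars false

open NumberField IsDedekindDomain Module

section

variable {F : Type} [Field F] [NumberField F] {q : ℕ} (hq0 : 0 < q)
  (hF : finrank ℚ F = 2) {s : F} (hs : s ^ 2 = -(q : F)) (hq : q.Prime)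

include hq0 hF hs hq in
/-- The prime above `l` at which `√-q ≡ a`. -/
lemma exists_split_prime {l : ℕ} (hl : l.Prime) (hl2 : l ≠ 2) {a : ℤ}
    (ha : (l : ℤ) ∣ a ^ 2 + q) : ∃ P : Ideal (AllInt F), P.IsPrime ∧ (l : AllInt F) ∈ P ∧
      algebraMap (𝓞 F) (AllInt F) (sI hs - a) ∈ P := by
  set I : Ideal (𝓞 F) := Ideal.span {(l : 𝓞 F), sI hs - a} with hI
  have hItop : I ≠ ⊤ := by
    intro h
    have h1 : (1 : 𝓞 F) ∈ I := h ▸ Submodule.mem_top
    rw [hI, Ideal.mem_span_pair] at h1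
    obtain ⟨z, w, hzw⟩ := h1
    have h2 := norm_congr hq0 hF hs hq hl hl2 1 (-z)
    have h3 : (1 : 𝓞 F) + l * (-z) = w * (sI hs - a) := by linear_combination -hzw
    rw [h3, map_mul, map_one] at h2
    have h4 : Algebra.norm ℤ (sI hs - a : 𝓞 F) = a ^ 2 + q := by
      have h5 : 2 * ((sI hs - a : 𝓞 F) : F) = ((-2 * a : ℤ) : F) + ((2 : ℤ) : F) * s := by
        rw [RingOfIntegers.coe_eq_algebraMap, map_sub, map_intCast, algebraMap_sI]
        push_cast
        ring
      have h6 := four_norm hq0 hF hs h5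
      linarith
    rw [h4] at h2
    have h7 : (l : ℤ) ∣ 1 := by
      have h8 := dvd_sub (ha.mul_left (Algebra.norm ℤ w)) h2
      rwa [sub_sub_cancel] at h8
    exact (Nat.prime_iff_prime_int.mp hl).not_isUnit (isUnit_of_dvd_one h7)
  obtain ⟨m, hm, hIm⟩ := Ideal.exists_le_maximal I hItop
  have hlm : (l : 𝓞 F) ∈ m := hIm (Ideal.subset_span (by simp))
  have ham : sI hs - a ∈ m := hIm (Ideal.subset_span (by simp))
  have hm0 : m ≠ ⊥ := by
    rintro rfl
    have h1 : (l : 𝓞 F) = 0 := hlm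
    exact hl.ne_zero (by exact_mod_cast h1)
  obtain ⟨P, hP, hPm⟩ := exists_prime_over (⟨m, hm.isPrime, hm0⟩ : HeightOneSpectrum (𝓞 F))
  refine ⟨P, hP, ?_, (hPm _).mp ham⟩
  have := (hPm _).mp hlm
  rwa [map_natCast] at this

include hq0 hF hs hq in
/-- The residue field at a split prime. -/
lemma split_res {l : ℕ} (hl : l.Prime) (hl2 : l ≠ 2) {a : ℤ} {P : Ideal (AllInt F)}
    (hlP : (l : AllInt F) ∈ P) (haP : algebraMap (𝓞 F) (AllInt F) (sI hs - a) ∈ P) (z : 𝓞 F) :
    ∃ b : ℤ, algebraMap (𝓞 F) (AllInt F) z - b ∈ P := by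
  obtain ⟨A, B, hAB⟩ := exists_int_coords hq0 hF hs hq z.isIntegral_coe
  obtain ⟨k, hk⟩ : ∃ k, l = 2 * k + 1 := by
    rcases hl.eq_two_or_odd' with h | h
    · exact absurd h hl2
    · exact h
  refine ⟨(k + 1) * (A + B * a), ?_⟩
  have h1 : z - ((k + 1) * (A + B * a) : ℤ) = (k + 1) * B * (sI hs - a) - z * l := by
    apply RingOfIntegers.ext
    have h8 : ((l : F)) = 2 * k + 1 := by
      rw [hk]
      push_cast
      ring
    simp only [map_mul, map_sub, map_add, map_natCast,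
      map_intCast, map_one, algebraMap_sI, Int.cast_mul, Int.cast_add, Int.cast_one,
      Int.cast_natCast] at hAB ⊢
    linear_combination ((k : F) + 1) * hAB + (algebraMap (𝓞 F) F z) * h8
  have h2 : algebraMap (𝓞 F) (AllInt F) z - (((k + 1) * (A + B * a) : ℤ) : AllInt F) =
      ((k + 1) * B : AllInt F) * algebraMap (𝓞 F) (AllInt F) (sI hs - a) -
      algebraMap (𝓞 F) (AllInt F) z * l := by
    have := congrArg (algebraMap (𝓞 F) (AllInt F)) h1
    simpa only [map_sub, map_mul, map_add, map_intCast, map_natCast, map_one] using this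
  rw [h2]
  exact P.sub_mem (P.mul_mem_left _ haP) (P.mul_mem_left _ hlP)

/-- The cardinality of the residue field at a prime of degree one. -/
lemma card_res {l : ℕ} (hl : l.Prime) {P : Ideal (AllInt F)} (hP : P.IsPrime)
    (hlP : (l : AllInt F) ∈ P)
    (hres : ∀ x : 𝓞 F, ∃ a : ℤ, algebraMap (𝓞 F) (AllInt F) x - a ∈ P) :
    Nat.card (𝓞 F ⧸ P.under (𝓞 F)) = l := by
  have hprime : (P.under (𝓞 F)).IsPrime := Ideal.IsPrime.under (𝓞 F) P
  have hlp : (l : 𝓞 F) ∈ P.under (𝓞 F) := by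
    rw [Ideal.mem_comap, map_natCast]
    exact hlP
  let f : ℤ →+* 𝓞 F ⧸ P.under (𝓞 F) := Int.castRingHom _
  have hf : Function.Surjective f := by
    intro x
    obtain ⟨x, rfl⟩ := Ideal.Quotient.mk_surjective x
    obtain ⟨a, ha⟩ := hres x
    refine ⟨a, ?_⟩
    have h1 : f a = Ideal.Quotient.mk _ (a : 𝓞 F) := by
      rw [map_intCast]
      rfl
    rw [h1, eq_comm, Ideal.Quotient.eq, Ideal.mem_comap, map_sub, map_intCast]
    exact ha
  have hker : RingHom.ker f = Ideal.span {(l : ℤ)} := by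
    have hmax : (Ideal.span {(l : ℤ)}).IsMaximal := by
      apply PrincipalIdealRing.isMaximal_of_irreducible
      exact (Nat.prime_iff_prime_int.mp hl).irreducible
    symm
    apply hmax.eq_of_le
    · exact RingHom.ker_ne_top f
    · rw [Ideal.span_singleton_le_iff_mem, RingHom.mem_ker]
      have h1 : f l = Ideal.Quotient.mk _ (l : 𝓞 F) := by
        rw [map_natCast, map_natCast]
      rw [h1, Ideal.Quotient.eq_zero_iff_mem]
      exact hlp
  have e := (RingHom.quotientKerEquivOfSurjective hf).symm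
  rw [Nat.card_congr e.toEquiv, hker]
  rw [Nat.card_congr (Int.quotientSpanNatEquivZMod l).toEquiv, Nat.card_zmod]

include hq0 hF hs hq in
/-- Odd primes other than `q` generate radical ideals. -/
lemma dvd_of_dvd_pow' {l : ℕ} (hl : l.Prime) (hl2 : l ≠ 2) (hlq : l ≠ q) {z : 𝓞 F} {n : ℕ}
    (hn : 0 < n) (h : (l : 𝓞 F) ∣ z ^ n) : (l : 𝓞 F) ∣ z := by
  induction n using Nat.strong_induction_on with
  | _ n ih =>
    rcases (by omega : n = 1 ∨ 2 ≤ n) with rfl | h2
    · rwa [pow_one] at h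
    · refine ih ((n + 1) / 2) (by omega) (by omega) ?_
      apply dvd_of_dvd_sq hq0 hF hs hq hl hl2 hlq
      rw [← pow_mul]
      exact h.trans (pow_dvd_pow z (by omega))

/-- Rational integers in a prime containing `l`. -/
lemma dvd_of_mem_under {l : ℕ} (hl : l.Prime) {P : Ideal (AllInt F)} (hP : P.IsPrime)
    (hlP : (l : AllInt F) ∈ P) {b : ℤ} (hb : (b : AllInt F) ∈ P) : (l : ℤ) ∣ b := by
  by_contra hcon
  have h1 : IsCoprime (l : ℤ) b :=
    ((Nat.prime_iff_prime_int.mp hl).coprime_iff_not_dvd).mpr hcon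
  obtain ⟨u, w, huw⟩ := h1
  apply hP.ne_top
  rw [Ideal.eq_top_iff_one]
  have h2 : (1 : AllInt F) = u * l + w * b := by
    have := congrArg (fun t : ℤ => (t : AllInt F)) huw
    push_cast at this
    exact this.symm
  rw [h2]
  exact P.add_mem (P.mul_mem_left _ hlP) (P.mul_mem_left _ hb)

include hq0 hF hs hq in
/-- Generators of powers of split primes. -/
lemma split_gen (hq8 : q % 8 = 7) {l : ℕ} (hl : l.Prime) (hl2 : l ≠ 2) (hlq : l ≠ q) {a : ℤ}
    {P : Ideal (AllInt F)} (hP : P.IsPrime) (hlP : (l : AllInt F) ∈ P)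
    (haP : algebraMap (𝓞 F) (AllInt F) (sI hs - a) ∈ P) {N : ℕ} (hN : 0 < N) {lam : 𝓞 F}
    (h : (P.under (𝓞 F)) ^ N = Ideal.span {lam}) :
    ∃ x y : ℤ, (lam : F) = x + y * s ∧ x ^ 2 + q * y ^ 2 = l ^ N ∧ IsCoprime x y ∧
      (l : ℤ) ∣ x + y * a ∧ Algebra.norm ℤ lam = l ^ N := by
  have hres := split_res hq0 hF hs hq hl hl2 hlP haP
  have hcard := card_res hl hP hlP hres
  obtain ⟨A, B, hAB⟩ := exists_int_coords hq0 hF hs hq lam.isIntegral_coe
  have h4 := four_norm hq0 hF hs hAB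
  have hnonneg : 0 ≤ Algebra.norm ℤ lam := by
    nlinarith [sq_nonneg A, mul_nonneg (Int.natCast_nonneg q) (sq_nonneg B)]
  have hnorm : Algebra.norm ℤ lam = l ^ N := by
    have h1 : (Algebra.norm ℤ lam).natAbs = l ^ N := by
      rw [← Ideal.absNorm_span_singleton, ← h, map_pow]
      congr 1
    rw [← Int.natAbs_of_nonneg hnonneg, h1]
    push_cast
    rfl
  have hlN : ((l : ℤ) ^ N) % 2 = 1 := by
    have h1 : (l : ℤ) % 2 = 1 := by
      have := hl.eq_two_or_odd'.resolve_left hl2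
      rw [Nat.odd_iff] at this
      omega
    rw [← Int.odd_iff] at h1 ⊢
    exact h1.pow
  rw [hnorm] at h4
  have hq8' : (q : ℤ) % 8 = 7 := by omega
  have hAB2 : A % 2 = 0 ∧ B % 2 = 0 := by
    have hm : (4 * (l : ℤ) ^ N) % 8 = ((A ^ 2 % 8) + 7 * (B ^ 2 % 8)) % 8 := by
      rw [h4, Int.add_emod, Int.mul_emod (q : ℤ), hq8']
      omega
    have hsq : ∀ t : ℤ, (t % 2 = 1 → t ^ 2 % 8 = 1) ∧ (t % 2 = 0 → t ^ 2 % 8 = 0 ∨ t ^ 2 % 8 = 4) := by
      intro t
      have h1 : t % 8 = 0 ∨ t % 8 = 1 ∨ t % 8 = 2 ∨ t % 8 = 3 ∨ t % 8 = 4 ∨ t % 8 = 5 ∨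
        t % 8 = 6 ∨ t % 8 = 7 := by omega
      rw [sq, Int.mul_emod]
      rcases h1 with h | h | h | h | h | h | h | h <;> rw [h] <;>
        exact ⟨fun _ => by first | rfl | omega, fun _ => by first | exact Or.inl rfl | exact Or.inr rfl | omega⟩
    obtain ⟨ha1, ha2⟩ := hsq A
    obtain ⟨hb1, hb2⟩ := hsq B
    rcases (by omega : A % 2 = 0 ∨ A % 2 = 1) with hA | hA <;>
      rcases (by omega : B % 2 = 0 ∨ B % 2 = 1) with hB | hB
    · exact ⟨hA, hB⟩
    · have h5 := ha2 hA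
      have h6 := hb1 hB
      omega
    · have h5 := ha1 hA
      have h6 := hb2 hB
      omega
    · have h5 := ha1 hA
      have h6 := hb1 hB
      omega
  obtain ⟨x, hx⟩ : ∃ x, A = 2 * x := ⟨A / 2, by omega⟩
  obtain ⟨y, hy⟩ : ∃ y, B = 2 * y := ⟨B / 2, by omega⟩
  subst hx hy
  have hlam : (lam : F) = x + y * s := by
    have h2 : (2 : F) ≠ 0 := two_ne_zero
    apply mul_left_cancel₀ h2
    rw [hAB]
    push_cast
    ring
  have hn : x ^ 2 + q * y ^ 2 = (l : ℤ) ^ N := by linarith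
  have hlamP : algebraMap (𝓞 F) (AllInt F) lam ∈ P := by
    have h1 : lam ∈ (P.under (𝓞 F)) ^ N := by rw [h]; exact Ideal.mem_span_singleton_self _
    have h2 : lam ∈ P.under (𝓞 F) := Ideal.pow_le_self hN.ne' h1
    exact h2
  refine ⟨x, y, hlam, hn, ?_, ?_, hnorm⟩
  · rw [Int.isCoprime_iff_gcd_eq_one]
    by_contra hcon
    obtain ⟨p, hp, hpd⟩ := Nat.exists_prime_and_dvd hcon
    have hpx : (p : ℤ) ∣ x := (Int.natCast_dvd_natCast.mpr hpd).trans (Int.gcd_dvd_left _ _)
    have hpy : (p : ℤ) ∣ y := (Int.natCast_dvd_natCast.mpr hpd).trans (Int.gcd_dvd_right _ _)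
    have hpl : p = l := by
      have h1 : (p : ℤ) ∣ (l : ℤ) ^ N := by
        rw [← hn]
        exact dvd_add (dvd_pow hpx two_ne_zero) ((dvd_pow hpy two_ne_zero).mul_left _)
      have h2 := (Nat.prime_iff_prime_int.mp hp).dvd_of_dvd_pow h1
      exact (Nat.prime_dvd_prime_iff_eq hp hl).mp (by exact_mod_cast h2)
    subst hpl
    obtain ⟨x', rfl⟩ := hpx
    obtain ⟨y', rfl⟩ := hpy
    have hlam' : lam = p * (x' + y' * sI hs) := by
      apply RingOfIntegers.ext
      have h1 : ((p * (x' + y' * sI hs) : 𝓞 F) : F) = p * (x' + y' * s) := by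
        rw [RingOfIntegers.coe_eq_algebraMap]
        simp only [map_mul, map_add, map_natCast, map_intCast, algebraMap_sI]
      refine Eq.trans ?_ h1.symm
      refine hlam.trans ?_
      push_cast
      ring
    have h1 : (sI hs - a) ^ N ∈ Ideal.span {lam} := by
      rw [← h]
      have h2 : sI hs - a ∈ P.under (𝓞 F) := haP
      exact Ideal.pow_mem_pow h2 N
    rw [Ideal.mem_span_singleton] at h1
    have h2 : (p : 𝓞 F) ∣ (sI hs - a) ^ N := (Dvd.intro _ hlam'.symm).trans h1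
    obtain ⟨w, hw⟩ := dvd_of_dvd_pow' hq0 hF hs hq hl hl2 hlq hN h2
    obtain ⟨C, D, hCD⟩ := exists_int_coords hq0 hF hs hq w.isIntegral_coe
    have h3 : (s : F) - a = p * (w : F) := by
      have := congrArg (fun t : 𝓞 F => algebraMap (𝓞 F) F t) hw
      simpa only [map_sub, map_intCast, map_mul, map_natCast, algebraMap_sI] using this
    have h5 : ((-2 * a : ℚ) : F) + ((2 : ℚ) : F) * s = ((p * C : ℚ) : F) + ((p * D : ℚ) : F) * s := by
      push_cast
      linear_combination 2 * h3 + (p : F) * hCD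
    obtain ⟨-, h6⟩ := coords_inj hq0 hs h5
    have h7 : (2 : ℤ) = p * D := by exact_mod_cast h6
    have h8 : (p : ℤ) ∣ 2 := ⟨D, h7⟩
    have h9 : p ∣ 2 := by exact_mod_cast h8
    exact hl2 ((Nat.prime_dvd_prime_iff_eq hl Nat.prime_two).mp h9)
  · apply dvd_of_mem_under hl hP hlP
    have h1 : lam = ((x + y * a : ℤ) : 𝓞 F) + y * (sI hs - a) := by
      apply RingOfIntegers.ext
      have h1 : ((((x + y * a : ℤ) : 𝓞 F) + y * (sI hs - a) : 𝓞 F) : F) = x + y * s := by
        rw [RingOfIntegers.coe_eq_algebraMap]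
        simp only [map_mul, map_add, map_sub, map_intCast, algebraMap_sI]
        push_cast
        ring
      exact hlam.trans h1.symm
    have h2 := congrArg (algebraMap (𝓞 F) (AllInt F)) h1
    rw [map_add, map_intCast, map_mul] at h2
    have h3 := P.sub_mem hlamP (P.mul_mem_left (algebraMap (𝓞 F) (AllInt F) y) haP)
    rw [h2, add_sub_cancel_right] at h3
    exact h3

end

end Pool.Agent.Lib.MP_7c08ba_nt
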