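import Mathlib

set_option autoImplicit false

/-!
The explicit reciprocity for canonical Hecke characters of `ℚ(√-q)`, `q ≡ 7 (mod 8)`.
-/

namespace Pool.Agent.Lib.MP_7c08ba_nt

/-- The sign of an odd integer modulo four. -/
def sg (t : ℤ) : ℤ := if t % 4 = 1 then 1 else -1

lemma sg_mul {a b : ℤ} (ha : a % 2 = 1) (hb : b % 2 = 1) : sg (a * b) = sg a * sg b := by
  unfold sg
  have h := Int.mul_emod a b 4
  have ha' : a % 4 = 1 ∨ a % 4 = 3 := by omega
  have hb' : b % 4 = 1 ∨ b % 4 = 3 := by omega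
  rcases ha' with h1 | h1 <;> rcases hb' with h2 | h2 <;> rw [h1, h2] at h <;> rw [h, h1, h2] <;>
    norm_num

lemma jacobi_neg_one {n : ℕ} (hn : n % 2 = 1) : jacobiSym (-1) n = sg n := by
  rw [jacobiSym.at_neg_one (Nat.odd_iff.mpr hn), ZMod.χ₄_nat_eq_if_mod_four, if_neg (by omega)]
  unfold sg
  by_cases h : n % 4 = 1
  · rw [if_pos h, if_pos (by omega)]
  · rw [if_neg h, if_neg (by omega)]

lemma jacobi_two {n : ℕ} (hn : n % 2 = 1) : ((n % 8 = 1 ∨ n % 8 = 7) → jacobiSym 2 n = 1) ∧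
    ((n % 8 = 3 ∨ n % 8 = 5) → jacobiSym 2 n = -1) := by
  rw [jacobiSym.at_two (Nat.odd_iff.mpr hn), ZMod.χ₈_nat_eq_if_mod_eight, if_neg (by omega)]
  constructor
  · intro h
    rw [if_pos h]
  · intro h
    rw [if_neg (by omega)]

lemma decomp_int {x : ℤ} (hx : x ≠ 0) : ∃ (ε : ℤ) (a m : ℕ), (ε = 1 ∨ ε = -1) ∧ m % 2 = 1 ∧
    x = ε * 2 ^ a * m := by
  obtain ⟨a, m, hm, h⟩ := Nat.exists_eq_two_pow_mul_odd (Int.natAbs_ne_zero.mpr hx)
  rw [Nat.odd_iff] at hm
  rcases Int.natAbs_eq x with h1 | h1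
  · refine ⟨1, a, m, Or.inl rfl, hm, ?_⟩
    rw [h1, h]
    push_cast
    ring
  · refine ⟨-1, a, m, Or.inr rfl, hm, ?_⟩
    rw [h1, h]
    push_cast
    ring

/-- The symbol of `x² + q y²` modulo an odd divisor of `x`. -/
lemma jacobi_norm_of_dvd {q : ℕ} {x y : ℤ} (hcop : IsCoprime x y) {n : ℕ}
    (hn : x ^ 2 + q * y ^ 2 = n) {m : ℕ} (hm : (m : ℤ) ∣ x) :
    jacobiSym (n : ℤ) m = jacobiSym (q : ℤ) m := by
  have h1 : ((n : ℤ)) % m = (q * y ^ 2) % m := by
    rw [← hn]
    apply Int.ModEq.symm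
    rw [Int.modEq_iff_dvd]
    have : x ^ 2 + q * y ^ 2 - q * y ^ 2 = x ^ 2 := by ring
    rw [this]
    exact dvd_pow hm two_ne_zero
  have h2 : Int.gcd y m = 1 := by
    obtain ⟨k, hk⟩ := hm
    rw [← Int.isCoprime_iff_gcd_eq_one]
    rw [hk] at hcop
    exact (IsCoprime.of_mul_left_left hcop).symm
  rw [jacobiSym.mod_left' h1, jacobiSym.mul_left, jacobiSym.sq_one' h2, mul_one]

/-- The symbol of `x² + q y²` modulo an odd divisor of `y`. -/
lemma jacobi_norm_of_dvd' {q : ℕ} {x y : ℤ} (hcop : IsCoprime x y) {n : ℕ}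
    (hn : x ^ 2 + q * y ^ 2 = n) {m : ℕ} (hm : (m : ℤ) ∣ y) :
    jacobiSym (n : ℤ) m = 1 := by
  have h1 : ((n : ℤ)) % m = (x ^ 2) % m := by
    rw [← hn]
    apply Int.ModEq.symm
    rw [Int.modEq_iff_dvd]
    have : x ^ 2 + q * y ^ 2 - x ^ 2 = q * y ^ 2 := by ring
    rw [this]
    exact (dvd_pow hm two_ne_zero).mul_left _
  have h2 : Int.gcd x m = 1 := by
    obtain ⟨k, hk⟩ := hm
    rw [← Int.isCoprime_iff_gcd_eq_one]
    rw [hk] at hcop
    exact IsCoprime.of_mul_right_left hcop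
  rw [jacobiSym.mod_left' h1, jacobiSym.sq_one' h2]

lemma sq_mod_eight_of_odd {t : ℤ} (h : t % 2 = 1) : t ^ 2 % 8 = 1 := by
  have h1 : t % 8 = 1 ∨ t % 8 = 3 ∨ t % 8 = 5 ∨ t % 8 = 7 := by omega
  rw [sq, Int.mul_emod]
  rcases h1 with h | h | h | h <;> rw [h] <;> rfl

lemma sq_mod_eight_of_two {t : ℤ} (h : t % 4 = 2) : t ^ 2 % 8 = 4 := by
  have h1 : t % 8 = 2 ∨ t % 8 = 6 := by omega
  rw [sq, Int.mul_emod]
  rcases h1 with h | h <;> rw [h] <;> rfl

lemma sq_mod_eight_of_four {t : ℤ} (h : t % 4 = 0) : t ^ 2 % 8 = 0 := by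
  have h1 : t % 8 = 0 ∨ t % 8 = 4 := by omega
  rw [sq, Int.mul_emod]
  rcases h1 with h | h <;> rw [h] <;> rfl

/-- The explicit reciprocity. -/
theorem core_recip {q : ℕ} (hq8 : q % 8 = 7) {x y : ℤ} (hcop : IsCoprime x y) {n : ℕ}
    (hn : x ^ 2 + q * y ^ 2 = n) (hodd : n % 2 = 1) (hx0 : x ≠ 0) (hy0 : y ≠ 0) :
    jacobiSym (-(x * y)) n = jacobiSym x q * sg (x - y) := by
  have hq2 : Odd q := Nat.odd_iff.mpr (by omega)
  have hn8 : ((n : ℤ)) % 8 = ((x ^ 2 % 8) + 7 * (y ^ 2 % 8)) % 8 := by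
    rw [← hn, Int.add_emod, Int.mul_emod (q : ℤ)]
    have : (q : ℤ) % 8 = 7 := by omega
    rw [this]
    omega
  have hneg : -(x * y) = -1 * x * y := by ring
  obtain ⟨εx, a, m, hεx, hm, hx⟩ := decomp_int hx0
  obtain ⟨εy, b, l, hεy, hl, hy⟩ := decomp_int hy0
  have hmx : (m : ℤ) ∣ x := ⟨εx * 2 ^ a, by rw [hx]; ring⟩
  have hly : (l : ℤ) ∣ y := ⟨εy * 2 ^ b, by rw [hy]; ring⟩
  have hJm := jacobi_norm_of_dvd hcop hn hmx
  have hJl := jacobi_norm_of_dvd' hcop hn hly
  have hsε : ∀ (ε : ℤ) (k : ℕ), (ε = 1 ∨ ε = -1) → k % 2 = 1 →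
      jacobiSym ε k = if ε = 1 then 1 else sg k := by
    intro ε k hε hk
    rcases hε with rfl | rfl
    · rw [if_pos rfl, jacobiSym.one_left]
    · rw [if_neg (by norm_num), jacobi_neg_one hk]
  have hq4 : sg q = -1 := by
    unfold sg
    rw [if_neg (by omega)]
  have h2q := (jacobi_two (n := q) (by omega)).1 (Or.inr hq8)
  -- the odd part of `x` and `q`
  have hmq : jacobiSym (q : ℤ) m = sg m * jacobiSym (m : ℤ) q := by
    unfold sg
    by_cases h : m % 4 = 1
    · rw [if_pos (by omega), one_mul]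
      exact (jacobiSym.quadratic_reciprocity_one_mod_four h hq2).symm
    · rw [if_neg (by omega), neg_one_mul]
      exact jacobiSym.quadratic_reciprocity_three_mod_four (by omega) (by omega)
  -- coprimality excludes both even
  have hnot : ¬ (x % 2 = 0 ∧ y % 2 = 0) := by
    rintro ⟨h1, h2⟩
    have h3 : (2 : ℤ) ∣ x := Int.dvd_of_emod_eq_zero h1
    have h4 : (2 : ℤ) ∣ y := Int.dvd_of_emod_eq_zero h2
    exact Int.prime_two.not_isUnit (hcop.isUnit_of_dvd' h3 h4)
  have hpow : ∀ (ε : ℤ) (k m : ℕ), (ε = 1 ∨ ε = -1) → m % 2 = 1 →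
      ((ε * 2 ^ k * m) % 2 = 1 ↔ k = 0) ∧ (((ε * 2 ^ k * m) % 4 = 2) ↔ k = 1) := by
    intro ε k m hε hm
    rcases Nat.eq_zero_or_pos k with rfl | hk
    · rw [pow_zero, mul_one]
      rcases hε with rfl | rfl <;> constructor <;> constructor <;> intro h <;> omega
    · rcases (by omega : k = 1 ∨ 2 ≤ k) with rfl | hk2
      · rw [pow_one]
        rcases hε with rfl | rfl <;> constructor <;> constructor <;> intro h <;> omega
      · obtain ⟨k', rfl⟩ := Nat.exists_eq_add_of_le hk2
        have h1 : ε * 2 ^ (2 + k') * m = 4 * (ε * 2 ^ k' * m) := by rw [pow_add]; ring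
        rw [h1]
        constructor <;> constructor <;> intro h <;> omega
  have hxodd := hpow εx a m hεx hm
  have hyodd := hpow εy b l hεy hl
  rw [← hx] at hxodd
  rw [← hy] at hyodd
  have hmodd := sq_mod_eight_of_odd (t := x)
  have hJx : jacobiSym x n = jacobiSym εx n * jacobiSym 2 n ^ a * jacobiSym (m : ℤ) n := by
    conv_lhs => rw [hx]
    rw [jacobiSym.mul_left, jacobiSym.mul_left, jacobiSym.pow_left]
  have hJy : jacobiSym y n = jacobiSym εy n * jacobiSym 2 n ^ b * jacobiSym (l : ℤ) n := by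
    conv_lhs => rw [hy]
    rw [jacobiSym.mul_left, jacobiSym.mul_left, jacobiSym.pow_left]
  have hJxq : jacobiSym x q = jacobiSym εx q * jacobiSym (m : ℤ) q := by
    conv_lhs => rw [hx]
    rw [jacobiSym.mul_left, jacobiSym.mul_left, jacobiSym.pow_left, h2q, one_pow, mul_one]
  rw [hneg, jacobiSym.mul_left, jacobiSym.mul_left, jacobi_neg_one hodd, hJx, hJy, hJxq,
    hsε εx n hεx hodd, hsε εy n hεy hodd, hsε εx q hεx (by omega), hq4]
  rcases (by omega : y % 2 = 0 ∨ y % 2 = 1) with hy2 | hy2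
  · -- `y` even, `x` odd
    have hx2 : x % 2 = 1 := by omega
    have ha : a = 0 := hxodd.1.mp hx2
    have hb : b ≠ 0 := fun h => by
      have := hyodd.1.mpr h
      omega
    have hx8 := sq_mod_eight_of_odd hx2
    have hn4 : n % 4 = 1 := by
      rcases (by omega : y % 4 = 0 ∨ y % 4 = 2) with h | h
      · have := sq_mod_eight_of_four h
        omega
      · have := sq_mod_eight_of_two h
        omega
    have hsn : sg n = 1 := by
      unfold sg
      rw [if_pos (by omega)]
    have hmn : jacobiSym (m : ℤ) n = sg m * jacobiSym (m : ℤ) q := by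
      rw [jacobiSym.quadratic_reciprocity_one_mod_four' (Nat.odd_iff.mpr hm) hn4, hJm, hmq]
    have hln : jacobiSym (l : ℤ) n = 1 := by
      rw [jacobiSym.quadratic_reciprocity_one_mod_four' (Nat.odd_iff.mpr hl) hn4, hJl]
    have h2b : jacobiSym 2 n ^ b = if y % 4 = 0 then 1 else -1 := by
      rcases (by omega : y % 4 = 0 ∨ y % 4 = 2) with h | h
      · rw [if_pos h, (jacobi_two hodd).1, one_pow]
        have := sq_mod_eight_of_four h
        omega
      · rw [if_neg (by omega), hyodd.2.mp h, pow_one]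
        apply (jacobi_two hodd).2
        have := sq_mod_eight_of_two h
        omega
    have hsg : sg (x - y) = (if y % 4 = 0 then 1 else -1) * sg x := by
      unfold sg
      rcases (by omega : y % 4 = 0 ∨ y % 4 = 2) with h | h <;>
        rcases (by omega : x % 4 = 1 ∨ x % 4 = 3) with h' | h'
      · rw [if_pos (by omega), if_pos h, if_pos h']; norm_num
      · rw [if_neg (by omega), if_pos h, if_neg (by omega)]; norm_num
      · rw [if_neg (by omega), if_neg (by omega), if_pos h']; norm_num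
      · rw [if_pos (by omega), if_neg (by omega), if_neg (by omega)]; norm_num
    have hsx : sg x = εx * sg m := by
      rw [ha, pow_zero, mul_one] at hx
      rw [hx, sg_mul (by rcases hεx with rfl | rfl <;> norm_num) (by omega)]
      rcases hεx with rfl | rfl <;> rfl
    rw [hsn, hmn, hln, h2b, hsg, hsx, ha, pow_zero]
    generalize (if y % 4 = 0 then (1 : ℤ) else -1) = T
    rcases hεx with rfl | rfl <;> rcases hεy with rfl | rfl <;> simp <;> ring
  · -- `y` odd, `x` even
    have hx2 : x % 2 = 0 := by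
      rcases (by omega : x % 2 = 0 ∨ x % 2 = 1) with h | h
      · exact h
      · exfalso
        have h1 := sq_mod_eight_of_odd h
        have h2 := sq_mod_eight_of_odd hy2
        omega
    have hb : b = 0 := hyodd.1.mp hy2
    have hy8 := sq_mod_eight_of_odd hy2
    have hn4 : n % 4 = 3 := by
      rcases (by omega : x % 4 = 0 ∨ x % 4 = 2) with h | h
      · have := sq_mod_eight_of_four h
        omega
      · have := sq_mod_eight_of_two h
        omega
    have hsn : sg n = -1 := by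
      unfold sg
      rw [if_neg (by omega)]
    have hrec : ∀ k : ℕ, k % 2 = 1 → jacobiSym (k : ℤ) n = sg k * jacobiSym (n : ℤ) k := by
      intro k hk
      unfold sg
      by_cases h : k % 4 = 1
      · rw [if_pos (by omega), one_mul]
        exact jacobiSym.quadratic_reciprocity_one_mod_four h (Nat.odd_iff.mpr hodd)
      · rw [if_neg (by omega), neg_one_mul]
        exact jacobiSym.quadratic_reciprocity_three_mod_four (by omega) hn4
    have hss : sg m * sg m = 1 := by
      unfold sg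
      split_ifs <;> norm_num
    have hmn : jacobiSym (m : ℤ) n = jacobiSym (m : ℤ) q := by
      rw [hrec m hm, hJm, hmq, ← mul_assoc, hss, one_mul]
    have hln : jacobiSym (l : ℤ) n = sg l := by
      rw [hrec l hl, hJl, mul_one]
    have h2a : jacobiSym 2 n ^ a = if x % 4 = 0 then 1 else -1 := by
      rcases (by omega : x % 4 = 0 ∨ x % 4 = 2) with h | h
      · rw [if_pos h, (jacobi_two hodd).1, one_pow]
        have := sq_mod_eight_of_four h
        omega
      · rw [if_neg (by omega), hxodd.2.mp h, pow_one]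
        apply (jacobi_two hodd).2
        have := sq_mod_eight_of_two h
        omega
    have hsg : sg (x - y) = -((if x % 4 = 0 then 1 else -1) * sg y) := by
      unfold sg
      rcases (by omega : x % 4 = 0 ∨ x % 4 = 2) with h | h <;>
        rcases (by omega : y % 4 = 1 ∨ y % 4 = 3) with h' | h'
      · rw [if_neg (by omega), if_pos h, if_pos h']; norm_num
      · rw [if_pos (by omega), if_pos h, if_neg (by omega)]; norm_num
      · rw [if_pos (by omega), if_neg (by omega), if_pos h']; norm_num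
      · rw [if_neg (by omega), if_neg (by omega), if_neg (by omega)]; norm_num
    have hsy : sg y = εy * sg l := by
      rw [hb, pow_zero, mul_one] at hy
      rw [hy, sg_mul (by rcases hεy with rfl | rfl <;> norm_num) (by omega)]
      rcases hεy with rfl | rfl <;> rfl
    rw [hsn, hmn, hln, h2a, hsg, hsy, hb, pow_zero]
    generalize (if x % 4 = 0 then (1 : ℤ) else -1) = T
    rcases hεx with rfl | rfl <;> rcases hεy with rfl | rfl <;> simp <;> ring

end Pool.Agent.Lib.MP_7c08ba_nt
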