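import Mathlib
import Pool.Agent.Lib.MP_7c08ba_nt.Tw.Recip

set_option autoImplicit false

/-!
Primes with prescribed quadratic symbols (from Dirichlet's theorem).
-/

namespace Pool.Agent.Lib.MP_7c08ba_nt

lemma gcd_eq_one_of_lt {a : ℤ} {l : ℕ} (hl : l.Prime) (ha : a ≠ 0) (h : a.natAbs < l) :
    Int.gcd a l = 1 := by
  rw [Int.gcd, Int.natAbs_natCast]
  have h1 : ¬ l ∣ a.natAbs := fun h' =>
    absurd (Nat.le_of_dvd (Int.natAbs_pos.mpr ha) h') (not_le.mpr h)
  exact Nat.Coprime.symm ((Nat.Prime.coprime_iff_not_dvd hl).mpr h1)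

lemma squarefree_two {a : ℕ} (ha : Squarefree a) (h : ∀ p, p.Prime → p ∣ a → p = 2) :
    a = 1 ∨ a = 2 := by
  by_cases h1 : a = 1
  · exact Or.inl h1
  · right
    obtain ⟨p, hp, hpa⟩ := Nat.exists_prime_and_dvd h1
    have hp2 := h p hp hpa
    subst hp2
    obtain ⟨b, rfl⟩ := hpa
    by_cases hb : b = 1
    · rw [hb]
    · exfalso
      obtain ⟨p, hp, hpb⟩ := Nat.exists_prime_and_dvd hb
      have hp2 := h p hp (hpb.mul_left 2)
      subst hp2
      obtain ⟨b, rfl⟩ := hpb
      have h3 := ha 2 ⟨b, by ring⟩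
      rw [Nat.isUnit_iff] at h3
      norm_num at h3

/-- A nonsquare integer is a nonresidue modulo some large prime. -/
theorem exists_prime_jacobi {M : ℤ} (hM : ¬ IsSquare M) (B : ℕ) :
    ∃ l > B, l.Prime ∧ jacobiSym M l = -1 := by
  have hM0 : M ≠ 0 := by
    rintro rfl
    exact hM ⟨0, by ring⟩
  obtain ⟨a, b, hab, hsf⟩ := Nat.sq_mul_squarefree M.natAbs
  have hb0 : b ≠ 0 := by
    rintro rfl
    rw [zero_pow two_ne_zero, zero_mul] at hab
    exact hM0 (Int.natAbs_eq_zero.mp hab.symm)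
  obtain ⟨ε, hε, hMε⟩ : ∃ ε : ℤ, (ε = 1 ∨ ε = -1) ∧ M = ε * a * b ^ 2 := by
    rcases Int.natAbs_eq M with h | h
    · refine ⟨1, Or.inl rfl, ?_⟩
      rw [h, ← hab]
      push_cast
      ring
    · refine ⟨-1, Or.inr rfl, ?_⟩
      rw [h, ← hab]
      push_cast
      ring
  have hred : ∀ l : ℕ, l.Prime → b < l → jacobiSym M l = jacobiSym (ε * a) l := by
    intro l hl hbl
    have h1 : Int.gcd (b : ℤ) l = 1 := gcd_eq_one_of_lt hl (by exact_mod_cast hb0) (by simpa using hbl)
    rw [hMε, jacobiSym.mul_left, jacobiSym.sq_one' h1, mul_one]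
  by_cases hodd : ∃ p, p.Prime ∧ p ∣ a ∧ p ≠ 2
  · obtain ⟨p, hp, ⟨a', rfl⟩, hp2⟩ := hodd
    have : Fact p.Prime := ⟨hp⟩
    have hcop : Nat.Coprime p a' := Nat.coprime_of_squarefree_mul hsf
    have ha'0 : a' ≠ 0 := by
      rintro rfl
      rw [mul_zero] at hsf
      exact not_squarefree_zero hsf
    have hpo : p % 2 = 1 := Nat.odd_iff.mp (hp.eq_two_or_odd'.resolve_left hp2)
    have hcop4 : Nat.Coprime (4 * a') p := by
      rw [Nat.coprime_mul_iff_left]
      refine ⟨?_, hcop.symm⟩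
      have h2 : Nat.Coprime 2 p := by
        rw [Nat.coprime_primes Nat.prime_two hp]
        exact Ne.symm hp2
      exact Nat.Coprime.pow_left 2 h2
    obtain ⟨c, hc⟩ := FiniteField.exists_nonsquare (F := ZMod p) (by
      rw [ZMod.ringChar_zmod_n]
      exact hp2)
    obtain ⟨t, ht1, ht2⟩ := Nat.chineseRemainder hcop4 1 c.val
    have hcc : ((c.val : ℕ) : ZMod p) = c := ZMod.natCast_zmod_val c
    have htp : ((t : ℕ) : ZMod p) = c := by
      rw [← hcc]
      exact (ZMod.natCast_eq_natCast_iff _ _ _).mpr ht2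
    have hc0 : c ≠ 0 := by
      rintro rfl
      exact hc ⟨0, by ring⟩
    have htcop : Nat.Coprime t (4 * a' * p) := by
      rw [Nat.coprime_mul_iff_right]
      constructor
      · have := Nat.ModEq.gcd_eq ht1
        rw [Nat.Coprime, this]
        simp
      · rw [Nat.Coprime, Nat.gcd_comm]
        exact (Nat.Prime.coprime_iff_not_dvd hp).mpr fun h => hc0 (by
          rw [← htp]
          exact (ZMod.natCast_eq_zero_iff t p).mpr h)
    obtain ⟨l, hlB, hl, hlt⟩ := Nat.forall_exists_prime_gt_and_modEq (max B (max b 2))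
      (q := 4 * a' * p) (a := t) (mul_ne_zero (mul_ne_zero (by norm_num) ha'0) hp.ne_zero) htcop
    have hl1 : l ≡ 1 [MOD 4 * a'] := (hlt.of_mul_right p).trans ht1
    have hl2 : ((l : ℕ) : ZMod p) = c := by
      rw [← htp]
      exact (ZMod.natCast_eq_natCast_iff _ _ _).mpr (hlt.of_mul_left (4 * a'))
    have hl4 : l % 4 = 1 := by
      have : l ≡ 1 [MOD 4] := hl1.of_mul_right a'
      exact this
    refine ⟨l, lt_of_le_of_lt (le_max_left _ _) hlB, hl, ?_⟩
    rw [hred l hl (lt_of_le_of_lt ((le_max_left _ _).trans (le_max_right _ _)) hlB)]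
    have h1 : (ε * ((p * a' : ℕ) : ℤ)) = (p : ℤ) * (ε * a') := by
      push_cast
      ring
    have h2 : jacobiSym (ε * a') l = 1 := by
      have h3 : (ε * (a' : ℤ)).natAbs = a' := by
        rw [Int.natAbs_mul, Int.natAbs_natCast]
        rcases hε with rfl | rfl <;> simp
      rw [jacobiSym.mod_right _ (Nat.odd_iff.mpr (by omega)), h3]
      have h4 : l % (4 * a') = 1 := by
        have h5 : 1 % (4 * a') = 1 := Nat.mod_eq_of_lt (by omega)
        have h6 : l % (4 * a') = 1 % (4 * a') := hl1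
        rw [h6, h5]
      rw [h4, jacobiSym.one_right]
    have h3 : jacobiSym (p : ℤ) l = -1 := by
      rw [jacobiSym.quadratic_reciprocity_one_mod_four' (Nat.odd_iff.mpr hpo) hl4,
        ← jacobiSym.legendreSym.to_jacobiSym, legendreSym.eq_neg_one_iff]
      rw [Int.cast_natCast, hl2]
      exact hc
    rw [h1, jacobiSym.mul_left, h2, h3]
    norm_num
  · push Not at hodd
    have ha := squarefree_two hsf hodd
    rcases ha with rfl | rfl
    · -- `a = 1`, `ε = -1`
      have hε1 : ε = -1 := by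
        rcases hε with rfl | rfl
        · exfalso
          apply hM
          refine ⟨b, ?_⟩
          rw [hMε]
          push_cast
          ring
        · rfl
      obtain ⟨l, hlB, hl, hlt⟩ := Nat.forall_exists_prime_gt_and_modEq (max B b)
        (q := 4) (a := 3) (by norm_num) (by norm_num)
      have hl4 : l % 4 = 3 := hlt
      refine ⟨l, lt_of_le_of_lt (le_max_left _ _) hlB, hl, ?_⟩
      rw [hred l hl (lt_of_le_of_lt (le_max_right _ _) hlB), hε1]
      have h1 : (-1 * ((1 : ℕ) : ℤ)) = -1 := by norm_num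
      rw [h1, jacobi_neg_one (by omega)]
      unfold sg
      rw [if_neg (by omega)]
    · obtain ⟨l, hlB, hl, hlt⟩ := Nat.forall_exists_prime_gt_and_modEq (max B b)
        (q := 8) (a := 5) (by norm_num) (by norm_num)
      have hl8 : l % 8 = 5 := hlt
      refine ⟨l, lt_of_le_of_lt (le_max_left _ _) hlB, hl, ?_⟩
      rw [hred l hl (lt_of_le_of_lt (le_max_right _ _) hlB), jacobiSym.mul_left]
      have h1 : jacobiSym ((2 : ℕ) : ℤ) l = -1 := by
        have := (jacobi_two (n := l) (by omega)).2 (Or.inr hl8)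
        exact_mod_cast this
      have h2 : jacobiSym ε l = 1 := by
        rcases hε with rfl | rfl
        · exact jacobiSym.one_left l
        · rw [jacobi_neg_one (by omega)]
          unfold sg
          rw [if_pos (by omega)]
      rw [h1, h2]
      norm_num

/-- Primes with two prescribed symbols. -/
theorem exists_prime_two_jacobi {A M : ℤ} (hM : ¬ IsSquare M) (hAM : ¬ IsSquare (A * M)) (B : ℕ) :
    ∃ l > B, l.Prime ∧ jacobiSym A l = 1 ∧ jacobiSym M l = -1 := by
  have hM0 : M ≠ 0 := by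
    rintro rfl
    exact hM ⟨0, by ring⟩
  have hA0 : A ≠ 0 := by
    rintro rfl
    exact hAM ⟨0, by ring⟩
  set B' := max B (max A.natAbs (max M.natAbs 2)) with hB'
  have hB1 : B ≤ B' := le_max_left _ _
  have hB2 : A.natAbs ≤ B' := (le_max_left _ _).trans (le_max_right _ _)
  have hB3 : M.natAbs ≤ B' :=
    (le_max_left _ _).trans ((le_max_right _ _).trans (le_max_right _ _))
  have hB4 : 2 ≤ B' := (le_max_right _ _).trans ((le_max_right _ _).trans (le_max_right _ _))
  obtain ⟨l, hlB, hl, hlM⟩ := exists_prime_jacobi hM B'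
  obtain ⟨m, hmB, hm, hmM⟩ := exists_prime_jacobi hAM B'
  have hlA := jacobiSym.eq_one_or_neg_one (gcd_eq_one_of_lt hl hA0 (lt_of_le_of_lt hB2 hlB))
  have hmA := jacobiSym.eq_one_or_neg_one (gcd_eq_one_of_lt hm hA0 (lt_of_le_of_lt hB2 hmB))
  rcases hlA with hlA | hlA
  · exact ⟨l, lt_of_le_of_lt hB1 hlB, hl, hlA, hlM⟩
  rcases hmA with hmA | hmA
  · refine ⟨m, lt_of_le_of_lt hB1 hmB, hm, hmA, ?_⟩
    rw [jacobiSym.mul_left, hmA, one_mul] at hmM
    exact hmM
  -- the product of the two primes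
  have hmM' : jacobiSym M m = 1 := by
    rw [jacobiSym.mul_left, hmA] at hmM
    linarith
  have hlo : l % 2 = 1 := Nat.odd_iff.mp (hl.eq_two_or_odd'.resolve_left (by omega))
  have hmo : m % 2 = 1 := Nat.odd_iff.mp (hm.eq_two_or_odd'.resolve_left (by omega))
  have hn2 : (l * m) % 2 = 1 := by
    rw [Nat.mul_mod, hlo, hmo]
  have hJA : jacobiSym A (l * m) = 1 := by
    rw [jacobiSym.mul_right' _ hl.ne_zero hm.ne_zero, hlA, hmA]
    norm_num
  have hJM : jacobiSym M (l * m) = -1 := by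
    rw [jacobiSym.mul_right' _ hl.ne_zero hm.ne_zero, hlM, hmM']
    norm_num
  have hcopl : ∀ a : ℤ, a ≠ 0 → a.natAbs ≤ B' → Nat.Coprime (l * m) a.natAbs := by
    intro a ha hle
    rw [Nat.coprime_mul_iff_left]
    constructor
    · rw [Nat.Prime.coprime_iff_not_dvd hl]
      intro h
      have := Nat.le_of_dvd (Int.natAbs_pos.mpr ha) h
      omega
    · rw [Nat.Prime.coprime_iff_not_dvd hm]
      intro h
      have := Nat.le_of_dvd (Int.natAbs_pos.mpr ha) h
      omega
  have hcop : Nat.Coprime (l * m) (4 * (A.natAbs * M.natAbs)) := by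
    rw [Nat.coprime_mul_iff_right, Nat.coprime_mul_iff_right]
    refine ⟨?_, hcopl A hA0 hB2, hcopl M hM0 hB3⟩
    have h2 : Nat.Coprime (l * m) 2 := by
      rw [Nat.coprime_comm, Nat.Prime.coprime_iff_not_dvd Nat.prime_two]
      omega
    exact Nat.Coprime.pow_right 2 h2
  have hA1 : A.natAbs ≠ 0 := Int.natAbs_ne_zero.mpr hA0
  have hM1 : M.natAbs ≠ 0 := Int.natAbs_ne_zero.mpr hM0
  obtain ⟨k, hkB, hk, hkt⟩ := Nat.forall_exists_prime_gt_and_modEq B'
    (q := 4 * (A.natAbs * M.natAbs)) (a := l * m) (by positivity) hcop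
  have hko : k % 2 = 1 := Nat.odd_iff.mp (hk.eq_two_or_odd'.resolve_left (by omega))
  refine ⟨k, lt_of_le_of_lt hB1 hkB, hk, ?_, ?_⟩
  · rw [← hJA, jacobiSym.mod_right _ (Nat.odd_iff.mpr hko),
      jacobiSym.mod_right _ (Nat.odd_iff.mpr hn2)]
    congr 1
    have : k ≡ l * m [MOD 4 * A.natAbs * M.natAbs] := by rw [mul_assoc]; exact hkt
    exact this.of_mul_right _
  · rw [← hJM, jacobiSym.mod_right _ (Nat.odd_iff.mpr hko),
      jacobiSym.mod_right _ (Nat.odd_iff.mpr hn2)]
    congr 1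
    have : k ≡ l * m [MOD 4 * M.natAbs * A.natAbs] := by
      rw [mul_assoc, mul_comm M.natAbs]
      exact hkt
    exact this.of_mul_right _

end Pool.Agent.Lib.MP_7c08ba_nt
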