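import Mathlib
import Pool.Agent.Lib.MP_7c08ba_nt.Tw.Density

set_option autoImplicit false

/-!
Elements of an imaginary quadratic field which are squares modulo almost all split primes.
-/

namespace Pool.Agent.Lib.MP_7c08ba_nt

lemma jacobi_sq_ne {t : ℤ} {l : ℕ} : jacobiSym (t ^ 2) l ≠ -1 := by
  rw [jacobiSym.pow_left]
  rcases jacobiSym.trichotomy t l with h | h | h <;> rw [h] <;> norm_num

lemma jacobi_eq_zero_dvd {t : ℤ} {l : ℕ} (hl : l.Prime) (h : jacobiSym t l = 0) : (l : ℤ) ∣ t := by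
  have : Fact l.Prime := ⟨hl⟩
  rw [← jacobiSym.legendreSym.to_jacobiSym, legendreSym.eq_zero_iff] at h
  exact (ZMod.intCast_zmod_eq_zero_iff_dvd t l).mp h

lemma jacobi_congr {t t' : ℤ} {l : ℕ} (h : (l : ℤ) ∣ t - t') : jacobiSym t l = jacobiSym t' l := by
  apply jacobiSym.mod_left'
  exact (Int.emod_emod_of_dvd t (dvd_refl _)).symm.trans
    (Int.ModEq.trans (Int.mod_modEq t l) ((Int.modEq_iff_dvd.mpr h).symm))

/-- A root of `-q` modulo a prime. -/
lemma exists_root {q l : ℕ} (hl : l.Prime) (h : jacobiSym (-(q : ℤ)) l = 1) :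
    ∃ a : ℤ, (l : ℤ) ∣ a ^ 2 + q := by
  have : Fact l.Prime := ⟨hl⟩
  rw [← jacobiSym.legendreSym.to_jacobiSym] at h
  have h0 : ((-(q : ℤ) : ℤ) : ZMod l) ≠ 0 := by
    intro h0
    rw [(legendreSym.eq_zero_iff l _).mpr h0] at h
    norm_num at h
  obtain ⟨b, hb⟩ := (legendreSym.eq_one_iff l h0).mp h
  refine ⟨b.val, ?_⟩
  rw [← ZMod.intCast_zmod_eq_zero_iff_dvd]
  push_cast at hb ⊢
  rw [ZMod.natCast_zmod_val]
  linear_combination -hb

theorem isSquare_of_residues {F : Type*} [Field F] [CharZero F] {q : ℕ} (hq0 : 0 < q) {s : F}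
    (hs : s ^ 2 = -(q : F)) {x y : ℤ} (hxy : x ≠ 0 ∨ y ≠ 0) (B : ℕ)
    (h : ∀ l > B, l.Prime → ∀ a : ℤ, (l : ℤ) ∣ a ^ 2 + q → jacobiSym (x + y * a) l ≠ -1) :
    IsSquare ((x : F) + y * s) := by
  have hq' : (0 : ℤ) < q := by exact_mod_cast hq0
  have hs0 : s ≠ 0 := by
    rintro rfl
    rw [zero_pow two_ne_zero, eq_comm, neg_eq_zero] at hs
    exact hq0.ne' (by exact_mod_cast hs)
  set N : ℤ := x ^ 2 + q * y ^ 2 with hN
  have hNpos : 0 < N := by
    rcases hxy with h1 | h1
    · have := sq_pos_of_ne_zero h1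
      have h2 := sq_nonneg y
      nlinarith
    · have := sq_pos_of_ne_zero h1
      have h2 := sq_nonneg x
      nlinarith
  -- the two conjugate residues
  have hprod : ∀ (l : ℕ) (a : ℤ), (l : ℤ) ∣ a ^ 2 + q →
      jacobiSym (x + y * a) l * jacobiSym (x + y * (-a)) l = jacobiSym N l := by
    intro l a ha
    rw [← jacobiSym.mul_left]
    apply jacobi_congr
    have h1 : (x + y * a) * (x + y * (-a)) - N = -(y ^ 2) * (a ^ 2 + q) := by
      rw [hN]
      ring
    rw [h1]
    exact ha.mul_left _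
  have hneg : ∀ (l : ℕ) (a : ℤ), (l : ℤ) ∣ a ^ 2 + q → (l : ℤ) ∣ (-a) ^ 2 + q := by
    intro l a ha
    rwa [neg_sq]
  have hNsq : IsSquare N := by
    by_contra hcon
    have h2 : ¬ IsSquare (-(q : ℤ) * N) := by
      intro h2
      have h3 := h2.nonneg
      nlinarith
    obtain ⟨l, hlB, hl, hl1, hl2⟩ := exists_prime_two_jacobi hcon h2 B
    obtain ⟨a, ha⟩ := exists_root hl hl1
    have h3 := hprod l a ha
    have h4 := h l hlB hl a ha
    have h5 := h l hlB hl (-a) (hneg l a ha)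
    rw [hl2] at h3
    rcases jacobiSym.trichotomy (x + y * a) l with h6 | h6 | h6 <;>
      rcases jacobiSym.trichotomy (x + y * (-a)) l with h7 | h7 | h7 <;>
      first
      | exact h4 h6
      | exact h5 h7
      | (rw [h6, h7] at h3; norm_num at h3)
  obtain ⟨S, hS, hS2⟩ : ∃ S : ℤ, N = S ^ 2 ∧ x + S ≠ 0 := by
    obtain ⟨T, hT⟩ := hNsq
    by_cases h1 : x + T = 0
    · refine ⟨-T, by rw [hT]; ring, ?_⟩
      intro h2
      have h3 : T = 0 := by omega
      rw [h3] at hT
      rw [hT] at hNpos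
      norm_num at hNpos
    · exact ⟨T, by rw [hT]; ring, h1⟩
  set r : ℤ := 2 * (x + S) with hr
  have hr0 : r ≠ 0 := mul_ne_zero two_ne_zero hS2
  have hkey : ∀ (l : ℕ) (a : ℤ), (l : ℤ) ∣ a ^ 2 + q →
      jacobiSym r l * jacobiSym (x + y * a) l = jacobiSym ((x + S + y * a) ^ 2) l := by
    intro l a ha
    rw [← jacobiSym.mul_left]
    apply jacobi_congr
    have h1 : r * (x + y * a) - (x + S + y * a) ^ 2 = -(y ^ 2) * (a ^ 2 + q) := by
      rw [hr]
      rw [hN] at hS
      linear_combination hS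
    rw [h1]
    exact ha.mul_left _
  have hrsq : IsSquare r ∨ IsSquare (-(q : ℤ) * r) := by
    by_contra hcon
    push Not at hcon
    obtain ⟨l, hlB, hl, hl1, hl2⟩ := exists_prime_two_jacobi hcon.1 hcon.2 (max B N.natAbs)
    have hlB' : B < l := lt_of_le_of_lt (le_max_left _ _) hlB
    have hlN : N.natAbs < l := lt_of_le_of_lt (le_max_right _ _) hlB
    obtain ⟨a, ha⟩ := exists_root hl hl1
    have h3 := hprod l a ha
    have hJN : jacobiSym N l ≠ 0 := jacobiSym.ne_zero (gcd_eq_one_of_lt hl hNpos.ne' hlN)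
    have h4 := h l hlB' hl a ha
    have h6 := hkey l a ha
    rw [hl2] at h6
    have h8 : jacobiSym (x + y * a) l ≠ 0 := by
      intro h0
      rw [h0, zero_mul] at h3
      exact hJN h3.symm
    rcases jacobiSym.trichotomy (x + y * a) l with h7 | h7 | h7
    · exact h8 h7
    · rw [h7] at h6
      exact jacobi_sq_ne (h6.symm.trans (by norm_num))
    · exact h4 h7
  have hSF : (x : F) ^ 2 + q * (y : F) ^ 2 = (S : F) ^ 2 := by
    have h1 : x ^ 2 + q * y ^ 2 = S ^ 2 := hS
    exact_mod_cast congrArg (fun t : ℤ => (t : F)) h1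
  have hrF : (r : F) ≠ 0 := by exact_mod_cast hr0
  have hmain : (r : F) * ((x : F) + y * s) = (x + S + y * s) ^ 2 := by
    rw [hr]
    push_cast
    linear_combination hSF - (y : F) ^ 2 * hs
  rcases hrsq with ⟨b, hb⟩ | ⟨b, hb⟩
  · have hb' : (r : F) = b * b := by exact_mod_cast congrArg (fun t : ℤ => (t : F)) hb
    have hb0 : (b : F) ≠ 0 := by
      intro h0
      rw [h0, mul_zero] at hb'
      exact hrF hb'
    refine ⟨(x + S + y * s) / b, ?_⟩
    field_simp
    rw [hb'] at hmain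
    linear_combination hmain
  · have hb' : -(q : F) * r = b * b := by exact_mod_cast congrArg (fun t : ℤ => (t : F)) hb
    have hb0 : (b : F) ≠ 0 := by
      intro h0
      rw [h0, mul_zero, mul_eq_zero] at hb'
      rcases hb' with h1 | h1
      · rw [neg_eq_zero] at h1
        exact hq0.ne' (by exact_mod_cast h1)
      · exact hrF h1
    refine ⟨(x + S + y * s) * s / b, ?_⟩
    field_simp
    linear_combination (-(x : F) - y * s) * hb' + (-(q : F)) * hmain -
      (x + S + y * s) ^ 2 * hs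

end Pool.Agent.Lib.MP_7c08ba_nt
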