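import Mathlib
import Pool.Agent.Lib.MP_7c08ba_nt.Tw.Recip
import Pool.Agent.Lib.MP_7c08ba_nt.Dyadic

set_option autoImplicit false

/-!
Signs of dyadic units modulo four, and the explicit mod four evaluation of the Hecke character.
-/

namespace Pool.Agent.Lib.MP_7c08ba_nt

/-- `u` is congruent to the sign `ε` modulo `4`. -/
def C4 (u : ℚ_[2]) (ε : ℤ) : Prop := (ε = 1 ∨ ε = -1) ∧ ‖u - ε‖ ≤ ‖(4 : ℚ_[2])‖

lemma norm_four : ‖(4 : ℚ_[2])‖ = 4⁻¹ := by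
  have h1 : (4 : ℚ_[2]) = 2 * 2 := by norm_num
  have h2 : ‖(2 : ℚ_[2])‖ = 2⁻¹ := by
    have := Padic.norm_p (p := 2)
    exact_mod_cast this
  rw [h1, norm_mul, h2]
  norm_num

lemma norm_sign {ε : ℤ} (h : ε = 1 ∨ ε = -1) : ‖((ε : ℤ) : ℚ_[2])‖ = 1 := by
  rcases h with rfl | rfl <;> simp

lemma C4.norm {u : ℚ_[2]} {ε : ℤ} (h : C4 u ε) : ‖u‖ = 1 := by
  have h1 : u = (ε : ℚ_[2]) + (u - ε) := by ring
  have h2 := norm_sign h.1
  have h3 : ‖u - ε‖ < ‖((ε : ℤ) : ℚ_[2])‖ := by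
    rw [h2]
    refine h.2.trans_lt ?_
    rw [norm_four]
    norm_num
  rw [h1, IsUltrametricDist.norm_add_eq_max_of_norm_ne_norm h3.ne', max_eq_left h3.le, h2]

lemma sign_mul {ε ε' : ℤ} (h : ε = 1 ∨ ε = -1) (h' : ε' = 1 ∨ ε' = -1) :
    ε * ε' = 1 ∨ ε * ε' = -1 := by
  rcases h with rfl | rfl <;> rcases h' with rfl | rfl <;> norm_num

lemma sign_pow {ε : ℤ} (h : ε = 1 ∨ ε = -1) (n : ℕ) : ε ^ n = 1 ∨ ε ^ n = -1 := by
  rcases h with rfl | rfl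
  · left; rw [one_pow]
  · exact neg_one_pow_eq_or ℤ n

lemma sign_sq {ε : ℤ} (h : ε = 1 ∨ ε = -1) : ε * ε = 1 := by
  rcases h with rfl | rfl <;> norm_num

lemma sg_or (t : ℤ) : sg t = 1 ∨ sg t = -1 := by
  unfold sg
  split_ifs
  · exact Or.inl rfl
  · exact Or.inr rfl

lemma C4.mul {u u' : ℚ_[2]} {ε ε' : ℤ} (h : C4 u ε) (h' : C4 u' ε') : C4 (u * u') (ε * ε') := by
  refine ⟨sign_mul h.1 h'.1, ?_⟩
  have h1 : u * u' - ((ε * ε' : ℤ) : ℚ_[2]) = u * (u' - ε') + ε' * (u - ε) := by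
    push_cast
    ring
  rw [h1]
  refine (IsUltrametricDist.norm_add_le_max _ _).trans (max_le ?_ ?_)
  · rw [norm_mul, h.norm, one_mul]
    exact h'.2
  · rw [norm_mul, norm_sign h'.1, one_mul]
    exact h.2

lemma C4.inv {u : ℚ_[2]} {ε : ℤ} (h : C4 u ε) : C4 u⁻¹ ε := by
  refine ⟨h.1, ?_⟩
  have hu : u ≠ 0 := by
    intro h0
    have := h.norm
    rw [h0, norm_zero] at this
    norm_num at this
  have hε : ((ε : ℤ) : ℚ_[2]) * ε = 1 := by exact_mod_cast sign_sq h.1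
  have h1 : u⁻¹ - (ε : ℚ_[2]) = -(u⁻¹ * ε * (u - ε)) := by
    field_simp
    linear_combination (-1 : ℚ_[2]) * hε
  rw [h1, norm_neg, norm_mul, norm_mul, norm_inv, h.norm, norm_sign h.1]
  simpa using h.2

lemma C4.one : C4 1 1 := by
  refine ⟨Or.inl rfl, ?_⟩
  rw [Int.cast_one, sub_self, norm_zero]
  exact norm_nonneg _

lemma C4.pow {u : ℚ_[2]} {ε : ℤ} (h : C4 u ε) (n : ℕ) : C4 (u ^ n) (ε ^ n) := by
  induction n with
  | zero => rw [pow_zero, pow_zero]; exact C4.one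
  | succ n ih => rw [pow_succ, pow_succ]; exact ih.mul h

lemma C4.zpow {u : ℚ_[2]} {ε : ℤ} (h : C4 u ε) (m : ℤ) : C4 (u ^ m) (ε ^ m.natAbs) := by
  rcases Int.natAbs_eq m with h1 | h1
  · conv_lhs => rw [h1]
    rw [zpow_natCast]
    exact h.pow _
  · conv_lhs => rw [h1]
    rw [zpow_neg, zpow_natCast]
    exact (h.pow _).inv

lemma C4.unique {u : ℚ_[2]} {ε ε' : ℤ} (h : C4 u ε) (h' : C4 u ε') : ε = ε' := by
  by_contra hcon
  have h1 : ((ε' : ℚ_[2]) - ε) = (u - ε) - (u - ε') := by ring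
  have h2 : ‖((ε' : ℚ_[2]) - ε)‖ ≤ ‖(4 : ℚ_[2])‖ := by
    rw [h1, sub_eq_add_neg]
    refine (IsUltrametricDist.norm_add_le_max _ _).trans (max_le h.2 ?_)
    rw [norm_neg]
    exact h'.2
  have h3 : ‖(2 : ℚ_[2])‖ = 2⁻¹ := by
    have := Padic.norm_p (p := 2)
    exact_mod_cast this
  have h4 : ‖((ε' : ℚ_[2]) - ε)‖ = 2⁻¹ := by
    rcases h.1 with rfl | rfl <;> rcases h'.1 with rfl | rfl
    · exact absurd rfl hcon
    · rw [← h3]
      push_cast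
      have : (-1 - 1 : ℚ_[2]) = -2 := by norm_num
      rw [this, norm_neg]
    · rw [← h3]
      push_cast
      have : (1 - -1 : ℚ_[2]) = 2 := by norm_num
      rw [this]
    · exact absurd rfl hcon
  rw [h4, norm_four] at h2
  norm_num at h2

lemma norm_int_le_four {t : ℤ} (h : (4 : ℤ) ∣ t) : ‖(t : ℚ_[2])‖ ≤ ‖(4 : ℚ_[2])‖ := by
  obtain ⟨k, rfl⟩ := h
  push_cast
  rw [norm_mul]
  exact mul_le_of_le_one_right (norm_nonneg _) (Padic.norm_int_le_one k)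

lemma C4.int {t : ℤ} (h : t % 2 = 1) : C4 t (sg t) := by
  refine ⟨sg_or t, ?_⟩
  have h1 : (4 : ℤ) ∣ t - sg t := by
    unfold sg
    split_ifs with h2 <;> omega
  have := norm_int_le_four h1
  push_cast at this
  exact this

lemma C4.sign {ε : ℤ} (h : ε = 1 ∨ ε = -1) : C4 ε ε := by
  refine ⟨h, ?_⟩
  rw [sub_self, norm_zero]
  exact norm_nonneg _

/-- Every dyadic unit has a sign. -/
lemma exists_C4 {u : ℚ_[2]} (h : ‖u‖ = 1) : ∃ ε, C4 u ε := by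
  set v : ℤ_[2] := ⟨u, h.le⟩ with hv
  have hvu : IsUnit v := by
    rw [PadicInt.isUnit_iff]
    exact h
  -- the residue modulo four
  have hker : ∀ ε : ℤ, PadicInt.toZModPow 2 v = (ε : ZMod (2 ^ 2)) → ‖u - ε‖ ≤ ‖(4 : ℚ_[2])‖ := by
    intro ε hε
    have h1 : v - (ε : ℤ_[2]) ∈ RingHom.ker (PadicInt.toZModPow (p := 2) 2) := by
      rw [RingHom.mem_ker, map_sub, hε, map_intCast, sub_self]
    rw [PadicInt.ker_toZModPow, Ideal.mem_span_singleton] at h1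
    obtain ⟨w, hw⟩ := h1
    have h2 : u - ε = 4 * (w : ℚ_[2]) := by
      have h3 : ((v - (ε : ℤ_[2]) : ℤ_[2]) : ℚ_[2]) = u - ε := by
        push_cast
        rfl
      have h8 : ((2 : ℤ_[2]) : ℚ_[2]) = 2 := map_ofNat (PadicInt.Coe.ringHom (p := 2)) 2
      rw [← h3, hw]
      push_cast
      rw [h8]
      norm_num
    rw [h2, norm_mul]
    exact mul_le_of_le_one_right (norm_nonneg _) w.2
  have hu4 : IsUnit (PadicInt.toZModPow 2 v) := hvu.map _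
  generalize hr : PadicInt.toZModPow 2 v = r at hu4 hker
  have key : ∀ r : ZMod (2 ^ 2), IsUnit r → r = 1 ∨ r = 3 := by decide
  rcases key r hu4 with h1 | h1
  · refine ⟨1, Or.inl rfl, hker 1 ?_⟩
    rw [h1]; rfl
  · refine ⟨-1, Or.inr rfl, hker (-1) ?_⟩
    rw [h1]; rfl

/-- The sign of `x + y σ` when `σ ≡ -1 (mod 4)`. -/
lemma C4.lin {x y : ℤ} (h : (x - y) % 2 = 1) {σ : ℚ_[2]} (hσ : ‖σ + 1‖ ≤ ‖(4 : ℚ_[2])‖) :
    C4 (x + y * σ) (sg (x - y)) := by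
  refine ⟨sg_or _, ?_⟩
  have h1 := (C4.int h).2
  have h2 : (x + y * σ : ℚ_[2]) - ((sg (x - y) : ℤ) : ℚ_[2]) =
      (((x - y : ℤ) : ℚ_[2]) - ((sg (x - y) : ℤ) : ℚ_[2])) + y * (σ + 1) := by
    push_cast
    ring
  rw [h2]
  refine (IsUltrametricDist.norm_add_le_max _ _).trans (max_le h1 ?_)
  rw [norm_mul]
  refine le_trans ?_ hσ
  exact mul_le_of_le_one_left (norm_nonneg _) (Padic.norm_int_le_one y)

lemma sg_pow {t : ℤ} (ht : t % 2 = 1) (n : ℕ) : sg (t ^ n) = sg t ^ n := by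
  induction n with
  | zero =>
    rw [pow_zero, pow_zero]
    rfl
  | succ n ih =>
    have h1 : (t ^ n) % 2 = 1 := by
      rw [← Int.odd_iff] at ht ⊢
      exact ht.pow
    rw [pow_succ, pow_succ, sg_mul h1 ht, ih]

lemma sign_pow_odd {ε : ℤ} (h : ε = 1 ∨ ε = -1) {n : ℕ} (hn : n % 2 = 1) : ε ^ n = ε := by
  rcases h with rfl | rfl
  · rw [one_pow]
  · exact (Nat.odd_iff.mpr hn).neg_one_pow

end Pool.Agent.Lib.MP_7c08ba_nt
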