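import Mathlib
import Pool.Agent.Lib.MP_7c08ba_nt.HeckeDefs
import Pool.Agent.Lib.MP_7c08ba_nt.Tw.Mod4
import Pool.Agent.Lib.MP_7c08ba_nt.Tw.SplitPrime
import Pool.Agent.Lib.MP_7c08ba_nt.Tw.DensF

set_option autoImplicit false

/-!
The Hecke character modulo four at the split primes.
-/

namespace Pool.Agent.Lib.MP_7c08ba_nt

set_option linter.unusedSectionVars false

open NumberField IsDedekindDomain Module Matrix

/-- Algebraic integers are dyadic integers. -/
lemma norm_int_le_one {F : Type} [Field F] [NumberField F] (J : F →+* ℚ_[2]) (a : 𝓞 F) :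
    ‖J a‖ ≤ 1 := by
  have h1 : IsIntegral ℤ_[2] (J a) := by
    have h2 : IsIntegral ℤ (J a) := (a.isIntegral_coe).map (J.toIntAlgHom)
    exact h2.tower_top
  obtain ⟨z, hz⟩ := IsIntegrallyClosed.isIntegral_iff.mp h1
  rw [← hz]
  exact z.2

lemma norm_odd_nat {n : ℕ} (h : n % 2 = 1) : ‖((n : ℕ) : ℚ_[2])‖ = 1 := by
  have h1 := (C4.int (t := (n : ℤ)) (by omega)).norm
  rw [Int.cast_natCast] at h1
  exact h1

/-- The sign of the twisting element. -/
def tau (k δ : ℤ) : ℤ := (-1) ^ (k - 1).natAbs * δ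

lemma tau_or {k δ : ℤ} (hδ : δ = 1 ∨ δ = -1) : tau k δ = 1 ∨ tau k δ = -1 :=
  sign_mul (sign_pow (Or.inr rfl) _) hδ

theorem hecke_eval {q : ℕ} (hq : q.Prime) (h16 : q % 16 = 7) {F : Type} [Field F]
    [NumberField F] (hF : Module.finrank ℚ F = 2) {s : F} (hs : s ^ 2 = -(q : F))
    {rs : Finset ℕ} {b₂ : ℕ} {δ : ℤ} (hδ : δ = 1 ∨ δ = -1) {k : ℤ} {j J : F →+* ℚ_[2]}
    (hj : ‖j s + 1‖ ≤ ‖(4 : ℚ_[2])‖) (hJ : J s = -j s)
    {ρ : AbsGal F →* Matrix.GeneralLinearGroup (Fin 1) ℚ_[2]}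
    (hρ : Realises q (sI hs) (δ * 2 ^ b₂ * ((∏ r ∈ rs, r : ℕ) : ℤ)) k j J ρ)
    {l : ℕ} (hl : l.Prime) (hl2 : l ≠ 2) (hlq : l ≠ q) (hlR : ¬ l ∣ ∏ r ∈ rs, r)
    {a : ℤ} {P : Ideal (AllInt F)} (hP : P.IsPrime) (hlP : (l : AllInt F) ∈ P)
    (haP : algebraMap (𝓞 F) (AllInt F) (sI hs - a) ∈ P) {g : AbsGal F}
    (hg : ∀ x : AllInt F, g • x - x ^ l ∈ P) {y : AlgebraicClosure F}
    (hy : y ^ 2 = algebraMap F _ (twEl (tau k δ) b₂ s rs)) :
    ∃ ε : ℤ, C4 ((ρ g : Matrix (Fin 1) (Fin 1) ℚ_[2]) 0 0) ε ∧ g y = ε * y := by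
  have hq0 := hq.pos
  set R : ℕ := ∏ r ∈ rs, r with hR
  have hlp := Nat.prime_iff_prime_int.mp hl
  have hqp := Nat.prime_iff_prime_int.mp hq
  have hlo : l % 2 = 1 := Nat.odd_iff.mp (hl.eq_two_or_odd'.resolve_left hl2)
  have hres := split_res hq0 hF hs hq hl hl2 hlP haP
  have hcard := card_res hl hP hlP hres
  have hlu : (l : 𝓞 F) ∈ P.under (𝓞 F) := by
    rw [Ideal.mem_comap, map_natCast]
    exact hlP
  have hu0 : P.under (𝓞 F) ≠ ⊥ := by
    intro h
    rw [h] at hlu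
    have h1 : (l : 𝓞 F) = 0 := hlu
    exact hl.ne_zero (by exact_mod_cast h1)
  -- an odd power is principal
  obtain ⟨N, t, hN, ht⟩ := exists_odd_power hq0 hF hs hq J hu0 (by
    intro n b hb
    have h1 : (l : 𝓞 F) ^ n ∈ Ideal.span {b} := by
      rw [← hb]
      exact Ideal.pow_mem_pow hlu n
    rw [Ideal.mem_span_singleton] at h1
    obtain ⟨c, hc⟩ := h1
    have h2 : ((l : ℕ) : ℚ_[2]) ^ n = J b * J c := by
      have := congrArg (fun x : 𝓞 F => J (algebraMap (𝓞 F) F x)) hc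
      simpa only [map_pow, map_natCast, map_mul] using this
    have h3 := congrArg norm h2
    rw [norm_pow, norm_odd_nat hlo, one_pow, norm_mul] at h3
    have h4 := norm_int_le_one J b
    have h5 := norm_int_le_one J c
    have h6 := norm_nonneg (J b)
    have h7 := norm_nonneg (J c)
    nlinarith)
  have hN0 : 0 < N := by omega
  obtain ⟨x, y₀, htxy, hn, hcop, hla, hnorm⟩ :=
    split_gen hq0 hF hs hq (by omega) hl hl2 hlq hP hlP haP hN0 ht
  set n : ℕ := l ^ N with hndef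
  have hn' : x ^ 2 + q * y₀ ^ 2 = (n : ℤ) := by
    rw [hn, hndef]
    push_cast
    rfl
  have hno : n % 2 = 1 := by
    rw [← Nat.odd_iff] at hlo ⊢
    exact hlo.pow
  -- basic non-divisibilities
  have hqx : ¬ (q : ℤ) ∣ x := by
    intro h
    have h1 : (q : ℤ) ∣ (l : ℤ) ^ N := by
      rw [← hn]
      exact dvd_add (dvd_pow h two_ne_zero) (dvd_mul_right _ _)
    have h2 := hqp.dvd_of_dvd_pow h1
    exact hlq ((Nat.prime_dvd_prime_iff_eq hq hl).mp (by exact_mod_cast h2)).symm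
  have hx0 : x ≠ 0 := by
    rintro rfl
    exact hqx (dvd_zero _)
  have hly : ¬ (l : ℤ) ∣ y₀ := by
    intro h
    have h1 : (l : ℤ) ∣ x := by
      have := dvd_sub hla (h.mul_right a)
      rwa [add_sub_cancel_right] at this
    exact hlp.not_isUnit (hcop.isUnit_of_dvd' h1 h)
  have hy0 : y₀ ≠ 0 := by
    rintro rfl
    exact hly (dvd_zero _)
  have hlx : ¬ (l : ℤ) ∣ x := by
    intro h
    have h1 : (l : ℤ) ∣ (q : ℤ) * y₀ ^ 2 := by
      have h2 : (l : ℤ) ∣ x ^ 2 + q * y₀ ^ 2 := by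
        rw [hn]
        exact dvd_pow_self _ hN0.ne'
      have := dvd_sub h2 (dvd_pow h two_ne_zero)
      rwa [add_sub_cancel_left] at this
    rcases hlp.dvd_or_dvd h1 with h2 | h2
    · exact hlq ((Nat.prime_dvd_prime_iff_eq hl hq).mp (by exact_mod_cast h2))
    · exact hly (hlp.dvd_of_dvd_pow h2)
  have hlR' : ¬ (l : ℤ) ∣ (R : ℤ) := fun h => hlR (by exact_mod_cast h)
  have hl22 : ¬ (l : ℤ) ∣ 2 := by
    intro h4
    have h5 : l ∣ 2 := by exact_mod_cast h4
    exact hl2 ((Nat.prime_dvd_prime_iff_eq hl Nat.prime_two).mp h5)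
  have hl2b : ¬ (l : ℤ) ∣ 2 ^ b₂ := fun h => hl22 (hlp.dvd_of_dvd_pow h)
  have hlδ : ∀ ε : ℤ, (ε = 1 ∨ ε = -1) → ¬ (l : ℤ) ∣ ε := by
    intro ε hε h
    apply hlp.not_isUnit
    rcases hε with rfl | rfl
    · exact isUnit_of_dvd_one h
    · exact isUnit_of_dvd_one ((dvd_neg).mp h)
  have hne0 : ∀ b : ℤ, ¬ (l : ℤ) ∣ b → jacobiSym b l = 1 ∨ jacobiSym b l = -1 := by
    intro b hb
    rcases jacobiSym.trichotomy b l with h | h | h
    · exact absurd (jacobi_eq_zero_dvd hl h) hb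
    · exact Or.inl h
    · exact Or.inr h
  have hJn : ∀ b : ℤ, ¬ (l : ℤ) ∣ b → jacobiSym b n = jacobiSym b l := by
    intro b hb
    rw [hndef, jacobiSym.pow_right]
    exact sign_pow_odd (hne0 b hb) hN
  have hJxq : jacobiSym x q = 1 ∨ jacobiSym x q = -1 := by
    rcases jacobiSym.trichotomy x q with h | h | h
    · exact absurd (jacobi_eq_zero_dvd hq h) hqx
    · exact Or.inl h
    · exact Or.inr h
  -- parity
  have hpar : (x - y₀) % 2 = 1 := by
    have h1 : (n : ℤ) % 2 = 1 := by omega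
    rw [← hn'] at h1
    rcases (by omega : x % 2 = 0 ∨ x % 2 = 1) with h2 | h2 <;>
      rcases (by omega : y₀ % 2 = 0 ∨ y₀ % 2 = 1) with h3 | h3
    · exfalso
      have h4 : (x ^ 2 + q * y₀ ^ 2) % 2 = 0 := by
        obtain ⟨x', hx'⟩ : ∃ x', x = 2 * x' := ⟨x / 2, by omega⟩
        obtain ⟨y', hy'⟩ : ∃ y', y₀ = 2 * y' := ⟨y₀ / 2, by omega⟩
        have : x ^ 2 + q * y₀ ^ 2 = 2 * (2 * x' ^ 2 + 2 * q * y' ^ 2) := by
          rw [hx', hy']
          ring
        omega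
      omega
    · omega
    · omega
    · exfalso
      have h4 : (x ^ 2 + q * y₀ ^ 2) % 2 = 0 := by
        obtain ⟨x', hx'⟩ : ∃ x', x = 2 * x' + 1 := ⟨x / 2, by omega⟩
        obtain ⟨y', hy'⟩ : ∃ y', y₀ = 2 * y' + 1 := ⟨y₀ / 2, by omega⟩
        obtain ⟨q', hq'⟩ : ∃ q' : ℤ, (q : ℤ) = 2 * q' + 1 := ⟨(q : ℤ) / 2, by omega⟩
        have : x ^ 2 + q * y₀ ^ 2 =
            2 * (2 * x' ^ 2 + 2 * x' + 1 + q' + (2 * q' + 1) * (2 * y' ^ 2 + 2 * y')) := by
          rw [hx', hy', hq']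
          ring
        omega
      omega
  have hpar' : (x - -y₀) % 2 = 1 := by omega
  -- the two embeddings
  have hjt : j t = x + y₀ * j s := by
    rw [htxy]
    simp only [map_add, map_mul, map_intCast]
  have hJt : J t = x + ((-y₀ : ℤ) : ℚ_[2]) * j s := by
    rw [htxy]
    simp only [map_add, map_mul, map_intCast, hJ]
    push_cast
    ring
  have hCj : C4 (j t) (sg (x - y₀)) := by
    rw [hjt]
    exact C4.lin hpar hj
  have hCJ : C4 (J t) (sg (x - -y₀)) := by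
    rw [hJt]
    exact C4.lin hpar' hj
  -- the value of the character
  have hfrob := hρ.frobenius P hP (by
      intro h
      have h1 : ((2 * q * (δ * 2 ^ b₂ * (R : ℤ)) : ℤ) : AllInt F) ∈ P := by
        push_cast
        push_cast at h
        exact h
      have h2 := dvd_of_mem_under hl hP hlP h1
      rcases hlp.dvd_or_dvd h2 with h3 | h3
      · rcases hlp.dvd_or_dvd h3 with h4 | h4
        · exact hl22 h4
        · exact hlq ((Nat.prime_dvd_prime_iff_eq hl hq).mp (by exact_mod_cast h4))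
      · rcases hlp.dvd_or_dvd h3 with h4 | h4
        · rcases hlp.dvd_or_dvd h4 with h5 | h5
          · exact hlδ δ hδ h5
          · exact hl2b h5
        · exact hlR' h4) g (by
      intro z
      rw [hcard]
      exact hg z) N t x ht (by
      refine ⟨y₀, ?_⟩
      apply RingOfIntegers.ext
      have h1 : ((t - (x : 𝓞 F) : 𝓞 F) : F) = y₀ * s := by
        rw [RingOfIntegers.coe_eq_algebraMap, map_sub, map_intCast,
          ← RingOfIntegers.coe_eq_algebraMap, htxy]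
        ring
      have h2 : ((sI hs * (y₀ : 𝓞 F) : 𝓞 F) : F) = y₀ * s := by
        rw [RingOfIntegers.coe_eq_algebraMap, map_mul, algebraMap_sI, map_intCast]
        ring
      exact h1.trans h2.symm)
  have hnat : (Algebra.norm ℤ t).natAbs = n := by
    rw [hnorm, hndef, Int.natAbs_pow, Int.natAbs_natCast]
  rw [hnat] at hfrob
  -- the sign of the right side
  have hJD : jacobiSym (δ * 2 ^ b₂ * (R : ℤ)) n =
      jacobiSym δ n * jacobiSym (2 ^ b₂) n * jacobiSym (R : ℤ) n := by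
    rw [jacobiSym.mul_left, jacobiSym.mul_left]
  have hJDs : jacobiSym (δ * 2 ^ b₂ * (R : ℤ)) n = 1 ∨
      jacobiSym (δ * 2 ^ b₂ * (R : ℤ)) n = -1 := by
    rw [hJD, hJn δ (hlδ δ hδ), hJn R hlR', hJn _ hl2b]
    exact sign_mul (sign_mul (hne0 _ (hlδ δ hδ)) (hne0 _ hl2b)) (hne0 _ hlR')
  have hCR := (((C4.sign hJxq).mul (C4.sign hJDs)).mul (hCj.zpow k)).mul (hCJ.zpow (1 - k))
  rw [← hfrob] at hCR
  -- the sign of the character
  set A := (ρ g : Matrix (Fin 1) (Fin 1) ℚ_[2]) 0 0 with hA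
  have hAn : ‖A‖ = 1 := by
    have h1 := hCR.norm
    rw [norm_pow] at h1
    exact (pow_eq_one_iff_of_nonneg (norm_nonneg _) hN0.ne').mp h1
  obtain ⟨ε, hε⟩ := exists_C4 hAn
  have hεR := (hε.pow N).unique hCR
  rw [sign_pow_odd hε.1 hN] at hεR
  -- the action on the square root
  set w : 𝓞 F := (tau k δ : 𝓞 F) * 2 ^ b₂ * sI hs * (R : 𝓞 F) with hw
  have hwF : (w : F) = twEl (tau k δ) b₂ s rs := by
    rw [hw, RingOfIntegers.coe_eq_algebraMap]
    simp only [map_mul, map_intCast, map_natCast, map_pow, map_ofNat, algebraMap_sI]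
    rfl
  have htau := tau_or (k := k) hδ
  have htP : algebraMap (𝓞 F) (AllInt F) t ∈ P := by
    have h1 : t ∈ (P.under (𝓞 F)) ^ N := by rw [ht]; exact Ideal.mem_span_singleton_self _
    have h2 : t ∈ P.under (𝓞 F) := Ideal.pow_le_self hN0.ne' h1
    exact h2
  have hintP : ∀ b : ℤ, ¬ (l : ℤ) ∣ b → (b : AllInt F) ∉ P := fun b hb h =>
    hb (dvd_of_mem_under hl hP hlP h)
  have hsP : algebraMap (𝓞 F) (AllInt F) (sI hs) ∉ P := by
    intro h
    have h1 : ((q : ℤ) : AllInt F) ∈ P := by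
      have h2 : ((q : ℤ) : AllInt F) = -(algebraMap (𝓞 F) (AllInt F) (sI hs) *
          algebraMap (𝓞 F) (AllInt F) (sI hs)) := by
        have := congrArg (algebraMap (𝓞 F) (AllInt F)) (sI_sq hs)
        rw [map_pow, map_neg, map_natCast] at this
        push_cast
        linear_combination this
      rw [h2]
      exact P.neg_mem (P.mul_mem_left _ h)
    exact hintP q (fun h => hlq ((Nat.prime_dvd_prime_iff_eq hl hq).mp (by exact_mod_cast h))) h1
  have hwP : algebraMap (𝓞 F) (AllInt F) w ∉ P := by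
    rw [hw, map_mul, map_mul, map_mul, map_intCast, map_natCast]
    intro h
    rcases hP.mem_or_mem h with h1 | h1
    · rcases hP.mem_or_mem h1 with h2 | h2
      · rcases hP.mem_or_mem h2 with h3 | h3
        · exact hintP _ (hlδ _ htau) h3
        · apply hintP _ hl2b
          rw [map_pow, map_ofNat] at h3
          push_cast
          exact h3
      · exact hsP h2
    · exact hintP R hlR' (by push_cast; exact h1)
  have hyP : algebraMap (𝓞 F) (AllInt F) (y₀ : 𝓞 F) ∉ P := by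
    rw [map_intCast]
    exact hintP _ hly
  have hkey : algebraMap (𝓞 F) (AllInt F) (w * (y₀ : 𝓞 F) ^ 2) -
      ((tau k δ * 2 ^ b₂ * R * (-(x * y₀)) : ℤ) : AllInt F) ∈ P := by
    have h1 : w * (y₀ : 𝓞 F) ^ 2 - ((tau k δ * 2 ^ b₂ * R * (-(x * y₀)) : ℤ) : 𝓞 F) =
        (tau k δ : 𝓞 F) * 2 ^ b₂ * R * y₀ * t := by
      have h2 : t = (x : 𝓞 F) + y₀ * sI hs := by
        apply RingOfIntegers.ext
        have h3 : (((x : 𝓞 F) + y₀ * sI hs : 𝓞 F) : F) = x + y₀ * s := by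
          rw [RingOfIntegers.coe_eq_algebraMap]
          simp only [map_mul, map_add, map_intCast, algebraMap_sI]
        exact htxy.trans h3.symm
      rw [hw, h2]
      push_cast
      ring
    have h2 := congrArg (algebraMap (𝓞 F) (AllInt F)) h1
    rw [map_sub, map_intCast] at h2
    rw [h2, map_mul]
    exact P.mul_mem_left _ htP
  have hfs := frob_sqrt hP hl hl2 hlP hg (z := w) (by rw [hwF]; exact hy) hwP hyP hkey
  -- the comparison of the signs
  have hxyl : ¬ (l : ℤ) ∣ -(x * y₀) := by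
    rw [dvd_neg]
    intro h
    rcases hlp.dvd_or_dvd h with h1 | h1
    · exact hlx h1
    · exact hly h1
  have hE : jacobiSym (tau k δ * 2 ^ b₂ * R * (-(x * y₀))) l = ε := by
    rw [hεR, jacobiSym.mul_left, jacobiSym.mul_left, jacobiSym.mul_left,
      ← hJn _ (hlδ _ htau), ← hJn _ hl2b, ← hJn _ hlR',
      ← hJn _ hxyl, core_recip (by omega) hcop hn' hno hx0 hy0, hJD]
    have hδn : ∀ m : ℕ, jacobiSym ((-1) ^ m * δ) n = sg n ^ m * jacobiSym δ n := by
      intro m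
      rw [jacobiSym.mul_left, jacobiSym.pow_left, jacobi_neg_one hno]
    have hsn : sg n = sg (x - y₀) * sg (x - -y₀) := by
      rw [← sg_mul hpar hpar']
      have h1 : ((n : ℤ)) % 4 = ((x - y₀) * (x - -y₀)) % 4 := by
        rw [← hn']
        have h2 : (4 : ℤ) ∣ (x ^ 2 + q * y₀ ^ 2) - (x - y₀) * (x - -y₀) := by
          obtain ⟨c, hc⟩ : ∃ c : ℤ, (q : ℤ) = 4 * c + 3 := ⟨(q : ℤ) / 4, by omega⟩
          refine ⟨(c + 1) * y₀ ^ 2, ?_⟩
          rw [hc]
          ring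
        omega
      unfold sg
      rw [h1]
    unfold tau
    rw [hδn, hsn]
    have hs1 := sg_or (x - y₀)
    have hs2 := sg_or (x - -y₀)
    have hk1 : (1 - k).natAbs = (k - 1).natAbs := by omega
    rw [hk1, mul_pow]
    have hk2 : sg (x - y₀) ^ k.natAbs = sg (x - y₀) ^ (k - 1).natAbs * sg (x - y₀) := by
      have h1 : (k.natAbs + (k - 1).natAbs) % 2 = 1 := by omega
      have h2 := sign_pow_odd hs1 h1
      have h3 : sg (x - y₀) ^ (k - 1).natAbs * sg (x - y₀) ^ (k - 1).natAbs = 1 :=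
        sign_sq (sign_pow hs1 _)
      rw [pow_add] at h2
      calc sg (x - y₀) ^ k.natAbs = sg (x - y₀) ^ k.natAbs *
            (sg (x - y₀) ^ (k - 1).natAbs * sg (x - y₀) ^ (k - 1).natAbs) := by rw [h3, mul_one]
        _ = (sg (x - y₀) ^ k.natAbs * sg (x - y₀) ^ (k - 1).natAbs) *
            sg (x - y₀) ^ (k - 1).natAbs := by ring
        _ = sg (x - y₀) * sg (x - y₀) ^ (k - 1).natAbs := by rw [h2]
        _ = _ := by ring
    rw [hk2]
    ring
  rw [hE] at hfs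
  refine ⟨ε, hε, ?_⟩
  rcases hε.1 with h1 | h1
  · rw [hfs.1 h1, h1]
    push_cast
    ring
  · rw [hfs.2 h1, h1]
    push_cast
    ring

end Pool.Agent.Lib.MP_7c08ba_nt
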