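import Mathlib
import Pool.Agent.Lib.MP_7c08ba_nt.Tw.Eval
import Pool.Agent.Lib.MP_7c08ba_nt.Tw.Coc

set_option autoImplicit false

/-!
The Hecke character modulo four.
-/

namespace Pool.Agent.Lib.MP_7c08ba_nt

set_option linter.unusedSectionVars false

open NumberField IsDedekindDomain Module Matrix

section

variable {F : Type} [Field F] [NumberField F]
  {ρ : AbsGal F →* Matrix.GeneralLinearGroup (Fin 1) ℚ_[2]}

/-- The scalar of a one-dimensional representation. -/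
noncomputable def sc (ρ : AbsGal F →* Matrix.GeneralLinearGroup (Fin 1) ℚ_[2]) (g : AbsGal F) : ℚ_[2] :=
  (ρ g : Matrix (Fin 1) (Fin 1) ℚ_[2]) 0 0

lemma sc_mul (g h : AbsGal F) : sc ρ (g * h) = sc ρ g * sc ρ h := by
  unfold sc
  rw [map_mul, Units.val_mul, Matrix.mul_apply, Fin.sum_univ_one]

lemma sc_one : sc ρ 1 = 1 := by
  unfold sc
  rw [map_one, Units.val_one, Matrix.one_apply_eq]

lemma sc_pow (g : AbsGal F) (n : ℕ) : sc ρ (g ^ n) = sc ρ g ^ n := by
  induction n with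
  | zero => rw [pow_zero, pow_zero, sc_one]
  | succ n ih => rw [pow_succ, pow_succ, sc_mul, ih]

lemma sc_continuous (hρ : Continuous ρ) : Continuous (sc ρ) := by
  have h1 : Continuous fun g => (ρ g : Matrix (Fin 1) (Fin 1) ℚ_[2]) :=
    Units.continuous_val.comp hρ
  exact h1.matrix_elem 0 0

lemma sc_norm (hρ : Continuous ρ) (g : AbsGal F) : ‖sc ρ g‖ = 1 := by
  have hc : Continuous fun g => ‖sc ρ g‖ := (sc_continuous hρ).norm
  obtain ⟨x, -, hx⟩ := isCompact_univ.exists_isMaxOn (Set.univ_nonempty (α := AbsGal F))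
    hc.continuousOn
  have hle : ∀ g, ‖sc ρ g‖ ≤ 1 := by
    intro g
    by_contra hcon
    rw [not_le] at hcon
    obtain ⟨n, hn⟩ := pow_unbounded_of_one_lt ‖sc ρ x‖ hcon
    have h1 : ‖sc ρ (g ^ n)‖ ≤ ‖sc ρ x‖ := hx (Set.mem_univ (g ^ n))
    rw [sc_pow, norm_pow] at h1
    exact absurd h1 (not_le.mpr hn)
  have h1 : ‖sc ρ g‖ * ‖sc ρ g⁻¹‖ = 1 := by
    rw [← norm_mul, ← sc_mul, mul_inv_cancel, sc_one, norm_one]
  have h2 := hle g
  have h3 := hle g⁻¹
  have h4 := norm_nonneg (sc ρ g)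
  nlinarith

lemma sc_inv (g : AbsGal F) : sc ρ g⁻¹ = (sc ρ g)⁻¹ := by
  apply eq_inv_of_mul_eq_one_left
  rw [← sc_mul, inv_mul_cancel, sc_one]

/-- The elements at which the sign of the character agrees with the sign on the square root. -/
def agree (ρ : AbsGal F →* Matrix.GeneralLinearGroup (Fin 1) ℚ_[2]) (y : AlgebraicClosure F) :
    Subgroup (AbsGal F) where
  carrier := {g | ∃ ε : ℤ, C4 (sc ρ g) ε ∧ g y = ε * y}
  one_mem' := ⟨1, by rw [sc_one]; exact C4.one, by simp⟩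
  mul_mem' := by
    rintro g h ⟨ε, h1, h2⟩ ⟨ε', h1', h2'⟩
    refine ⟨ε * ε', ?_, ?_⟩
    · rw [sc_mul]
      exact h1.mul h1'
    · rw [AlgEquiv.mul_apply, h2', map_mul, h2, map_intCast]
      push_cast
      ring
  inv_mem' := by
    rintro g ⟨ε, h1, h2⟩
    refine ⟨ε, ?_, ?_⟩
    · rw [sc_inv]
      exact h1.inv
    · rw [AlgEquiv.aut_inv, AlgEquiv.symm_apply_eq, map_mul, map_intCast, h2, ← mul_assoc]
      have : ((ε : ℤ) : AlgebraicClosure F) * ε = 1 := by exact_mod_cast sign_sq h1.1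
      rw [this, one_mul]

lemma mem_agree {y : AlgebraicClosure F} {g : AbsGal F} :
    g ∈ agree ρ y ↔ ∃ ε : ℤ, C4 (sc ρ g) ε ∧ g y = ε * y := Iff.rfl

lemma isOpen_agree (hρ : Continuous ρ) {y : AlgebraicClosure F} :
    IsOpen (agree ρ y : Set (AbsGal F)) := by
  apply Subgroup.isOpen_of_mem_nhds (g := 1)
  have h1 : (sqrtStab y : Set (AbsGal F)) ∈ nhds (1 : AbsGal F) :=
    (isOpen_sqrtStab y).mem_nhds (one_mem (sqrtStab y))
  have h2 : {g : AbsGal F | ‖sc ρ g - 1‖ < ‖(4 : ℚ_[2])‖} ∈ nhds (1 : AbsGal F) := by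
    have hc : Continuous fun g => ‖sc ρ g - 1‖ := ((sc_continuous hρ).sub continuous_const).norm
    apply (isOpen_lt hc continuous_const).mem_nhds
    rw [Set.mem_ofPred_eq, sc_one, sub_self, norm_zero, norm_four]
    norm_num
  filter_upwards [h1, h2] with g hg1 hg2
  refine ⟨1, ⟨Or.inl rfl, ?_⟩, ?_⟩
  · rw [Int.cast_one]
    exact le_of_lt hg2
  · have : g y = y := hg1
    rw [this]
    simp

lemma agree_index (hρ : Continuous ρ) {y : AlgebraicClosure F} {z : F}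
    (hy : y ^ 2 = algebraMap F _ z) (hne : agree ρ y ≠ ⊤) : (agree ρ y).index = 2 := by
  obtain ⟨a, ha⟩ : ∃ a, a ∉ agree ρ y := by
    by_contra hcon
    push Not at hcon
    exact hne ((Subgroup.eq_top_iff' _).mpr hcon)
  -- the two signs
  have key : ∀ g : AbsGal F, ∃ ε ε' : ℤ, C4 (sc ρ g) ε ∧ (ε' = 1 ∨ ε' = -1) ∧ g y = ε' * y := by
    intro g
    obtain ⟨ε, hε⟩ := exists_C4 (sc_norm hρ g)
    rcases sqrtStab_or hy g with h | h
    · exact ⟨ε, 1, hε, Or.inl rfl, by rw [h]; simp⟩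
    · exact ⟨ε, -1, hε, Or.inr rfl, by rw [h]; simp⟩
  have hy0 : y ≠ 0 := by
    rintro rfl
    obtain ⟨ε, ε', h1, h2, h3⟩ := key a
    exact ha ⟨ε, h1, by simp⟩
  have huniq : ∀ ε ε' : ℤ, ε * y = ε' * y → ε = ε' := by
    intro ε ε' h
    have h1 := mul_right_cancel₀ hy0 h
    exact_mod_cast h1
  obtain ⟨εa, εa', ha1, ha2, ha3⟩ := key a
  have hane : εa' = -εa := by
    have h1 : εa ≠ εa' := by
      rintro rfl
      exact ha ⟨εa, ha1, ha3⟩
    rcases ha1.1 with h | h <;> rcases ha2 with h' | h' <;> rw [h, h'] at h1 ⊢ <;>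
      first | rfl | exact absurd rfl h1
  rw [Subgroup.index_eq_two_iff]
  refine ⟨a, fun b => ?_⟩
  obtain ⟨εb, εb', hb1, hb2, hb3⟩ := key b
  have hba : C4 (sc ρ (b * a)) (εb * εa) := by
    rw [sc_mul]
    exact hb1.mul ha1
  have hbay : (b * a) y = ((εb' * εa' : ℤ) : AlgebraicClosure F) * y := by
    rw [AlgEquiv.mul_apply, ha3, map_mul, map_intCast, hb3]
    push_cast
    ring
  by_cases hb : εb = εb'
  · right
    refine ⟨⟨εb, hb1, by rw [hb]; exact hb3⟩, ?_⟩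
    rintro ⟨ε, h1, h2⟩
    have h3 := h1.unique hba
    rw [hbay] at h2
    have h4 := huniq _ _ h2
    rw [h3, hane, hb] at h4
    rcases ha1.1 with h | h <;> rcases hb2 with h' | h' <;> rw [h, h'] at h4 <;> norm_num at h4
  · left
    refine ⟨⟨εb * εa, hba, ?_⟩, ?_⟩
    · rw [hbay]
      congr 2
      rw [hane]
      rcases hb1.1 with h | h <;> rcases hb2 with h' | h' <;> rw [h, h'] at hb ⊢ <;>
        first | exact absurd rfl hb | ring
    · rintro ⟨ε, h1, h2⟩
      have h3 := h1.unique hb1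
      rw [hb3] at h2
      have h4 := huniq _ _ h2
      exact hb (by rw [← h3, h4])

end

/-- The Hecke character modulo four is the quadratic character of `√w`. -/
theorem agree_eq_top {q : ℕ} (hq : q.Prime) (h16 : q % 16 = 7) {F : Type} [Field F]
    [NumberField F] (hF : Module.finrank ℚ F = 2) {s : F} (hs : s ^ 2 = -(q : F))
    {rs : Finset ℕ} (hrs : ∀ r ∈ rs, r.Prime) {b₂ : ℕ} {δ : ℤ} (hδ : δ = 1 ∨ δ = -1) {k : ℤ}
    {j J : F →+* ℚ_[2]}
    (hj : ‖j s + 1‖ ≤ ‖(4 : ℚ_[2])‖) (hJ : J s = -j s)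
    {ρ : AbsGal F →* Matrix.GeneralLinearGroup (Fin 1) ℚ_[2]}
    (hρ : Realises q (sI hs) (δ * 2 ^ b₂ * ((∏ r ∈ rs, r : ℕ) : ℤ)) k j J ρ)
    {y : AlgebraicClosure F}
    (hy : y ^ 2 = algebraMap F _ (twEl (tau k δ) b₂ s rs)) : agree ρ y = ⊤ := by
  have hq0 := hq.pos
  by_contra hne
  have hidx := agree_index hρ.continuous hy hne
  obtain ⟨yz, z, hyz0, hyz, hzK, hzn, g₀, hg₀⟩ := exists_sqrt _ (isOpen_agree hρ.continuous) hidx
  have hz0 : z ≠ 0 := by
    rintro rfl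
    rw [map_zero] at hyz
    exact hyz0 (pow_eq_zero_iff two_ne_zero |>.mp hyz)
  -- integral coordinates
  obtain ⟨u, v, huv⟩ := exists_coords hq0 hF hs z
  obtain ⟨D, hD0, x₁, y₁, hx₁, hy₁⟩ : ∃ D : ℤ, D ≠ 0 ∧ ∃ x₁ y₁ : ℤ, (x₁ : ℚ) = u * D ^ 2 ∧
      (y₁ : ℚ) = v * D ^ 2 := by
    refine ⟨u.den * v.den, ?_, u.num * u.den * v.den ^ 2, v.num * v.den * u.den ^ 2, ?_, ?_⟩
    · exact mul_ne_zero (by exact_mod_cast u.den_nz) (by exact_mod_cast v.den_nz)
    · push_cast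
      have h3 : u * u.den = u.num := Rat.mul_den_eq_num u
      linear_combination (-(u.den : ℚ) * v.den ^ 2) * h3
    · push_cast
      have h3 : v * v.den = v.num := Rat.mul_den_eq_num v
      linear_combination (-(v.den : ℚ) * u.den ^ 2) * h3
  have hZ : (x₁ : F) + y₁ * s = z * (D : F) ^ 2 := by
    have h1 : ((x₁ : ℚ) : F) = ((u * D ^ 2 : ℚ) : F) := by rw [hx₁]
    have h2 : ((y₁ : ℚ) : F) = ((v * D ^ 2 : ℚ) : F) := by rw [hy₁]
    push_cast at h1 h2
    rw [huv, h1, h2]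
    ring
  have hDF : (D : F) ≠ 0 := by exact_mod_cast hD0
  have hZ0 : (x₁ : F) + y₁ * s ≠ 0 := by
    rw [hZ]
    exact mul_ne_zero hz0 (pow_ne_zero 2 hDF)
  have hxy : x₁ ≠ 0 ∨ y₁ ≠ 0 := by
    by_contra hcon
    push Not at hcon
    apply hZ0
    rw [hcon.1, hcon.2]
    simp
  have hsq := isSquare_of_residues hq0 hs hxy (max 2 (max q (∏ r ∈ rs, r))) (by
    intro l hlB hl a ha hjac
    have hl2 : l ≠ 2 := by
      have := lt_of_le_of_lt (le_max_left _ _) hlB
      omega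
    have hlq : l ≠ q := by
      have := lt_of_le_of_lt ((le_max_left q _).trans (le_max_right _ _)) hlB
      omega
    have hR0 : (∏ r ∈ rs, r) ≠ 0 := Finset.prod_ne_zero_iff.mpr fun r hr => (hrs r hr).ne_zero
    have hlR : ¬ l ∣ ∏ r ∈ rs, r := by
      intro h
      have h1 := Nat.le_of_dvd (Nat.pos_of_ne_zero hR0) h
      have := lt_of_le_of_lt ((le_max_right q _).trans (le_max_right _ _)) hlB
      omega
    obtain ⟨P, hP, hlP, haP⟩ := exists_split_prime hq0 hF hs hq hl hl2 ha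
    obtain ⟨g, hg⟩ := exists_frob hP hl hlP (split_res hq0 hF hs hq hl hl2 hlP haP)
    obtain ⟨ε, hε1, hε2⟩ := hecke_eval hq h16 hF hs hδ hj hJ hρ hl hl2 hlq hlR hP hlP haP hg hy
    have hgK : g ∈ agree ρ y := ⟨ε, hε1, hε2⟩
    have hgz := hzK g hgK
    -- the action on the square root of `Z`
    have hlp := Nat.prime_iff_prime_int.mp hl
    have hnd : ¬ (l : ℤ) ∣ x₁ + y₁ * a := by
      intro h
      have h1 : jacobiSym (x₁ + y₁ * a) l = jacobiSym 0 l := jacobi_congr (by rwa [sub_zero])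
      rw [h1] at hjac
      rcases jacobiSym.trichotomy 0 l with h2 | h2 | h2
      · rw [h2] at hjac; norm_num at hjac
      · rw [h2] at hjac; norm_num at hjac
      · have h3 : (l : ℤ) ∣ 0 := dvd_zero _
        have : Fact l.Prime := ⟨hl⟩
        rw [← jacobiSym.legendreSym.to_jacobiSym] at h2
        have h4 := (legendreSym.eq_zero_iff l 0).mpr (by simp)
        rw [h4] at h2
        norm_num at h2
    set Z : 𝓞 F := (x₁ : 𝓞 F) + y₁ * sI hs with hZdef
    have hZF : (Z : F) = x₁ + y₁ * s := by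
      rw [hZdef, RingOfIntegers.coe_eq_algebraMap]
      simp only [map_mul, map_add, map_intCast, algebraMap_sI]
    have hZa : algebraMap (𝓞 F) (AllInt F) Z - ((x₁ + y₁ * a : ℤ) : AllInt F) ∈ P := by
      have h1 : Z - ((x₁ + y₁ * a : ℤ) : 𝓞 F) = y₁ * (sI hs - a) := by
        rw [hZdef]
        push_cast
        ring
      have h2 := congrArg (algebraMap (𝓞 F) (AllInt F)) h1
      rw [map_sub, map_intCast, map_mul] at h2
      rw [h2]
      exact P.mul_mem_left _ haP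
    have hZP : algebraMap (𝓞 F) (AllInt F) Z ∉ P := by
      intro h
      have h1 := P.sub_mem h hZa
      rw [sub_sub_cancel] at h1
      exact hnd (dvd_of_mem_under hl hP hlP h1)
    have hyZ : (((D : ℤ) : AlgebraicClosure F) * yz) ^ 2 = algebraMap F _ (Z : F) := by
      rw [hZF, hZ, map_mul, map_pow, mul_pow, hyz, map_intCast]
      ring
    have hfs := (frob_sqrt hP hl hl2 hlP hg hyZ hZP (m := 1) (by
        rw [map_one]
        exact fun h => hP.ne_top ((Ideal.eq_top_iff_one P).mpr h)) (by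
        rw [one_pow, mul_one]
        exact hZa)).2 hjac
    rw [map_mul, map_intCast, hgz] at hfs
    have hDy : ((D : ℤ) : AlgebraicClosure F) * yz ≠ 0 :=
      mul_ne_zero (by exact_mod_cast hD0) hyz0
    exact neg_ne_self hDy hfs.symm)
  obtain ⟨t, ht⟩ := hsq
  have hzsq : (t / D) ^ 2 = z := by
    rw [hZ] at ht
    rw [div_pow, div_eq_iff (pow_ne_zero 2 hDF), sq, ← ht]
  have h1 : (yz - algebraMap F _ (t / D)) * (yz + algebraMap F _ (t / D)) = 0 := by
    have h2 : yz ^ 2 = algebraMap F (AlgebraicClosure F) (t / D) ^ 2 := by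
      rw [hyz, ← map_pow, hzsq]
    linear_combination h2
  have h2 : g₀ yz = yz := by
    rcases mul_eq_zero.mp h1 with h | h
    · rw [sub_eq_zero.mp h, AlgEquiv.commutes]
    · rw [eq_neg_of_add_eq_zero_left h, map_neg, AlgEquiv.commutes]
  have h3 := hzn g₀ hg₀
  rw [h2] at h3
  exact neg_ne_self hyz0 h3.symm

end Pool.Agent.Lib.MP_7c08ba_nt
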