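import Mathlib
import Pool.Agent.Lib.MP_7c08ba_nt.Tw.Global

set_option autoImplicit false

/-!
Selmer ranks of representations congruent to a quadratic character modulo four.
-/

namespace Pool.Agent.Lib.MP_7c08ba_nt

set_option linter.unusedSectionVars false

open NumberField Matrix IsDedekindDomain
open scoped Pointwise

section

variable {F : Type} [Field F] {L : Type} [NormedField L] {n : ℕ}

/-- The Selmer cocycles vanishing on the decomposition group. -/
def vanish (ρ : AbsGal F →* Matrix.GeneralLinearGroup (Fin n) L) (P₀ : Ideal (AllInt F)) :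
    Submodule L (selmer ρ P₀) where
  carrier := {c | ∀ g ∈ decomp F P₀, (c : AbsGal F → Fin n → L) g = 0}
  zero_mem' := fun g _ => rfl
  add_mem' := fun {a b} ha hb g hg => by
    have h1 := ha g hg
    have h2 := hb g hg
    change (a : AbsGal F → Fin n → L) g + (b : AbsGal F → Fin n → L) g = 0
    rw [h1, h2, add_zero]
  smul_mem' := fun r a ha g hg => by
    change r • (a : AbsGal F → Fin n → L) g = 0
    rw [ha g hg, smul_zero]

lemma mem_vanish {ρ : AbsGal F →* Matrix.GeneralLinearGroup (Fin n) L} {P₀ : Ideal (AllInt F)}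
    (c : selmer ρ P₀) : c ∈ vanish ρ P₀ ↔
      ∀ g ∈ decomp F P₀, (c : AbsGal F → Fin n → L) g = 0 := Iff.rfl

/-- The Selmer rank is bounded by the dimension of any space into which the Selmer cocycles
vanishing on the decomposition group embed. -/
lemma rank_le_of_injective {ρ : AbsGal F →* Matrix.GeneralLinearGroup (Fin n) L}
    (hρ : Continuous ρ) {P₀ : Ideal (AllInt F)} {W : Type} [AddCommGroup W] [Module L W]
    [Module.Finite L W] (Φ : vanish ρ P₀ →ₗ[L] W) (hΦ : Function.Injective Φ) :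
    selmerRank ρ P₀ ≤ (Module.finrank L W : Cardinal) := by
  have hfin : Module.Finite L (vanish ρ P₀) := Module.Finite.of_injective Φ hΦ
  let Ψ : vanish ρ P₀ →ₗ[L] (selmer ρ P₀ ⧸ (coboundOn ρ ⊤).submoduleOf (selmer ρ P₀)) :=
    (Submodule.mkQ _).comp (vanish ρ P₀).subtype
  have hΨ : Function.Surjective Ψ := by
    intro y
    obtain ⟨c, rfl⟩ := Submodule.mkQ_surjective _ y
    obtain ⟨h1, ⟨x, hx⟩, h3⟩ := mem_selmer.mp c.2
    set b : AbsGal F → Fin n → L :=
      fun g => (ρ g : Matrix (Fin n) (Fin n) L) *ᵥ x - x with hb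
    have hbs : b ∈ selmer ρ P₀ :=
      mem_selmer.mpr ⟨cobound_mem_cocycles hρ x, ⟨x, fun g _ => rfl⟩,
        fun P _ _ => ⟨x, fun g _ => rfl⟩⟩
    have hbc : c - ⟨b, hbs⟩ ∈ vanish ρ P₀ := by
      rw [mem_vanish]
      intro g hg
      change (c : AbsGal F → Fin n → L) g - b g = 0
      rw [hx g hg, sub_self]
    refine ⟨⟨c - ⟨b, hbs⟩, hbc⟩, ?_⟩
    change (Submodule.mkQ _) (c - ⟨b, hbs⟩) = _
    rw [map_sub, sub_eq_self, Submodule.mkQ_apply, Submodule.Quotient.mk_eq_zero]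
    exact ⟨x, fun g _ => rfl⟩
  have hfin2 := Module.Finite.of_surjective Ψ hΨ
  unfold selmerRank
  rw [← Module.finrank_eq_rank]
  exact_mod_cast (LinearMap.finrank_le_finrank_of_surjective hΨ).trans
    (LinearMap.finrank_le_finrank_of_injective hΦ)

end

/-- Test elements. -/
lemma exists_test {F : Type} [Field F] [NumberField F] {L : Type} [NormedField L]
    [IsUltrametricDist L] [CharZero L] (hL : ‖(2 : L)‖ < 1) {n : ℕ} (hn : 0 < n)
    {ρ : AbsGal F →* Matrix.GeneralLinearGroup (Fin n) L} {w : F} (hw0 : w ≠ 0)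
    {y : AlgebraicClosure F} (hy : y ^ 2 = algebraMap F _ w) (hρ : CongSign ρ (sqrtStab y))
    (hram : ∀ P : Ideal (AllInt F), P.IsPrime → (2 : AllInt F) ∉ P → ∀ g ∈ inert F P,
      ρ g = 1 ∨ ρ g = -1) {b : 𝓞 F} {v : HeightOneSpectrum (𝓞 F)} (hb : b ∈ v.asIdeal)
    (h2 : (2 : 𝓞 F) ∉ v.asIdeal) (hv : ¬ IsSquare (v.valuation F w)) :
    ∃ g : AbsGal F, ∀ c : AbsGal F → Fin n → L, c g = 0 →
      TestAt ρ c (algebraMap (𝓞 F) (AllInt F) b) := by
  obtain ⟨S, hSp, hS⟩ := exists_prime_over v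
  have h2S : (2 : AllInt F) ∉ S := by
    intro h'
    apply h2
    rw [hS]
    have h4 : algebraMap (𝓞 F) (AllInt F) 2 = 2 := map_ofNat _ 2
    rw [h4]
    exact h'
  obtain ⟨t, ht, hty⟩ : ∃ t ∈ inert F S, t y ≠ y := by
    by_contra hcon
    push Not at hcon
    exact hv (isSquare_val_of_inert hw0 hy v S hSp hS hcon)
  have htneg := eq_neg_one_of_cong hL hn hρ (t := t) hty (hram S hSp h2S t ht)
  exact ⟨t, fun c hc => ⟨S, hSp, (hS _).mp hb, t, ht, htneg, hc⟩⟩

/-- A set of test primes of the right size. -/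
lemma exists_test_set (rs : Finset ℕ) : ∃ T : Finset ℕ, T ⊆ rs ∧ T.card ≤ base rs ∧
    (∀ r ∈ rs, r % 8 = 7 → r ∈ T) ∧ (∃ r₀, ∀ r ∈ rs, r % 8 = 3 → r ≠ r₀ → r ∈ T) ∧
    ((rs.filter (fun r => r % 8 = 3)).card = 0 →
      (rs.filter (fun r => r % 8 = 5)).card % 2 = 1 → ∃ r ∈ rs, r % 8 = 5 ∧ r ∈ T) := by
  classical
  unfold base base0
  set A3 := rs.filter (fun r => r % 8 = 3) with hA3
  set A5 := rs.filter (fun r => r % 8 = 5) with hA5
  set A7 := rs.filter (fun r => r % 8 = 7) with hA7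
  by_cases h3 : A3.card = 0
  · rw [if_pos h3]
    have hA3e : ∀ r ∈ rs, r % 8 ≠ 3 := by
      intro r hr h
      rw [Finset.card_eq_zero, Finset.filter_eq_empty_iff] at h3
      exact h3 hr h
    by_cases h5 : A5.card % 2 = 1
    · obtain ⟨r₁, hr₁⟩ : A5.Nonempty := by
        rw [← Finset.card_pos]
        omega
      have hr₁' := Finset.mem_filter.mp hr₁
      refine ⟨insert r₁ A7, ?_, ?_, ?_, ⟨0, fun r hr h => absurd h (hA3e r hr)⟩, ?_⟩
      · exact Finset.insert_subset hr₁'.1 (Finset.filter_subset _ _)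
      · have := Finset.card_insert_le r₁ A7
        omega
      · exact fun r hr h => Finset.mem_insert_of_mem (Finset.mem_filter.mpr ⟨hr, h⟩)
      · exact fun _ _ => ⟨r₁, hr₁'.1, hr₁'.2, Finset.mem_insert_self _ _⟩
    · refine ⟨A7, Finset.filter_subset _ _, by omega, ?_,
        ⟨0, fun r hr h => absurd h (hA3e r hr)⟩, fun _ h => absurd h h5⟩
      exact fun r hr h => Finset.mem_filter.mpr ⟨hr, h⟩
  · rw [if_neg h3]
    obtain ⟨r₀, hr₀⟩ : A3.Nonempty := by
      rw [← Finset.card_pos]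
      omega
    refine ⟨A7 ∪ A3.erase r₀, ?_, ?_, ?_, ⟨r₀, ?_⟩, fun h => absurd h h3⟩
    · exact Finset.union_subset (Finset.filter_subset _ _)
        ((Finset.erase_subset _ _).trans (Finset.filter_subset _ _))
    · have h4 := Finset.card_union_le A7 (A3.erase r₀)
      rw [Finset.card_erase_of_mem hr₀] at h4
      exact h4
    · exact fun r hr h => Finset.mem_union_left _ (Finset.mem_filter.mpr ⟨hr, h⟩)
    · exact fun r hr h h' => Finset.mem_union_right _
        (Finset.mem_erase.mpr ⟨h', Finset.mem_filter.mpr ⟨hr, h⟩⟩)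

/-- The Selmer rank in the twisted case. -/
theorem twist_rank {q : ℕ} (hq : q.Prime) (h16 : q % 16 = 7) {F : Type} [Field F]
    [NumberField F] (hF : Module.finrank ℚ F = 2) {s : F} (hs : s ^ 2 = -(q : F))
    {rs : Finset ℕ} (hrs : InertSet q rs) {τ : ℤ} (hτ : τ = 1 ∨ τ = -1) {a : ℕ} (J : F →+* ℚ_[2])
    {σ : ℤ_[2]} (hJ : J s = σ) (hσ : PadicInt.toZModPow 3 σ = 5)
    {L : Type} [NormedField L] [IsUltrametricDist L] [CharZero L] (hL : ‖(2 : L)‖ < 1)
    {n : ℕ} {ρ : AbsGal F →* Matrix.GeneralLinearGroup (Fin n) L} (hρc : Continuous ρ)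
    {y : AlgebraicClosure F} (hy : y ^ 2 = algebraMap F _ (twEl τ a s rs))
    (hρ : CongSign ρ (sqrtStab y))
    (hram : ∀ P : Ideal (AllInt F), P.IsPrime → (2 : AllInt F) ∉ P → ∀ g ∈ inert F P,
      ρ g = 1 ∨ ρ g = -1)
    (hunr : ∀ P : Ideal (AllInt F), P.IsPrime → (2 : AllInt F) ∉ P →
      algebraMap (𝓞 F) (AllInt F) (sI hs) ∉ P → (∀ r ∈ rs, (r : AllInt F) ∉ P) →
      ∀ g ∈ inert F P, ρ g = 1)
    {P₀ : Ideal (AllInt F)} (hP₀ : LiesAt J P₀) {B : ℕ} (hB : base rs ≤ B)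
    (hBτ : (-1) ^ B = τ) : selmerRank ρ P₀ ≤ (n * B : ℕ) := by
  classical
  have hq0 := hq.pos
  rcases Nat.eq_zero_or_pos n with rfl | hn
  · have h1 : Function.Injective (0 : vanish ρ P₀ →ₗ[L] (Fin 0 → L)) := by
      intro c d _
      apply Subtype.ext
      apply Subtype.ext
      funext g
      exact Subsingleton.elim _ _
    have h3 := rank_le_of_injective hρc (0 : vanish ρ P₀ →ₗ[L] (Fin 0 → L)) h1
    rw [Module.finrank_fin_fun] at h3
    rw [zero_mul]
    exact h3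
  have hw0 : twEl τ a s rs ≠ 0 := by
    unfold twEl
    refine mul_ne_zero (mul_ne_zero (mul_ne_zero ?_ (pow_ne_zero _ two_ne_zero))
      (s_ne_zero hq0 hs)) (prod_ne_zero' fun r hr => (hrs r hr).1)
    rcases hτ with rfl | rfl <;> simp
  -- test elements
  have hgR : ∀ r ∈ rs, ∃ g : AbsGal F, ∀ c : AbsGal F → Fin n → L, c g = 0 → TestAt ρ c r := by
    intro r hr
    obtain ⟨h1, h3, h4⟩ := hrs r hr
    have hr0 : (r : 𝓞 F) ≠ 0 := by exact_mod_cast h1.ne_zero
    obtain ⟨v, hv⟩ : ∃ v : HeightOneSpectrum (𝓞 F), (r : 𝓞 F) ∈ v.asIdeal :=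
      ⟨⟨Ideal.span {(r : 𝓞 F)}, spanR_isPrime hq0 hF hs hq h1 h3 h4, by
        rw [Ne, Ideal.span_singleton_eq_bot]; exact hr0⟩, Ideal.mem_span_singleton_self _⟩
    have h2v := two_notMem_of_odd hv (hrs.odd hr)
    obtain ⟨g, hg⟩ := exists_test hL hn hw0 hy hρ hram hv h2v
      (val_twEl_r hq0 hF hs hq hrs hτ hr hv h2v)
    rw [map_natCast] at hg
    exact ⟨g, hg⟩
  obtain ⟨gS, hgS⟩ : ∃ g : AbsGal F, ∀ c : AbsGal F → Fin n → L, c g = 0 →
      TestAt ρ c (algebraMap (𝓞 F) (AllInt F) (sI hs)) := by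
    obtain ⟨v, hv⟩ : ∃ v : HeightOneSpectrum (𝓞 F), sI hs ∈ v.asIdeal :=
      ⟨⟨Ideal.span {sI hs}, spanS_isPrime hq0 hF hs hq, by
        rw [Ne, Ideal.span_singleton_eq_bot]; exact sI_ne_zero hq0 hs⟩,
        Ideal.mem_span_singleton_self _⟩
    have h2v := two_notMem_of_odd (q_mem hs hv) (by omega)
    exact exists_test hL hn hw0 hy hρ hram hv h2v (val_twEl_s hq0 hF hs hq hrs hτ hv h2v)
  obtain ⟨T, hTrs, hTc, hT7, ⟨r₀, hT3⟩, hT5⟩ := exists_test_set rs
  choose! gR hgR using hgR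
  set E : Finset (AbsGal F) :=
    T.image gR ∪ (if τ = (-1) ^ (base rs + 1) then {gS} else ∅) with hE
  have hEc : E.card ≤ B := by
    have h1 := Finset.card_union_le (T.image gR)
      (if τ = (-1) ^ (base rs + 1) then {gS} else ∅)
    have h3 := Finset.card_image_le (s := T) (f := gR)
    rw [← hE] at h1
    split_ifs at h1 with h
    · have h4 : base rs ≠ B := by
        rintro h5
        rw [← h5] at hBτ
        rw [← hBτ, pow_succ] at h
        rcases neg_one_pow_eq_or ℤ (base rs) with h6 | h6 <;> rw [h6] at h <;> norm_num at h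
      rw [Finset.card_singleton] at h1
      omega
    · rw [Finset.card_empty] at h1
      omega
  -- evaluation
  let Φ : vanish ρ P₀ →ₗ[L] (E → Fin n → L) :=
    { toFun := fun c g => (c.1 : AbsGal F → Fin n → L) g
      map_add' := fun a b => rfl
      map_smul' := fun r a => rfl }
  have hΦ : Function.Injective Φ := by
    rw [injective_iff_map_eq_zero]
    intro c hc
    apply Subtype.ext
    apply Subtype.ext
    obtain ⟨h1, h2, h3⟩ := mem_selmer.mp c.1.2
    have hcE : ∀ g ∈ E, (c.1 : AbsGal F → Fin n → L) g = 0 := fun g hg => congrFun hc ⟨g, hg⟩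
    have hcR : ∀ r ∈ T, TestAt ρ (c.1 : AbsGal F → Fin n → L) r := fun r hr =>
      hgR r (hTrs hr) _ (hcE _ (Finset.mem_union_left _ (Finset.mem_image_of_mem gR hr)))
    refine twist_vanish hq h16 hF hs hrs hτ J hJ hσ hL hy hρ hram hunr hP₀ h1
      ((mem_vanish c.1).mp c.2) h3 (fun r hr h => hcR r (hT7 r hr h))
      ⟨r₀, fun r hr h h' => hcR r (hT3 r hr h h')⟩ ?_ ?_
    · intro h h'
      obtain ⟨r, hr, h8, hrT⟩ := hT5 h h'
      exact ⟨r, hr, h8, hcR r hrT⟩
    · intro h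
      apply hgS
      apply hcE
      apply Finset.mem_union_right
      rw [if_pos h]
      exact Finset.mem_singleton_self _
  have h3 := rank_le_of_injective hρc Φ hΦ
  refine h3.trans ?_
  rw [Module.finrank_pi_fintype]
  simp only [Module.finrank_fin_fun, Finset.sum_const, Finset.card_univ, Fintype.card_coe,
    smul_eq_mul]
  exact_mod_cast (by rw [mul_comm]; exact Nat.mul_le_mul_left n hEc : E.card * n ≤ n * B)

end Pool.Agent.Lib.MP_7c08ba_nt
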