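import Mathlib
import Pool.Agent.Lib.MP_7c08ba_nt.Tw.Cong
import Pool.Agent.Lib.MP_7c08ba_nt.Tw.Rank

set_option autoImplicit false

/-!
Selmer groups of canonical Hecke characters of `ℚ(√-q)`, `q ≡ 7 (mod 16)`, at the prime `2`.
-/

namespace Pool.Agent.Lib.MP_7c08ba_nt

set_option linter.unusedSectionVars false

open NumberField IsDedekindDomain Module Matrix

section

variable {F : Type} [Field F] [NumberField F]

/-- One-dimensional representations act by scalars. -/
lemma mulVec_sc (ρ : AbsGal F →* Matrix.GeneralLinearGroup (Fin 1) ℚ_[2]) (g : AbsGal F)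
    (x : Fin 1 → ℚ_[2]) : (ρ g : Matrix (Fin 1) (Fin 1) ℚ_[2]) *ᵥ x = sc ρ g • x := by
  funext i
  have hi : i = 0 := Subsingleton.elim _ _
  subst hi
  simp [Matrix.mulVec, dotProduct, sc]

lemma congSign_of_agree {ρ : AbsGal F →* Matrix.GeneralLinearGroup (Fin 1) ℚ_[2]}
    {y : AlgebraicClosure F} (hy0 : y ≠ 0) {z : F} (hy : y ^ 2 = algebraMap F _ z)
    (h : agree ρ y = ⊤) : CongSign ρ (sqrtStab y) := by
  have key : ∀ g, ∃ ε : ℤ, C4 (sc ρ g) ε ∧ g y = ε * y := by
    intro g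
    have : g ∈ agree ρ y := h ▸ Subgroup.mem_top g
    exact this
  constructor
  · intro g hg x
    obtain ⟨ε, h1, h2⟩ := key g
    have h3 : g y = y := hg
    have h4 : ε = 1 := by
      rw [h3] at h2
      have h5 : ((1 : ℤ) : AlgebraicClosure F) * y = ε * y := by
        rw [Int.cast_one, one_mul]
        exact h2
      have h6 := mul_right_cancel₀ hy0 h5
      exact_mod_cast h6.symm
    rw [mulVec_sc]
    have h5 : sc ρ g • x - x = (sc ρ g - 1) • x := by rw [sub_smul, one_smul]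
    rw [h5, norm_smul]
    refine mul_le_mul_of_nonneg_right ?_ (norm_nonneg x)
    have := h1.2
    rw [h4, Int.cast_one] at this
    exact this
  · intro g hg x
    obtain ⟨ε, h1, h2⟩ := key g
    have h3 : g y = -y := (sqrtStab_or hy g).resolve_left hg
    have h4 : ε = -1 := by
      rw [h3] at h2
      have h5 : ((-1 : ℤ) : AlgebraicClosure F) * y = ε * y := by
        rw [← h2]
        push_cast
        ring
      have h6 := mul_right_cancel₀ hy0 h5
      exact_mod_cast h6.symm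
    rw [mulVec_sc]
    have h5 : sc ρ g • x + x = (sc ρ g + 1) • x := by rw [add_smul, one_smul]
    rw [h5, norm_smul]
    refine mul_le_mul_of_nonneg_right ?_ (norm_nonneg x)
    have := h1.2
    rw [h4] at this
    push_cast at this
    rwa [sub_neg_eq_add] at this

end

/-- The result, for the normalised square root of `-q`. -/
theorem hecke_rank_aux {q : ℕ} (hq : q.Prime) (h16 : q % 16 = 7) {F : Type} [Field F]
    [NumberField F] (hF : Module.finrank ℚ F = 2) {s : F} (hs : s ^ 2 = -(q : F))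
    {rs : Finset ℕ} (hrs : InertSet q rs) {b₂ : ℕ} {δ : ℤ} (hδ : δ = 1 ∨ δ = -1) {k : ℤ}
    {j J : F →+* ℚ_[2]} {σ' : ℤ_[2]} (hσ' : j s = σ') (hσ3 : PadicInt.toZModPow 3 σ' = 3) (hJ : J s = -j s)
    {ρ : AbsGal F →* Matrix.GeneralLinearGroup (Fin 1) ℚ_[2]}
    (hρ : Realises q (sI hs) (δ * 2 ^ b₂ * ((∏ r ∈ rs, r : ℕ) : ℤ)) k j J ρ)
    {P₀ : Ideal (AllInt F)} (hP₀ : LiesAt J P₀) {B : ℕ} (hB : base rs ≤ B)
    (hBτ : (-1) ^ B = tau k δ) : selmerRank ρ P₀ ≤ B := by
  have hq0 := hq.pos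
  have htau := tau_or (k := k) hδ
  have hj4 : ‖j s + 1‖ ≤ ‖(4 : ℚ_[2])‖ := by
    have h1 : σ' - 3 ∈ RingHom.ker (PadicInt.toZModPow (p := 2) 3) := by
      rw [RingHom.mem_ker, map_sub, hσ3, map_ofNat, sub_self]
    rw [PadicInt.ker_toZModPow, Ideal.mem_span_singleton] at h1
    obtain ⟨w, hw⟩ := h1
    have h8 : ((2 : ℤ_[2]) : ℚ_[2]) = 2 := map_ofNat (PadicInt.Coe.ringHom (p := 2)) 2
    have h3 : ((3 : ℤ_[2]) : ℚ_[2]) = 3 := map_ofNat (PadicInt.Coe.ringHom (p := 2)) 3
    have h2 : j s + 1 = 4 * ((1 + 2 * w : ℤ_[2]) : ℚ_[2]) := by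
      have h4 := congrArg (fun x : ℤ_[2] => (x : ℚ_[2])) hw
      push_cast at h4
      rw [h8, h3, ← hσ'] at h4
      push_cast
      rw [h8]
      linear_combination h4
    rw [h2, norm_mul]
    exact mul_le_of_le_one_right (norm_nonneg _) (1 + 2 * w : ℤ_[2]).2
  have hJσ : J s = ((-σ' : ℤ_[2]) : ℚ_[2]) := by
    rw [hJ, hσ']
    push_cast
    rfl
  have hσ5 : PadicInt.toZModPow 3 (-σ') = 5 := by
    rw [map_neg, hσ3]
    rfl
  have hw0 : twEl (tau k δ) b₂ s rs ≠ 0 := by
    unfold twEl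
    refine mul_ne_zero (mul_ne_zero (mul_ne_zero ?_ (pow_ne_zero _ two_ne_zero))
      (s_ne_zero hq0 hs)) (prod_ne_zero' fun r hr => (hrs r hr).1)
    rcases htau with h | h <;> rw [h] <;> simp
  obtain ⟨y, hy⟩ := IsAlgClosed.exists_pow_nat_eq
    (algebraMap F (AlgebraicClosure F) (twEl (tau k δ) b₂ s rs)) (n := 2) two_pos
  have hy0 : y ≠ 0 := by
    rintro rfl
    rw [zero_pow two_ne_zero, eq_comm, map_eq_zero_iff _ (algebraMap F _).injective] at hy
    exact hw0 hy
  have htop := agree_eq_top hq h16 hF hs (fun r hr => (hrs r hr).1) hδ hj4 hJ hρ hy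
  have hcong := congSign_of_agree hy0 hy htop
  have h2 : ‖(2 : ℚ_[2])‖ < 1 := by
    have h3 : ‖(2 : ℚ_[2])‖ = 2⁻¹ := by
      have := Padic.norm_p (p := 2)
      exact_mod_cast this
    rw [h3]
    norm_num
  have hmain := twist_rank hq h16 hF hs hrs htau J hJσ hσ5 h2 hρ.continuous hy hcong
    (fun P hP h2P g hg => (hρ.inertia P hP h2P g hg).imp id And.left)
    (by
      intro P hP h2P hsP hrP g hg
      rcases hρ.inertia P hP h2P g hg with h | ⟨-, h⟩
      · exact h
      · exfalso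
        rcases hP.mem_or_mem h with h1 | h1
        · apply hsP
          apply hP.mem_of_pow_mem 2
          have h3 := congrArg (algebraMap (𝓞 F) (AllInt F)) (sI_sq hs)
          rw [map_pow, map_neg, map_natCast] at h3
          rw [h3]
          exact P.neg_mem h1
        · push_cast at h1
          rcases hP.mem_or_mem h1 with h3 | h3
          · rcases hP.mem_or_mem h3 with h4 | h4
            · apply hP.ne_top
              rw [Ideal.eq_top_iff_one]
              rcases hδ with rfl | rfl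
              · simpa using h4
              · have := P.neg_mem h4
                simpa using this
            · exact h2P (hP.mem_of_pow_mem b₂ h4)
          · obtain ⟨r, hr, hrP'⟩ := (hP.prod_mem_iff).mp h3
            exact hrP r hr hrP') hP₀ hB hBτ
  rwa [one_mul] at hmain

/-- A squarefree integer is its sign, times a power of two, times the product of its odd prime
divisors. -/
lemma squarefree_decomp {D : ℤ} (hD : Squarefree D) :
    ∃ b₂ : ℕ, D = D.sign * 2 ^ b₂ * ((∏ r ∈ D.natAbs.primeFactors.erase 2, r : ℕ) : ℤ) := by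
  have hsq : Squarefree D.natAbs := Int.squarefree_natAbs.mpr hD
  have h1 := Nat.prod_primeFactors_of_squarefree hsq
  by_cases h2 : 2 ∈ D.natAbs.primeFactors
  · refine ⟨1, ?_⟩
    have h3 := Finset.mul_prod_erase D.natAbs.primeFactors (fun r => r) h2
    rw [h1] at h3
    have h4 : ((D.natAbs : ℕ) : ℤ) = 2 * ((∏ r ∈ D.natAbs.primeFactors.erase 2, r : ℕ) : ℤ) := by
      exact_mod_cast h3.symm
    rw [pow_one, mul_assoc, ← h4, Int.sign_mul_natAbs]
  · refine ⟨0, ?_⟩
    rw [Finset.erase_eq_of_notMem h2, h1, pow_zero, mul_one, Int.sign_mul_natAbs]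

lemma filter_erase_two (S : Finset ℕ) {i : ℕ} (hi : i % 2 = 1) :
    (S.erase 2).filter (fun r => r % 8 = i) = S.filter (fun r => r % 8 = i) := by
  ext r
  simp only [Finset.mem_filter, Finset.mem_erase]
  constructor
  · rintro ⟨⟨_, h1⟩, h2⟩
    exact ⟨h1, h2⟩
  · rintro ⟨h1, h2⟩
    refine ⟨⟨?_, h1⟩, h2⟩
    rintro rfl
    omega

lemma base_erase (D : ℤ) : base (D.natAbs.primeFactors.erase 2) = basicBound D := by
  unfold base base0 basicBound primesMod
  rw [filter_erase_two _ (by norm_num), filter_erase_two _ (by norm_num),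
    filter_erase_two _ (by norm_num)]

/-- **Selmer groups of canonical Hecke characters.** -/
theorem hecke_rank {q : ℕ} (hq : q.Prime) (h16 : q % 16 = 7) {F : Type} [Field F]
    [NumberField F] (hF : Module.finrank ℚ F = 2) {s : 𝓞 F} (hs : s ^ 2 = -(q : 𝓞 F))
    {D : ℤ} (hD : Squarefree D)
    (hin : ∀ r : ℕ, r.Prime → r ≠ 2 → (r : ℤ) ∣ D → ¬ IsSquare (((-q : ℤ)) : ZMod r)) {k : ℤ}
    {j J : F →+* ℚ_[2]} (hjJ : j ≠ J)
    {ρ : AbsGal F →* Matrix.GeneralLinearGroup (Fin 1) ℚ_[2]}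
    (hρ : Realises q s D k j J ρ)
    {P₀ : Ideal (AllInt F)} (hP₀ : LiesAt J P₀) {B : ℕ} (hB : basicBound D ≤ B)
    (hpar : (-1) ^ B = (-1) ^ (k - 1).natAbs * D.sign) : selmerRank ρ P₀ ≤ B := by
  have hq0 := hq.pos
  have hD0 : D ≠ 0 := hD.ne_zero
  have hδ : D.sign = 1 ∨ D.sign = -1 := by
    rcases lt_trichotomy D 0 with h | h | h
    · exact Or.inr (Int.sign_eq_neg_one_of_neg h)
    · exact absurd h hD0
    · exact Or.inl (Int.sign_eq_one_of_pos h)
  have hgood : InertSet q (D.natAbs.primeFactors.erase 2) := by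
    intro r hr
    rw [Finset.mem_erase, Nat.mem_primeFactors] at hr
    exact ⟨hr.2.1, hr.1, hin r hr.2.1 hr.1 (Int.natCast_dvd.mpr hr.2.2.1)⟩
  obtain ⟨b₂, hdec⟩ := squarefree_decomp hD
  rw [hdec] at hρ
  rw [← base_erase] at hB
  generalize D.natAbs.primeFactors.erase 2 = rs at hgood hρ hB
  generalize D.sign = δ at hδ hρ hpar
  have hsF : ((s : 𝓞 F) : F) ^ 2 = -(q : F) := by
    have := congrArg (fun x : 𝓞 F => algebraMap (𝓞 F) F x) hs
    simpa only [map_pow, map_neg, map_natCast] using this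
  -- the two embeddings differ by a sign
  have hJj : J (s : F) = -j (s : F) := by
    have h1 : (J (s : F)) ^ 2 = (j (s : F)) ^ 2 := by
      have e1 : (J (s : F)) ^ 2 = J ((s : F) ^ 2) := (map_pow J _ 2).symm
      have e2 : (j (s : F)) ^ 2 = j ((s : F) ^ 2) := (map_pow j _ 2).symm
      rw [e1, e2, hsF, map_neg, map_neg, map_natCast, map_natCast]
    rcases sq_eq_sq_iff_eq_or_eq_neg.mp h1 with h2 | h2
    · exfalso
      apply hjJ
      ext z
      obtain ⟨a, b, rfl⟩ := exists_coords hq0 hF hsF z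
      simp only [map_add, map_mul, map_ratCast, h2]
    · exact h2
  -- the dyadic residue
  obtain ⟨σ, hσ⟩ : ∃ σ : ℤ_[2], j (s : F) = σ := ⟨⟨j s, norm_int_le_one j s⟩, rfl⟩
  have hσ2 : σ ^ 2 = -(q : ℤ_[2]) := by
    apply PadicInt.ext
    push_cast
    rw [← hσ, ← map_pow, hsF, map_neg, map_natCast]
  have hres : PadicInt.toZModPow 3 σ = 3 ∨ PadicInt.toZModPow 3 σ = 5 := by
    have h1 := congrArg (PadicInt.toZModPow 4) hσ2
    rw [map_pow, map_neg, map_natCast] at h1
    have h2 : ((q : ℕ) : ZMod (2 ^ 4)) = 7 := by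
      have : ((q : ℕ) : ZMod (2 ^ 4)) = ((7 : ℕ) : ZMod (2 ^ 4)) :=
        (ZMod.natCast_eq_natCast_iff' q 7 (2 ^ 4)).mpr (by norm_num; omega)
      rw [this]
      rfl
    rw [h2] at h1
    have h3 : ZMod.castHom (show 2 ^ 3 ∣ 2 ^ 4 by norm_num) (ZMod (2 ^ 3))
        (PadicInt.toZModPow 4 σ) = PadicInt.toZModPow 3 σ :=
      RingHom.congr_fun (PadicInt.zmod_cast_comp_toZModPow 3 4 (by norm_num)) σ
    rw [← h3]
    generalize PadicInt.toZModPow 4 σ = r at h1
    revert h1
    revert r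
    decide
  rcases hres with h3 | h5
  · have hsI : sI hsF = s := RingOfIntegers.ext rfl
    rw [← hsI] at hρ
    exact hecke_rank_aux hq h16 hF hsF hgood hδ hσ h3 hJj hρ hP₀ hB hpar
  · -- replace `s` by `-s`
    have hsF' : (-(s : F)) ^ 2 = -(q : F) := by rw [neg_sq, hsF]
    have hsI : sI hsF' = -s := by
      apply RingOfIntegers.ext
      have h : ((-s : 𝓞 F) : F) = -(s : F) := by
        rw [RingOfIntegers.coe_eq_algebraMap, map_neg]
      exact h.symm
    have hρ' : Realises q (sI hsF') (δ * 2 ^ b₂ * ((∏ r ∈ rs, r : ℕ) : ℤ)) k j J ρ := by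
      refine ⟨hρ.continuous, hρ.inertia, ?_⟩
      intro P hP h2P g hg N t a ht hst
      rw [hsI, neg_dvd] at hst
      exact hρ.frobenius P hP h2P g hg N t a ht hst
    refine hecke_rank_aux hq h16 hF hsF' hgood hδ (σ' := -σ) ?_ ?_ ?_ hρ' hP₀ hB hpar
    · rw [map_neg, hσ]
      push_cast
      rfl
    · rw [map_neg, h5]
      rfl
    · rw [map_neg, map_neg, hJj]

end Pool.Agent.Lib.MP_7c08ba_nt
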